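import Pool.Agent.H37.GB.Stm

/-! # `S_BLK3` from `S_LAW` and `S_FLD3` -/

set_option autoImplicit false

namespace Pool.Agent.H37.GB

open Finset MeasureTheory Filter Topology Q198.CI

namespace BLK3

open Classical in
/-- the deterministic part: few large elements imply many misses -/
lemma det {M Y L : ℕ} [NeZero M] {A : Finset ℕ} (hL : 2 * Y < L) (Bad : Finset (ZMod M))
    (hBad : ∀ a ∈ A, ∀ b ∈ A, (a : ZMod M) + (b : ZMod M) ∉ Bad) :
    (Bad.card : ℝ) ≤ L + (Y + 1) * (A.filter (fun n => L - Y ≤ n)).card +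
      ((Ioo (2 * Y) M).filter (fun N => Miss Y N A)).card := by
  have h1 : Bad.card ≤ ((range M).filter (fun N : ℕ => (N : ZMod M) ∈ Bad)).card := by
    refine card_le_card_of_injOn (fun x : ZMod M => x.val) ?_ ?_
    · intro x hx
      simp only [coe_filter, mem_range, Set.mem_ofPred_eq, ZMod.natCast_val, ZMod.cast_id', id_eq]
      exact ⟨ZMod.val_lt x, hx⟩
    · intro x _ y _ h
      exact ZMod.val_injective M h
  have h2 : (range M).filter (fun N : ℕ => (N : ZMod M) ∈ Bad) ⊆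
      (range L ∪ ((A.filter (fun n => L - Y ≤ n)) ×ˢ range (Y + 1)).image
        (fun z : ℕ × ℕ => z.1 + z.2)) ∪ (Ioo (2 * Y) M).filter (fun N => Miss Y N A) := by
    intro N hN
    rw [mem_filter, mem_range] at hN
    by_cases c1 : N < L
    · exact mem_union_left _ (mem_union_left _ (mem_range.2 c1))
    by_cases c2 : N ∈ ((A.filter (fun n => L - Y ≤ n)) ×ˢ range (Y + 1)).image
        (fun z : ℕ × ℕ => z.1 + z.2)
    · exact mem_union_left _ (mem_union_right _ c2)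
    refine mem_union_right _ (mem_filter.2 ⟨mem_Ioo.2 ⟨by omega, hN.1⟩, ?_, ?_⟩)
    · intro a ha hm
      refine c2 (mem_image.2 ⟨(N - a, a), mem_product.2 ⟨mem_filter.2 ⟨hm, ?_⟩, ?_⟩, ?_⟩)
      · simp only
        omega
      · simp only [mem_range]
        omega
      · simp only
        omega
    · intro a ha b hb _ h
      refine hBad a ha b hb ?_
      rw [← Nat.cast_add, h]
      exact hN.2
  have h3 := (h1.trans (card_le_card h2)).trans (card_union_le _ _)
  have h4 := card_union_le (range L) (((A.filter (fun n => L - Y ≤ n)) ×ˢ range (Y + 1)).image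
        (fun z : ℕ × ℕ => z.1 + z.2))
  have h5 : (((A.filter (fun n => L - Y ≤ n)) ×ˢ range (Y + 1)).image
        (fun z : ℕ × ℕ => z.1 + z.2)).card ≤ (A.filter (fun n => L - Y ≤ n)).card * (Y + 1) := by
    refine card_image_le.trans ?_
    rw [card_product, card_range]
  rw [card_range] at h4
  have h6 : Bad.card ≤ L + (Y + 1) * (A.filter (fun n => L - Y ≤ n)).card +
      ((Ioo (2 * Y) M).filter (fun N => Miss Y N A)).card := by
    rw [Nat.mul_comm (Y + 1)]
    omega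
  exact_mod_cast h6

lemma sum_wl {I : Finset ℕ} (p m : ℕ → ℝ) : ∑ A ∈ I.powerset, wl I p m A = 1 := by
  have h := prod_moment (empty_subset I) (fun n => p n * (1 + m n))
  rw [prod_empty] at h
  rw [← h]
  refine sum_congr ?_ fun A _ => rfl
  ext A
  simp

open Classical in
lemma sum_wl_one {I : Finset ℕ} (p m : ℕ → ℝ) {n : ℕ} (hn : n ∈ I) :
    ∑ A ∈ I.powerset, (if n ∈ A then wl I p m A else 0) = p n * (1 + m n) := by
  have h := prod_moment (singleton_subset_iff.2 hn) (fun n => p n * (1 + m n))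
  rw [prod_singleton] at h
  rw [← h, ← sum_filter]
  refine sum_congr ?_ fun A _ => rfl
  ext A
  simp only [mem_filter, mem_powerset, mem_Icc, singleton_subset_iff]
  tauto

open Classical in
lemma sum_wl_card {I J : Finset ℕ} (hJ : J ⊆ I) (p m : ℕ → ℝ) :
    ∑ A ∈ I.powerset, wl I p m A * ((A ∩ J).card : ℝ) = ∑ n ∈ J, p n * (1 + m n) := by
  have h : ∀ A ∈ I.powerset, wl I p m A * ((A ∩ J).card : ℝ) =
      ∑ n ∈ J, (if n ∈ A then wl I p m A else 0) := by
    intro A _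
    rw [← sum_filter, sum_const, nsmul_eq_mul, mul_comm]
    congr 2
    rw [inter_comm, filter_mem_eq_inter]
  rw [sum_congr rfl h, sum_comm]
  exact sum_congr rfl fun n hn => sum_wl_one p m (hJ hn)

open Classical in
/-- the mass of the good event for one value of the parameter -/
lemma half {M Y L : ℕ} [NeZero M] {B ε δ : ℝ} (hB : 0 ≤ B) (hε : 0 < ε) (hL : 2 * Y < L)
    (hLM : (L : ℝ) ≤ ε / 4 * M) (hM : 0 < (M : ℝ)) {p : ℕ → ℝ} (hp : ∀ n, 0 ≤ p n)
    (hp1 : ∀ n ∈ Ioo Y M, p n * (1 + B) ≤ 1) (hδ : ∀ n, L - Y ≤ n → p n * (1 + B) ≤ δ)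
    (hδ1 : (Y + 1 : ℝ) * δ ≤ ε / 8) (m : ZMod M → ℝ) (hm1 : ∀ x, -1 ≤ m x) (hm2 : ∀ x, m x ≤ B)
    (Bad : Finset (ZMod M)) (hBad : (1 - ε / 4) * M ≤ (Bad.card : ℝ))
    (hxy : ∀ x y, x + y ∈ Bad → m x = -1 ∨ m y = -1) :
    1 / 2 ≤ mass (Ioo Y M) (wl (Ioo Y M) p (fun n => m n)) (fun A =>
        (1 - ε) * M ≤ (((Ioo (2 * Y) M).filter (fun N => Miss Y N A)).card : ℝ)) := by
  set I := Ioo Y M with hI
  set w := wl I p (fun n => m n) with hw
  set J := I.filter (fun n => L - Y ≤ n) with hJ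
  have hr0 : ∀ n, 0 ≤ p n * (1 + m n) := fun n => mul_nonneg (hp n) (by linarith [hm1 n])
  have hr1 : ∀ n ∈ I, p n * (1 + m n) ≤ 1 := fun n hn =>
    (mul_le_mul_of_nonneg_left (by linarith [hm2 n]) (hp n)).trans (hp1 n hn)
  have hw0 : ∀ A ∈ I.powerset, 0 ≤ w A := fun A _ =>
    mul_nonneg (prod_nonneg fun n _ => hr0 n)
      (prod_nonneg fun n hn => sub_nonneg.2 (hr1 n (mem_sdiff.1 hn).1))
  have hkey : ∀ A ∈ I.powerset, w A ≤ (if (1 - ε) * M ≤
      (((Ioo (2 * Y) M).filter (fun N => Miss Y N A)).card : ℝ) then w A else 0) +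
      (4 * (Y + 1) / (ε * M)) * (w A * ((A ∩ J).card : ℝ)) := by
    intro A hA
    have hA' := mem_powerset.1 hA
    have hcoef : 0 ≤ (4 * (Y + 1 : ℝ) / (ε * M)) := by positivity
    have hn0 : 0 ≤ w A * ((A ∩ J).card : ℝ) := mul_nonneg (hw0 A hA) (Nat.cast_nonneg _)
    split_ifs with hG
    · have := mul_nonneg hcoef hn0
      linarith
    · rw [zero_add]
      rcases (hw0 A hA).eq_or_lt with h0 | h0
      · rw [← h0]
        simp
      have hne : ∀ a ∈ A, m a ≠ -1 := by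
        intro a ha h
        have : w A = 0 := by
          rw [hw, wl, prod_eq_zero ha, zero_mul]
          rw [h]
          ring
        linarith
      have hd := det (M := M) (Y := Y) (L := L) (A := A) hL Bad fun a ha b hb hab => by
        rcases hxy _ _ hab with h | h
        · exact hne a ha h
        · exact hne b hb h
      have hAJ : A ∩ J = A.filter (fun n => L - Y ≤ n) := by
        ext n
        simp only [hJ, mem_inter, mem_filter]
        exact ⟨fun h => ⟨h.1, h.2.2⟩, fun h => ⟨h.1, hA' h.1, h.2⟩⟩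
      rw [← hAJ] at hd
      have h1 : ε / 4 * M ≤ (Y + 1) * ((A ∩ J).card : ℝ) := by
        push Not at hG
        nlinarith
      have h2 : 1 ≤ (4 * (Y + 1) / (ε * M)) * ((A ∩ J).card : ℝ) := by
        rw [div_mul_eq_mul_div, le_div_iff₀ (by positivity)]
        linarith
      calc w A = w A * 1 := (mul_one _).symm
        _ ≤ w A * ((4 * (Y + 1) / (ε * M)) * ((A ∩ J).card : ℝ)) :=
          mul_le_mul_of_nonneg_left h2 h0.le
        _ = _ := by ring
  have hsum := sum_le_sum hkey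
  rw [sum_add_distrib, ← mul_sum, hw, sum_wl, sum_wl_card (filter_subset _ _), ← hw] at hsum
  have hcard : (J.card : ℝ) ≤ M := by
    have : J.card ≤ M := by
      refine (card_le_card (filter_subset _ _)).trans ?_
      rw [hI, Nat.card_Ioo]
      omega
    exact_mod_cast this
  have hδ0 : 0 ≤ δ := (mul_nonneg (hp _) (by linarith)).trans (hδ (L - Y) le_rfl)
  have hs2 : ∑ n ∈ J, p n * (1 + m n) ≤ M * δ := by
    have : ∑ n ∈ J, p n * (1 + m n) ≤ J.card • δ := by
      refine sum_le_card_nsmul _ _ _ fun n hn => ?_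
      exact (mul_le_mul_of_nonneg_left (by linarith [hm2 n]) (hp n)).trans
        (hδ n (mem_filter.1 hn).2)
    rw [nsmul_eq_mul] at this
    exact this.trans (mul_le_mul_of_nonneg_right hcard hδ0)
  have hs3 : (4 * (Y + 1) / (ε * M)) * ∑ n ∈ J, p n * (1 + m n) ≤ 1 / 2 := by
    rw [div_mul_eq_mul_div, div_le_iff₀ (by positivity)]
    have h1 : 4 * (Y + 1 : ℝ) * ∑ n ∈ J, p n * (1 + m n) ≤ 4 * (Y + 1) * (M * δ) :=
      mul_le_mul_of_nonneg_left hs2 (by positivity)
    have h2 : 4 * (Y + 1 : ℝ) * (M * δ) = 4 * M * ((Y + 1) * δ) := by ring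
    have h3 : 4 * (M : ℝ) * ((Y + 1) * δ) ≤ 4 * M * (ε / 8) :=
      mul_le_mul_of_nonneg_left hδ1 (by positivity)
    linarith
  unfold mass
  linarith

end BLK3

open BLK3

theorem blk3 : S_LAW → S_FLD3 → S_BLK3 := by
  classical
  intro hlaw hfld p hp hp0 ε hε hε1
  obtain ⟨c, B, hc, hB, M₀, hF⟩ := hfld (ε / 4) (by linarith) (by linarith)
  have hsm : ∀ δ : ℝ, 0 < δ → ∃ n₀ : ℕ, ∀ n, n₀ ≤ n → p n * (1 + B) ≤ δ := by
    intro δ hδ
    have h := (hp0.mul_const (1 + B)).eventually_le_const (u := δ) (by simpa using hδ)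
    exact eventually_atTop.1 h
  obtain ⟨Y₀, hY₀⟩ := hsm 1 one_pos
  refine ⟨c / 2, by linarith, Y₀, fun Y hY => ?_⟩
  obtain ⟨n₀, hn₀⟩ := hsm (ε / (8 * (Y + 1))) (by positivity)
  have hfl : Tendsto (fun M : ℕ => ⌊ε / 4 * (M : ℝ)⌋₊) atTop atTop :=
    tendsto_nat_floor_atTop.comp (tendsto_natCast_atTop_atTop.const_mul_atTop (by linarith))
  filter_upwards [hfl.eventually_ge_atTop (2 * Y + n₀ + 1), eventually_ge_atTop M₀,
    eventually_gt_atTop 0] with M hM1 hM2 hM0 hprime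
  have : NeZero M := ⟨hprime.ne_zero⟩
  obtain ⟨Θ, hΘ, W, m, Θ₀, Bad, hf, hc1, hbad⟩ := hF M hprime hM2
  refine ⟨fun A => ∑ θ, W θ * wl (Ioo Y M) p (fun n => m θ n) A,
    hlaw M 3 B Θ W m p (Ioo Y M) hf hB (fun n hn => (mem_Ioo.1 hn).2) fun n hn =>
      ⟨hp n, hY₀ n (hY.trans (mem_Ioo.1 hn).1.le)⟩, ?_⟩
  set G : Finset ℕ → Prop := fun A =>
    (1 - ε) * M ≤ (((Ioo (2 * Y) M).filter (fun N => Miss Y N A)).card : ℝ) with hG
  have hM0' : (0 : ℝ) < M := by exact_mod_cast hM0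
  have hswap : mass (Ioo Y M) (fun A => ∑ θ, W θ * wl (Ioo Y M) p (fun n => m θ n) A) G =
      ∑ θ, W θ * mass (Ioo Y M) (wl (Ioo Y M) p (fun n => m θ n)) G := by
    unfold mass
    have h1 : ∀ A ∈ (Ioo Y M).powerset,
        (if G A then ∑ θ, W θ * wl (Ioo Y M) p (fun n => m θ n) A else 0) =
        ∑ θ, W θ * (if G A then wl (Ioo Y M) p (fun n => m θ n) A else 0) := by
      intro A _
      split_ifs
      · rfl
      · simp
    rw [sum_congr rfl h1, sum_comm]
    exact sum_congr rfl fun θ _ => (mul_sum _ _ _).symm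
  have hnn : ∀ θ, 0 ≤ mass (Ioo Y M) (wl (Ioo Y M) p (fun n => m θ n)) G := by
    intro θ
    refine sum_nonneg fun A _ => ?_
    split_ifs
    · refine mul_nonneg (prod_nonneg fun n _ => mul_nonneg (hp n) (by linarith [hf.low θ n])) ?_
      refine prod_nonneg fun n hn => sub_nonneg.2 ?_
      exact (mul_le_mul_of_nonneg_left (by linarith [hf.upp θ n]) (hp n)).trans
        (hY₀ n (hY.trans (mem_Ioo.1 (mem_sdiff.1 hn).1).1.le))
    · exact le_rfl
  rw [hswap]
  have hhalf : ∀ θ ∈ Θ₀, 1 / 2 ≤ mass (Ioo Y M) (wl (Ioo Y M) p (fun n => m θ n)) G := by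
    intro θ hθ
    obtain ⟨hb1, hb2⟩ := hbad θ hθ
    refine half (L := ⌊ε / 4 * (M : ℝ)⌋₊) (δ := ε / (8 * (Y + 1))) hB hε (by omega)
      (Nat.floor_le (by positivity)) hM0' hp
      (fun n hn => hY₀ n (hY.trans (mem_Ioo.1 hn).1.le)) (fun n hn => hn₀ n (by omega)) ?_
      (m θ) (hf.low θ) (hf.upp θ) (Bad θ) hb1 hb2
    have : (0 : ℝ) < Y + 1 := by positivity
    field_simp
    exact le_rfl
  calc c / 2 ≤ (∑ θ ∈ Θ₀, W θ) * (1 / 2) := by linarith
    _ = ∑ θ ∈ Θ₀, W θ * (1 / 2) := by rw [sum_mul]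
    _ ≤ ∑ θ ∈ Θ₀, W θ * mass (Ioo Y M) (wl (Ioo Y M) p (fun n => m θ n)) G :=
      sum_le_sum fun θ hθ => mul_le_mul_of_nonneg_left (hhalf θ hθ) (hf.nonneg θ)
    _ ≤ ∑ θ, W θ * mass (Ioo Y M) (wl (Ioo Y M) p (fun n => m θ n)) G :=
      sum_le_sum_of_subset_of_nonneg (subset_univ _) fun θ _ _ =>
        mul_nonneg (hf.nonneg θ) (hnn θ)

end Pool.Agent.H37.GB
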