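import Pool.Agent.H37.GB.Stm

/-! # GB-BLK7: the laws on blocks of order 7 -/

set_option autoImplicit false

namespace Pool.Agent.H37.GB

open Finset MeasureTheory Filter Topology Q198.CI

namespace B7

lemma wl_nonneg {I : Finset ℕ} {p m : ℕ → ℝ} {A : Finset ℕ} (hA : A ⊆ I)
    (hp : ∀ n ∈ I, 0 ≤ p n ∧ p n * 2 ≤ 1) (hm : ∀ n, -1 ≤ m n) (hm1 : ∀ n, m n ≤ 1) :
    0 ≤ wl I p m A := by
  unfold wl
  refine mul_nonneg (prod_nonneg fun n hn => ?_) (prod_nonneg fun n hn => ?_)
  · exact mul_nonneg (hp n (hA hn)).1 (by linarith [hm n])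
  · have h1 := hp n (mem_sdiff.1 hn).1
    have : p n * (1 + m n) ≤ p n * 2 := mul_le_mul_of_nonneg_left (by linarith [hm1 n]) h1.1
    linarith [h1.2]

lemma wl_sum (I : Finset ℕ) (p m : ℕ → ℝ) : ∑ A ∈ I.powerset, wl I p m A = 1 := by
  have h := prod_moment (T := ∅) (I := I) (empty_subset _) (fun n => p n * (1 + m n))
  rw [prod_empty] at h
  rw [← h]
  refine sum_congr ?_ fun _ _ => rfl
  ext A
  simp

lemma wl_mem {I : Finset ℕ} {p m : ℕ → ℝ} {n : ℕ} (hn : n ∈ I) :
    ∑ A ∈ I.powerset, (if n ∈ A then wl I p m A else 0) = p n * (1 + m n) := by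
  have h := prod_moment (T := {n}) (I := I) (singleton_subset_iff.2 hn)
    (fun n => p n * (1 + m n))
  rw [prod_singleton] at h
  rw [← h, ← sum_filter]
  refine sum_congr ?_ fun _ _ => rfl
  ext A
  simp only [mem_filter, mem_powerset, mem_Icc, singleton_subset_iff]
  tauto

lemma wl_zero {M : ℕ} [NeZero M] {I : Finset ℕ} (hI : ∀ n ∈ I, n < M) {p : ℕ → ℝ}
    {m : ZMod M → ℝ} {N : ℕ}
    (hN : ∀ x : ZMod M, x ≠ (N : ZMod M) - x → m x = -1 ∨ m ((N : ZMod M) - x) = -1)
    {A : Finset ℕ} (hA : A ⊆ I) {a b : ℕ} (ha : a ∈ A) (hb : b ∈ A) (hab : a < b)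
    (hs : a + b = N) : wl I p (fun n => m n) A = 0 := by
  have hbM : b < M := hI b (hA hb)
  have haM : a < M := hab.trans hbM
  have e : (b : ZMod M) = (N : ZMod M) - a := by
    rw [← hs]
    push_cast
    ring
  have hne : (a : ZMod M) ≠ (N : ZMod M) - a := by
    rw [← e]
    intro h
    have h1 := congrArg ZMod.val h
    rw [ZMod.val_natCast_of_lt haM, ZMod.val_natCast_of_lt hbM] at h1
    omega
  unfold wl
  rcases hN a hne with h | h
  · rw [prod_eq_zero ha (by simp only [h]; ring), zero_mul]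
  · rw [← e] at h
    rw [prod_eq_zero hb (by simp only [h]; ring), zero_mul]

lemma one_field {M Y : ℕ} [NeZero M] {p : ℕ → ℝ}
    (hp : ∀ n ∈ Ioo Y M, 0 ≤ p n ∧ p n * 2 ≤ 1) (hp0 : ∀ n, 0 ≤ p n) {m : ZMod M → ℝ}
    (hm : ∀ x, -1 ≤ m x) (hm1 : ∀ x, m x ≤ 1)
    {N : ZMod M} (hN : ∀ x, x ≠ N - x → m x = -1 ∨ m (N - x) = -1) (hNY : 2 * Y < N.val)
    (hs : ∀ a ≤ Y, p (N.val - a) ≤ 1 / (4 * (Y + 1))) :
    1 / 2 ≤ mass (Ioo Y M) (wl (Ioo Y M) p (fun n => m n))
      (fun A => ∃ N, 2 * Y < N ∧ N < M ∧ Miss Y N A) := by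
  classical
  set I := Ioo Y M with hI
  have hNM : N.val < M := ZMod.val_lt N
  have hcast : ((N.val : ℕ) : ZMod M) = N := ZMod.natCast_zmod_val N
  have key : ∀ A ∈ I.powerset, wl I p (fun n => m n) A ≤
      (@ite _ (∃ N, 2 * Y < N ∧ N < M ∧ Miss Y N A) (Classical.propDecidable _)
        (wl I p (fun n => m n) A) 0) +
      ∑ a ∈ range (Y + 1), if N.val - a ∈ A then wl I p (fun n => m n) A else 0 := by
    intro A hA
    rw [mem_powerset] at hA
    have h0 : 0 ≤ wl I p (fun n => m n) A := wl_nonneg hA hp (fun n => hm n) (fun n => hm1 n)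
    have h1 : 0 ≤ ∑ a ∈ range (Y + 1), if N.val - a ∈ A then wl I p (fun n => m n) A else 0 := by
      refine sum_nonneg fun a _ => ?_
      split_ifs
      · exact h0
      · exact le_rfl
    by_cases hG : ∃ N, 2 * Y < N ∧ N < M ∧ Miss Y N A
    · rw [if_pos hG]
      linarith
    · rw [if_neg hG, zero_add]
      have h2 : ¬ Miss Y N.val A := fun h => hG ⟨N.val, hNY, hNM, h⟩
      unfold Miss at h2
      rw [not_and_or] at h2
      rcases h2 with h2 | h2
      · push Not at h2
        obtain ⟨a, ha, haA⟩ := h2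
        have h3 := single_le_sum (f := fun a => if N.val - a ∈ A then
          wl I p (fun n => m n) A else 0) (s := range (Y + 1)) (fun b _ => by
            split_ifs
            · exact h0
            · exact le_rfl) (mem_range.2 (by omega : a < Y + 1))
        rw [if_pos haA] at h3
        exact h3
      · push Not at h2
        obtain ⟨a, ha, b, hb, hab, hsum⟩ := h2
        rw [wl_zero (I := I) (N := N.val) (fun n hn => (mem_Ioo.1 hn).2)
          (by rw [hcast]; exact hN) hA ha hb hab hsum] at h1 ⊢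
        exact h1
  have h1 := sum_le_sum key
  rw [wl_sum, sum_add_distrib, sum_comm] at h1
  have h2 : ∀ a ∈ range (Y + 1), (∑ A ∈ I.powerset, if N.val - a ∈ A then
      wl I p (fun n => m n) A else 0) ≤ 1 / (2 * (Y + 1)) := by
    intro a ha
    have ha' : a ≤ Y := by
      rw [mem_range] at ha
      omega
    have hY : (0:ℝ) < Y + 1 := by positivity
    have hmem : N.val - a ∈ I := by
      rw [hI, mem_Ioo]
      omega
    rw [wl_mem hmem]
    have h3 := hs a ha'
    have h4 := hp0 (N.val - a)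
    have h5 : p (N.val - a) * (1 + m ((N.val - a : ℕ) : ZMod M)) ≤ p (N.val - a) * 2 :=
      mul_le_mul_of_nonneg_left (by linarith [hm1 ((N.val - a : ℕ) : ZMod M)]) h4
    have h6 : (1 : ℝ) / (4 * (Y + 1)) * 2 = 1 / (2 * (Y + 1)) := by
      field_simp
      norm_num
    linarith
  have h3 := sum_le_sum h2
  rw [sum_const, card_range, nsmul_eq_mul] at h3
  have h4 : ((Y + 1 : ℕ) : ℝ) * (1 / (2 * (Y + 1))) = 1 / 2 := by
    push_cast
    field_simp
  rw [h4] at h3
  unfold mass
  linarith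

end B7

theorem blk7 : S_LAW → S_FLD7 → S_BLK7 := by
  classical
  intro hL hF p hp0 hp
  have h2 : ∀ᶠ n : ℕ in atTop, p n < 1 / 2 := (tendsto_order.1 hp).2 _ (by norm_num)
  obtain ⟨Y₀, hY₀⟩ := eventually_atTop.1 h2
  refine ⟨1 / 1600, by norm_num, Y₀, fun Y hY => ?_⟩
  have hY1 : (0:ℝ) < 1 / (4 * (Y + 1)) := by positivity
  obtain ⟨T, hT⟩ := eventually_atTop.1 ((tendsto_order.1 hp).2 _ hY1)
  filter_upwards [eventually_ge_atTop (11 + 4 * Y + 2 * T + 2 * Y + 2)] with M hM hMp
  have : NeZero M := ⟨hMp.ne_zero⟩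
  obtain ⟨Θ, _, W, m, τ, hfld, hτ, hmiss⟩ := hF M hMp (by omega)
  have hpI : ∀ n ∈ Ioo Y M, 0 ≤ p n ∧ p n * 2 ≤ 1 := by
    intro n hn
    rw [mem_Ioo] at hn
    have := hY₀ n (by omega)
    exact ⟨hp0 n, by linarith⟩
  refine ⟨fun A => ∑ θ, W θ * wl (Ioo Y M) p (fun n => m θ n) A,
    hL M 7 1 Θ W m p (Ioo Y M) hfld zero_le_one (fun n hn => (mem_Ioo.1 hn).2) (fun n hn => by
      have := hpI n hn
      exact ⟨this.1, by linarith [this.2]⟩), ?_⟩
  set G : Finset ℕ → Prop := fun A => ∃ N, 2 * Y < N ∧ N < M ∧ Miss Y N A with hG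
  -- decomposition over `θ`
  have e1 : mass (Ioo Y M) (fun A => ∑ θ, W θ * wl (Ioo Y M) p (fun n => m θ n) A) G =
      ∑ θ, W θ * mass (Ioo Y M) (wl (Ioo Y M) p (fun n => m θ n)) G := by
    unfold mass
    simp_rw [mul_sum]
    rw [sum_comm]
    refine sum_congr rfl fun A _ => ?_
    by_cases h : G A
    · simp only [if_pos h]
    · simp only [if_neg h, mul_zero, sum_const_zero]
  rw [e1]
  -- lower bounds for each `θ`
  have hmass0 : ∀ θ, 0 ≤ mass (Ioo Y M) (wl (Ioo Y M) p (fun n => m θ n)) G := by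
    intro θ
    unfold mass
    refine sum_nonneg fun A hA => ?_
    split_ifs
    · exact B7.wl_nonneg (mem_powerset.1 hA) hpI (fun n => hfld.low θ n) (fun n => hfld.upp θ n)
    · exact le_rfl
  have hθ : ∀ θ, (∑ N ∈ univ.filter (fun N : ZMod M => M / 2 < N.val),
      (if τ θ = some N then W θ else 0)) * (1 / 2) ≤
        W θ * mass (Ioo Y M) (wl (Ioo Y M) p (fun n => m θ n)) G := by
    intro θ
    have hW := hfld.nonneg θ
    by_cases hex : ∃ N : ZMod M, M / 2 < N.val ∧ τ θ = some N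
    · obtain ⟨N, hN1, hN2⟩ := hex
      have hsum : (∑ N ∈ univ.filter (fun N : ZMod M => M / 2 < N.val),
          (if τ θ = some N then W θ else 0)) ≤ W θ := by
        rw [sum_eq_single N]
        · rw [if_pos hN2]
        · intro N' _ hne
          rw [if_neg]
          rw [hN2]
          intro h
          exact hne (Option.some.inj h).symm
        · intro h
          exact absurd (mem_filter.2 ⟨mem_univ N, hN1⟩) h
      have h3 := B7.one_field (Y := Y) hpI hp0 (hfld.low θ) (hfld.upp θ)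
        (fun x hx => hmiss θ N hN2 x hx) (by omega) (by
          intro a ha
          exact (hT _ (by omega)).le)
      calc _ ≤ W θ * (1 / 2) := mul_le_mul_of_nonneg_right hsum (by norm_num)
        _ ≤ _ := mul_le_mul_of_nonneg_left h3 hW
    · have hsum : (∑ N ∈ univ.filter (fun N : ZMod M => M / 2 < N.val),
          (if τ θ = some N then W θ else 0)) = 0 := by
        refine sum_eq_zero fun N hN => ?_
        rw [if_neg]
        exact fun h => hex ⟨N, (mem_filter.1 hN).2, h⟩
      rw [hsum, zero_mul]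
      exact mul_nonneg hW (hmass0 θ)
  refine le_trans ?_ (sum_le_sum fun θ _ => hθ θ)
  rw [← sum_mul, sum_comm]
  have hcard : (M : ℝ) / 4 ≤ ((univ.filter (fun N : ZMod M => M / 2 < N.val)).card : ℝ) := by
    have h4 : M - 1 - M / 2 ≤ (univ.filter (fun N : ZMod M => M / 2 < N.val)).card := by
      have h5 : ((Ioo (M / 2) M).image (fun n : ℕ => (n : ZMod M))) ⊆
          univ.filter (fun N : ZMod M => M / 2 < N.val) := by
        intro x hx
        rw [mem_image] at hx
        obtain ⟨n, hn, rfl⟩ := hx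
        rw [mem_Ioo] at hn
        rw [mem_filter]
        refine ⟨mem_univ _, ?_⟩
        rw [ZMod.val_natCast_of_lt hn.2]
        exact hn.1
      have h6 := card_le_card h5
      rw [card_image_of_injOn, Nat.card_Ioo] at h6
      · omega
      · intro a ha b hb hab
        rw [coe_Ioo, Set.mem_Ioo] at ha hb
        have h7 := congrArg ZMod.val hab
        dsimp only at h7
        rwa [ZMod.val_natCast_of_lt ha.2, ZMod.val_natCast_of_lt hb.2] at h7
    have h5 : M ≤ 4 * (M - 1 - M / 2) := by omega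
    have h6 : (M : ℝ) ≤ 4 * ((M - 1 - M / 2 : ℕ) : ℝ) := by exact_mod_cast h5
    have h7 : ((M - 1 - M / 2 : ℕ) : ℝ) ≤
      ((univ.filter (fun N : ZMod M => M / 2 < N.val)).card : ℝ) := by exact_mod_cast h4
    linarith
  have hMpos : (0:ℝ) < M := by exact_mod_cast hMp.pos
  have h5 : ∑ N ∈ univ.filter (fun N : ZMod M => M / 2 < N.val), (1 / (200 * M) : ℝ) ≤
      ∑ N ∈ univ.filter (fun N : ZMod M => M / 2 < N.val), ∑ θ,
        (if τ θ = some N then W θ else 0) := by
    refine sum_le_sum fun N _ => ?_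
    have := hτ N
    convert this using 2
  rw [sum_const, nsmul_eq_mul] at h5
  have h6 : (M : ℝ) / 4 * (1 / (200 * M)) = 1 / 800 := by
    field_simp
    norm_num
  have h7 : (M : ℝ) / 4 * (1 / (200 * M)) ≤
      ((univ.filter (fun N : ZMod M => M / 2 < N.val)).card : ℝ) * (1 / (200 * M)) :=
    mul_le_mul_of_nonneg_right hcard (by positivity)
  linarith

end Pool.Agent.H37.GB
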