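import Pool.Agent.H37.GB.Stm

/-! GB-FLD3: the field of order 3 (helper63) -/

set_option autoImplicit false

namespace Pool.Agent.H37.GB

open Finset

namespace FLD3

variable {M : ℕ} [NeZero M]

/-- the two-valued function -/
noncomputable def ff (M J : ℕ) (v : ℝ) (φ : ZMod M) : ℝ := if φ.val < J then v else -1

lemma card_low (J : ℕ) (hJ : J ≤ M) : ((univ : Finset (ZMod M)).filter (fun φ => φ.val < J)).card = J := by
  have h : (univ : Finset (ZMod M)).filter (fun φ => φ.val < J) =
      (range J).image (fun i : ℕ => (i : ZMod M)) := by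
    ext φ
    simp only [mem_filter, mem_univ, true_and, mem_image, mem_range]
    constructor
    · intro h
      exact ⟨φ.val, h, ZMod.natCast_zmod_val φ⟩
    · rintro ⟨i, hi, rfl⟩
      rw [ZMod.val_natCast_of_lt (by omega)]
      exact hi
  rw [h, card_image_of_injOn, card_range]
  intro i hi j hj hij
  simp only [coe_range, Set.mem_Iio] at hi hj
  have := congrArg ZMod.val hij
  simp only at this
  rwa [ZMod.val_natCast_of_lt (by omega), ZMod.val_natCast_of_lt (by omega)] at this

lemma sum_ff (J : ℕ) (hJ : J ≤ M) (v : ℝ) (hv : v * J = M - J) : ∑ φ : ZMod M, ff M J v φ = 0 := by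
  unfold ff
  rw [Finset.sum_ite, sum_const, sum_const, card_low J hJ]
  have h1 : ((univ : Finset (ZMod M)).filter (fun φ => ¬ φ.val < J)).card = M - J := by
    have h2 := Finset.card_filter_add_card_filter_not (s := (univ : Finset (ZMod M))) (fun φ => φ.val < J)
    rw [card_low J hJ, Finset.card_univ, ZMod.card] at h2
    omega
  rw [h1]
  simp only [nsmul_eq_mul]
  rw [Nat.cast_sub hJ]
  linarith

lemma sum_one (f : ZMod M → ℝ) (hf : ∑ φ, f φ = 0) (b x : ZMod M) :
    ∑ g : ZMod M, f (b * x + g) = 0 := by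
  rw [← hf]
  exact Fintype.sum_equiv (Equiv.addLeft (b * x)) _ _ (fun g => rfl)

lemma sum_two (hM : M.Prime) (f : ZMod M → ℝ) (hf : ∑ φ, f φ = 0) (x y : ZMod M) (hxy : x ≠ y) :
    ∑ b : ZMod M, ∑ g : ZMod M, f (b * x + g) * f (b * y + g) = 0 := by
  haveI : Fact M.Prime := ⟨hM⟩
  have h1 : ∀ b : ZMod M, ∑ g : ZMod M, f (b * x + g) * f (b * y + g) =
      ∑ g : ZMod M, f g * f (g + b * (y - x)) := by
    intro b
    refine Fintype.sum_equiv (Equiv.addLeft (b * x)) _ _ (fun g => ?_)
    simp only [Equiv.coe_addLeft]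
    congr 2
    ring
  rw [sum_congr rfl (fun b _ => h1 b), sum_comm]
  apply sum_eq_zero
  intro g _
  rw [← mul_sum]
  have h2 : ∑ b : ZMod M, f (g + b * (y - x)) = 0 := by
    have hne : y - x ≠ 0 := sub_ne_zero.2 hxy.symm
    rw [← hf]
    exact Fintype.sum_equiv ((Equiv.mulRight₀ (y - x) hne).trans (Equiv.addLeft g)) _ _ (fun b => rfl)
  rw [h2, mul_zero]

end FLD3

open FLD3 in
theorem fld3 : S_FLD3 := by
  classical
  intro ε hε0 hε1
  set K : ℝ := 4 / ε with hK
  have hKpos : 0 < K := by positivity
  refine ⟨1 / (2 * (1 + K ^ 3)), K, by positivity, hKpos.le, max 2 ⌈4 / ε⌉₊, ?_⟩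
  intro M _ hM hM0
  haveI : Fact M.Prime := ⟨hM⟩
  have hM2 : 2 ≤ M := (le_max_left _ _).trans hM0
  have hM4 : 4 / ε ≤ M := (Nat.le_ceil _).trans (by exact_mod_cast (le_max_right _ _).trans hM0)
  have hMpos : (0 : ℝ) < M := by exact_mod_cast (by omega : 0 < M)
  set J : ℕ := ⌊ε * M / 2⌋₊ with hJ
  have hJle : (J : ℝ) ≤ ε * M / 2 := Nat.floor_le (by positivity)
  have hJge : ε * M / 4 ≤ (J : ℝ) := by
    have h1 : ε * M / 2 - 1 < J := by
      have := Nat.lt_floor_add_one (ε * M / 2)
      linarith
    have h2 : 4 ≤ ε * M := by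
      rw [div_le_iff₀ hε0] at hM4
      linarith
    linarith
  have hJpos : (0 : ℝ) < J := lt_of_lt_of_le (by positivity) hJge
  have hJM : (J : ℝ) ≤ M / 2 := by nlinarith
  have hJM' : J ≤ M := by
    have : (J : ℝ) ≤ M := by linarith
    exact_mod_cast this
  set v : ℝ := (M - J) / J with hv
  have hvJ : v * J = M - J := by
    rw [hv]; field_simp
  have hvpos : 0 < v := by
    rw [hv]; apply div_pos _ hJpos; linarith
  have hv1 : 1 ≤ v := by
    rw [hv, le_div_iff₀ hJpos]; linarith
  have hvK : v ≤ K := by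
    rw [hv, hK, div_le_div_iff₀ hJpos hε0]
    nlinarith
  set f : ZMod M → ℝ := ff M J v with hf
  have hf0 : ∑ φ, f φ = 0 := sum_ff J hJM' v hvJ
  have hfval : ∀ φ, f φ = v ∨ f φ = -1 := by
    intro φ
    simp only [hf, ff]
    split_ifs
    · exact Or.inl rfl
    · exact Or.inr rfl
  have hfv : ∀ φ, f φ ≠ -1 → φ.val < J := by
    intro φ h
    by_contra hcon
    exact h (by simp only [hf, ff]; rw [if_neg hcon])
  set w1 : ℝ := 1 / (1 + v ^ 3) with hw1
  set w2 : ℝ := v ^ 3 / (1 + v ^ 3) with hw2
  have hden : 0 < 1 + v ^ 3 := by positivity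
  have hw1p : 0 < w1 := by positivity
  have hw2p : 0 < w2 := by positivity
  have hw12 : w1 + w2 = 1 := by
    rw [hw1, hw2, ← add_div, div_self hden.ne']
  have hw12' : w2 = w1 * v ^ 3 := by rw [hw1, hw2]; ring
  refine ⟨Bool × ZMod M × ZMod M, inferInstance,
    fun θ => if θ.1 then w1 / M ^ 2 else w2 / M ^ 2,
    fun θ x => if θ.1 then f (θ.2.1 * x + θ.2.2) else -f (θ.2.1 * x + θ.2.2) / v,
    univ.filter (fun θ => θ.1 = true ∧ θ.2.1 ≠ 0),
    fun θ => univ.filter (fun N => ∀ a b : ZMod M, a.val < J → b.val < J →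
      θ.2.1 * N + 2 * θ.2.2 ≠ a + b), ?_, ?_, ?_⟩
  · refine ⟨?_, ?_, ?_, ?_, ?_⟩
    · rintro ⟨b, β, γ⟩
      cases b <;> simp <;> positivity
    · rw [Fintype.sum_prod_type, Fintype.sum_bool]
      simp only [if_true, Bool.false_eq_true, if_false, sum_const, Finset.card_univ,
        Fintype.card_prod, ZMod.card, nsmul_eq_mul]
      push_cast
      field_simp
      linarith
    · rintro ⟨b, β, γ⟩ x
      cases b
      · simp only [Bool.false_eq_true, if_false]
        rcases hfval (β * x + γ) with h | h
        · rw [h, neg_div, div_self hvpos.ne']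
        · rw [h, neg_neg]
          have : 0 < 1 / v := by positivity
          linarith
      · simp only [if_true]
        rcases hfval (β * x + γ) with h | h <;> rw [h] <;> linarith
    · rintro ⟨b, β, γ⟩ x
      have h1v : 1 / v ≤ 1 := by rw [div_le_one hvpos]; exact hv1
      cases b
      · simp only [Bool.false_eq_true, if_false]
        rcases hfval (β * x + γ) with h | h
        · rw [h, neg_div, div_self hvpos.ne']; linarith
        · rw [h, neg_neg]; linarith
      · simp only [if_true]
        rcases hfval (β * x + γ) with h | h <;> rw [h] <;> linarith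
    · intro S hS hcard
      rw [Fintype.sum_prod_type, Fintype.sum_bool]
      simp only [if_true, Bool.false_eq_true, if_false]
      -- second type in terms of the first
      have h2 : ∀ θ : ZMod M × ZMod M, ∏ x ∈ S, (-f (θ.1 * x + θ.2) / v) =
          (-1 / v) ^ S.card * ∏ x ∈ S, f (θ.1 * x + θ.2) := by
        intro θ
        rw [← prod_const, ← prod_mul_distrib]
        apply prod_congr rfl
        intro x _
        ring
      simp only [h2]
      rw [← mul_sum, ← mul_sum, ← mul_sum]
      set Cs := ∑ θ : ZMod M × ZMod M, ∏ x ∈ S, f (θ.1 * x + θ.2) with hCs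
      rcases Nat.lt_or_ge S.card 3 with h3 | h3
      · have hC0 : Cs = 0 := by
          rw [hCs, Fintype.sum_prod_type]
          have hpos := hS.card_pos
          interval_cases hc : S.card
          · obtain ⟨x, hx⟩ := Finset.card_eq_one.1 hc
            rw [hx]
            simp only [prod_singleton]
            exact sum_eq_zero (fun b _ => sum_one f hf0 b x)
          · obtain ⟨x, y, hxy, hx⟩ := Finset.card_eq_two.1 hc
            rw [hx]
            simp only [prod_pair hxy]
            exact sum_two hM f hf0 x y hxy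
        rw [hC0]
        simp
      · have hc : S.card = 3 := by omega
        rw [hc, hw12']
        field_simp
        ring
  · -- weight of Θ₀
    rw [sum_filter, Fintype.sum_prod_type, Fintype.sum_bool]
    simp only [true_and, Bool.false_eq_true, false_and, if_false, sum_const_zero, add_zero, if_true]
    rw [Fintype.sum_prod_type]
    have hin : ∀ x : ZMod M, (∑ _y : ZMod M, if x ≠ 0 then w1 / (M : ℝ) ^ 2 else 0) =
        if x ≠ 0 then M * (w1 / (M : ℝ) ^ 2) else 0 := by
      intro x
      rw [sum_const, Finset.card_univ, ZMod.card, nsmul_eq_mul]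
      split_ifs <;> simp
    rw [sum_congr rfl (fun x _ => hin x), ← sum_filter, sum_const, nsmul_eq_mul]
    have hcardne : ((univ : Finset (ZMod M)).filter (fun b => b ≠ 0)).card = M - 1 := by
      rw [Finset.filter_ne', Finset.card_erase_of_mem (mem_univ _), Finset.card_univ, ZMod.card]
    rw [hcardne, Nat.cast_sub (by omega)]
    push_cast
    have h1 : ((M : ℝ) - 1) * (M * (w1 / M ^ 2)) = w1 * ((M - 1) / M) := by
      field_simp
    rw [h1]
    have h2 : (1 : ℝ) / 2 ≤ (M - 1) / M := by
      rw [le_div_iff₀ hMpos]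
      have : (2 : ℝ) ≤ M := by exact_mod_cast hM2
      linarith
    have h3 : 1 / (1 + K ^ 3) ≤ w1 := by
      rw [hw1]
      apply one_div_le_one_div_of_le hden
      have := pow_le_pow_left₀ hvpos.le hvK 3
      linarith
    calc 1 / (2 * (1 + K ^ 3)) = 1 / (1 + K ^ 3) * (1 / 2) := by field_simp
      _ ≤ w1 * ((M - 1) / M) := mul_le_mul h3 h2 (by norm_num) hw1p.le
  · rintro ⟨b, β, γ⟩ hθ
    simp only [mem_filter, mem_univ, true_and] at hθ
    obtain ⟨hb, hβ⟩ := hθ
    subst hb
    constructor
    · -- cardinality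
      set Bd := (univ : Finset (ZMod M)).filter (fun N => ∀ a b : ZMod M, a.val < J → b.val < J →
        β * N + 2 * γ ≠ a + b) with hBd
      show (1 - ε) * M ≤ (Bd.card : ℝ)
      have hcompl : Bdᶜ.card ≤ 2 * J := by
        have hmap : ∀ N ∈ Bdᶜ, β * N + 2 * γ ∈ (range (2 * J)).image (fun i : ℕ => (i : ZMod M)) := by
          intro N hN
          rw [mem_compl, hBd, mem_filter] at hN
          push Not at hN
          obtain ⟨a, b, ha, hb, hab⟩ := hN (mem_univ _)
          rw [mem_image]
          refine ⟨a.val + b.val, by rw [mem_range]; omega, ?_⟩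
          rw [hab]
          push_cast
          rw [ZMod.natCast_zmod_val, ZMod.natCast_zmod_val]
        have hinj : Set.InjOn (fun N : ZMod M => β * N + 2 * γ) (Bdᶜ : Finset (ZMod M)) := by
          intro N _ N' _ h
          simp only at h
          exact mul_left_cancel₀ hβ (add_right_cancel h)
        calc Bdᶜ.card ≤ ((range (2 * J)).image (fun i : ℕ => (i : ZMod M))).card :=
              Finset.card_le_card_of_injOn _ hmap hinj
          _ ≤ (range (2 * J)).card := Finset.card_image_le
          _ = 2 * J := card_range _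
      have hsum : Bd.card + Bdᶜ.card = M := by
        rw [Finset.card_add_card_compl, ZMod.card]
      have h1 : (Bd.card : ℝ) + (Bdᶜ.card : ℝ) = M := by exact_mod_cast hsum
      have h2 : (Bdᶜ.card : ℝ) ≤ 2 * J := by exact_mod_cast hcompl
      nlinarith
    · intro x y hxy
      simp only [mem_filter, mem_univ, true_and, if_true] at hxy ⊢
      by_contra hcon
      push Not at hcon
      refine hxy (β * x + γ) (β * y + γ) (hfv _ hcon.1) (hfv _ hcon.2) ?_
      ring

end Pool.Agent.H37.GB
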