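import Pool.Agent.H37.GB.Stm

/-! # Project GB: the field of order 7 (mixture of matchings, cubic and quadratic phases and
multiplicative characters) -/

set_option autoImplicit false

namespace Pool.Agent.H37.GB

open Finset MeasureTheory Filter Topology Q198.CI

/-- a field with total weight `t`, correlations `c` and weights at least `d` of the matchings -/
def HasF (M : ℕ) (t : ℝ) (c : Finset (ZMod M) → ℝ) (d : ℝ) : Prop :=
  ∃ (Θ : Type) (_ : Fintype Θ) (W : Θ → ℝ) (m : Θ → ZMod M → ℝ) (τ : Θ → Option (ZMod M)),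
    (∀ θ, 0 ≤ W θ) ∧ ∑ θ, W θ = t ∧ (∀ θ x, -1 ≤ m θ x) ∧ (∀ θ x, m θ x ≤ 1) ∧
    (∀ S : Finset (ZMod M), S.Nonempty → S.card ≤ 7 → ∑ θ, W θ * ∏ x ∈ S, m θ x = c S) ∧
    (∀ N, d ≤ ∑ θ, if τ θ = some N then W θ else 0) ∧
    ∀ θ N, τ θ = some N → ∀ x, x ≠ N - x → m θ x = -1 ∨ m θ (N - x) = -1

theorem HasF.add {M : ℕ} {t t' : ℝ} {c c' : Finset (ZMod M) → ℝ} {d d' : ℝ}
    (h : HasF M t c d) (h' : HasF M t' c' d') :
    HasF M (t + t') (fun S => c S + c' S) (d + d') := by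
  obtain ⟨Θ, i, W, m, τ, h1, h2, h3, h4, h5, h6, h7⟩ := h
  obtain ⟨Θ', i', W', m', τ', h1', h2', h3', h4', h5', h6', h7'⟩ := h'
  refine ⟨Θ ⊕ Θ', inferInstance, Sum.elim W W', Sum.elim m m', Sum.elim τ τ', ?_, ?_, ?_, ?_, ?_,
    ?_, ?_⟩
  · rintro (θ | θ)
    · exact h1 θ
    · exact h1' θ
  · rw [Fintype.sum_sum_type]
    simp only [Sum.elim_inl, Sum.elim_inr]
    rw [h2, h2']
  · rintro (θ | θ)
    · exact h3 θ
    · exact h3' θ
  · rintro (θ | θ)
    · exact h4 θ
    · exact h4' θ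
  · intro S hS hS7
    rw [Fintype.sum_sum_type]
    simp only [Sum.elim_inl, Sum.elim_inr]
    rw [h5 S hS hS7, h5' S hS hS7]
  · intro N
    rw [Fintype.sum_sum_type]
    simp only [Sum.elim_inl, Sum.elim_inr]
    exact add_le_add (h6 N) (h6' N)
  · rintro (θ | θ)
    · exact h7 θ
    · exact h7' θ

theorem HasF.smul {M : ℕ} {t : ℝ} {c : Finset (ZMod M) → ℝ} {d : ℝ}
    (h : HasF M t c d) {a : ℝ} (ha : 0 ≤ a) : HasF M (a * t) (fun S => a * c S) (a * d) := by
  obtain ⟨Θ, i, W, m, τ, h1, h2, h3, h4, h5, h6, h7⟩ := h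
  refine ⟨Θ, i, fun θ => a * W θ, m, τ, fun θ => mul_nonneg ha (h1 θ), ?_, h3, h4, ?_, ?_, h7⟩
  · rw [← mul_sum, h2]
  · intro S hS hS7
    beta_reduce
    rw [← h5 S hS hS7, mul_sum]
    exact sum_congr rfl fun θ _ => by ring
  · intro N
    refine (mul_le_mul_of_nonneg_left (h6 N) ha).trans (le_of_eq ?_)
    rw [mul_sum]
    refine sum_congr rfl fun θ _ => ?_
    split_ifs
    · rfl
    · rw [mul_zero]

/-- the matchings -/
theorem hasF_pair (h : S_PAIR) (M : ℕ) [NeZero M] (hM : M.Prime) (h11 : 11 ≤ M) :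
    HasF M 1 (fun S => if S.card = 4 then ((spl S).card : ℝ) / (2 * M) else 0) (1 / (2 * M)) := by
  have hM0 : (M : ℝ) ≠ 0 := by
    have : 0 < M := by omega
    positivity
  have h2M : (2 : ℝ) ^ M ≠ 0 := by positivity
  refine ⟨ZMod M × Bool × (ZMod M → Bool), inferInstance, fun _ => 1 / (M * 2 * 2 ^ M : ℝ),
    fun θ => pairF θ.1 θ.2.1 θ.2.2, fun θ => if θ.2.1 then none else some θ.1, ?_, ?_, ?_, ?_, ?_,
    ?_, ?_⟩
  · intro θ
    positivity
  · rw [sum_const, card_univ, Fintype.card_prod, Fintype.card_prod, Fintype.card_fun,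
      Fintype.card_bool, ZMod.card, nsmul_eq_mul]
    push_cast
    field_simp
  · intro θ x
    simp only [pairF]
    split_ifs <;> norm_num
  · intro θ x
    simp only [pairF]
    split_ifs <;> norm_num
  · intro S hS hS7
    beta_reduce
    rw [← h M hM h11 S hS hS7, Fintype.sum_prod_type, mul_sum]
    refine sum_congr rfl fun N _ => ?_
    rw [Fintype.sum_prod_type, mul_sum]
    refine sum_congr rfl fun σ _ => ?_
    rw [mul_sum]
  · intro N
    rw [Fintype.sum_prod_type]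
    have e1 : ∀ N' : ZMod M, ∑ y : Bool × (ZMod M → Bool),
        (if (if (N', y).2.1 then none else some (N', y).1) = some N then
          1 / (M * 2 * 2 ^ M : ℝ) else 0) = if N' = N then 1 / (2 * M : ℝ) else 0 := by
      intro N'
      rw [Fintype.sum_prod_type]
      simp only [Fintype.sum_bool]
      simp only [if_true, Bool.false_eq_true, if_false, Option.some.injEq, reduceCtorEq]
      rw [sum_const_zero, zero_add, sum_const, card_univ, Fintype.card_fun, Fintype.card_bool,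
        ZMod.card, nsmul_eq_mul]
      split_ifs
      · push_cast
        field_simp
      · rw [mul_zero]
    rw [sum_congr rfl fun N' _ => e1 N']
    simp
  · rintro ⟨N', σ, η⟩ N hτ x hx
    cases σ with
    | true => simp at hτ
    | false =>
      simp only [Bool.false_eq_true, if_false, Option.some.injEq] at hτ
      subst hτ
      have hne : x.val ≠ (N' - x).val := fun h => hx (ZMod.val_injective M h)
      have hsub : N' - (N' - x) = x := by ring
      rcases lt_or_gt_of_ne hne with h1 | h1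
      · simp only [pairF, hsub, h1, if_true, not_lt.2 h1.le, if_false, Bool.false_eq_true]
        rcases Bool.eq_false_or_eq_true (η x) with h2 | h2 <;> simp [h2]
      · simp only [pairF, hsub, h1, if_true, not_lt.2 h1.le, if_false, Bool.false_eq_true]
        rcases Bool.eq_false_or_eq_true (η (N' - x)) with h2 | h2 <;> simp [h2]

theorem norm_eM (M : ℕ) [NeZero M] (x : ZMod M) : ‖eM M x‖ = 1 := by
  unfold eM
  rw [ZMod.stdAddChar_apply]
  exact Circle.norm_coe _

/-- random phases and modulations of random complex fields -/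
theorem hasF_wave (h : S_WAVE) (M : ℕ) [NeZero M] {Λ : Type} [Fintype Λ] (V : Λ → ℝ)
    (z : Λ → ZMod M → ℂ) (hV : ∀ l, 0 ≤ V l) (hV1 : ∑ l, V l = 1) (hz : ∀ l x, ‖z l x‖ ≤ 1) :
    HasF M 1 (fun S => ((1 / 2 : ℂ) ^ S.card * ∑ U ∈ spl S, ∑ l, (V l : ℂ) *
      ((∏ x ∈ U, z l x) * ∏ x ∈ S \ U, (starRingEnd ℂ) (z l x))).re) 0 := by
  have hM0 : (M : ℝ) ≠ 0 := by
    have : M ≠ 0 := NeZero.ne M
    exact_mod_cast this
  have hMp : (0 : ℝ) < M := by positivity
  have hw : ∀ l u β x, |wave M (z l) u β x| ≤ 1 := by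
    intro l u β x
    unfold wave
    refine (Complex.abs_re_le_norm _).trans ?_
    rw [norm_mul, norm_mul, norm_eM, norm_eM, one_mul, one_mul]
    exact hz l x
  refine ⟨Λ × ZMod 8 × ZMod M, inferInstance, fun θ => V θ.1 * (1 / (8 * M)),
    fun θ => wave M (z θ.1) θ.2.1 θ.2.2, fun _ => none, ?_, ?_, ?_, ?_, ?_, ?_, ?_⟩
  · intro θ
    have := hV θ.1
    positivity
  · rw [← sum_mul, Fintype.sum_prod_type]
    simp only [sum_const, card_univ, Fintype.card_prod, ZMod.card, nsmul_eq_mul]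
    rw [← mul_sum, hV1]
    push_cast
    field_simp
  · intro θ x
    exact (abs_le.1 (hw θ.1 θ.2.1 θ.2.2 x)).1
  · intro θ x
    exact (abs_le.1 (hw θ.1 θ.2.1 θ.2.2 x)).2
  · intro S hS hS7
    have e1 : (((∑ θ : Λ × ZMod 8 × ZMod M, V θ.1 * (1 / (8 * M)) *
        ∏ x ∈ S, wave M (z θ.1) θ.2.1 θ.2.2 x : ℝ)) : ℂ) =
        (1 / 2 : ℂ) ^ S.card * ∑ U ∈ spl S, ∑ l, (V l : ℂ) *
          ((∏ x ∈ U, z l x) * ∏ x ∈ S \ U, (starRingEnd ℂ) (z l x)) := by
      have e2 : ∀ l : Λ, ((∑ y : ZMod 8 × ZMod M, V l * (1 / (8 * M)) *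
          ∏ x ∈ S, wave M (z l) y.1 y.2 x : ℝ) : ℂ) =
          (V l : ℂ) * ((1 / 2) ^ S.card * ∑ U ∈ spl S, (∏ x ∈ U, z l x) *
            ∏ x ∈ S \ U, (starRingEnd ℂ) (z l x)) := by
        intro l
        rw [← h M (z l) S hS hS7, ← Complex.ofReal_mul]
        congr 1
        rw [Fintype.sum_prod_type, mul_sum, mul_sum]
        refine sum_congr rfl fun u _ => ?_
        rw [mul_sum, mul_sum]
        exact sum_congr rfl fun β _ => by ring
      rw [Fintype.sum_prod_type, Complex.ofReal_sum, sum_congr rfl fun l _ => e2 l]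
      rw [sum_comm, mul_sum]
      refine sum_congr rfl fun l _ => ?_
      rw [← mul_sum]
      ring
    beta_reduce
    rw [← e1, Complex.ofReal_re]
  · intro N
    simp
  · intro θ N hτ
    simp at hτ


theorem sum_erase_aux {Λ : Type} [Fintype Λ] [DecidableEq Λ] (l₀ : Λ) (a : ℝ) (F : Λ → ℂ) :
    ∑ l, ((if l = l₀ then 0 else a : ℝ) : ℂ) * F l = a * ∑ l ∈ univ.erase l₀, F l := by
  rw [mul_sum, ← sum_filter_add_sum_filter_not univ (fun l => l = l₀)]
  have e1 : ∑ l ∈ univ.filter (fun l => l = l₀), ((if l = l₀ then 0 else a : ℝ) : ℂ) * F l = 0 := by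
    refine sum_eq_zero fun l hl => ?_
    rw [if_pos (mem_filter.1 hl).2]
    simp
  rw [e1, zero_add]
  refine sum_congr ?_ fun l hl => ?_
  · ext l
    simp
  · rw [if_neg (ne_of_mem_erase hl)]

/-- quadratic phases -/
theorem hasF_Q (h : S_WAVE) (M : ℕ) [NeZero M] (h11 : 11 ≤ M) :
    HasF M 1 (fun S => ((1 / 2 : ℂ) ^ S.card * ∑ U ∈ spl S, avQ M U (S \ U)).re) 0 := by
  have hM1 : (0 : ℝ) < M - 1 := by
    have : (11 : ℝ) ≤ M := by exact_mod_cast h11
    linarith
  have h1 := hasF_wave h M (Λ := ZMod M) (fun α => if α = 0 then 0 else 1 / ((M : ℝ) - 1))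
    (fun α x => eM M (α * x ^ 2)) ?_ ?_ ?_
  · have e : (fun S => ((1 / 2 : ℂ) ^ S.card * ∑ U ∈ spl S, avQ M U (S \ U)).re) =
        (fun S => ((1 / 2 : ℂ) ^ S.card * ∑ U ∈ spl S, ∑ l : ZMod M,
          (((if l = 0 then 0 else 1 / ((M : ℝ) - 1)) : ℝ) : ℂ) *
          ((∏ x ∈ U, eM M (l * x ^ 2)) * ∏ x ∈ S \ U, (starRingEnd ℂ) (eM M (l * x ^ 2)))).re) := by
      funext S
      congr 2
      refine sum_congr rfl fun U _ => ?_
      rw [sum_erase_aux, avQ]
      push_cast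
      rfl
    rw [e]
    exact h1
  · intro l
    split_ifs
    · exact le_rfl
    · positivity
  · rw [sum_ite, sum_const_zero, zero_add, sum_const, nsmul_eq_mul]
    have : (univ.filter (fun l : ZMod M => ¬ l = 0)).card = M - 1 := by
      rw [filter_not, card_sdiff_of_subset (filter_subset _ _), filter_eq' univ (0 : ZMod M)]
      simp [ZMod.card]
    rw [this, Nat.cast_sub (by omega), Nat.cast_one]
    field_simp
  · intro l x
    exact (norm_eM M _).le

/-- cubic phases -/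
theorem hasF_C (h : S_WAVE) (M : ℕ) [NeZero M] (h11 : 11 ≤ M) :
    HasF M 1 (fun S => ((1 / 2 : ℂ) ^ S.card * ∑ U ∈ spl S, avC M U (S \ U)).re) 0 := by
  have hM11 : (11 : ℝ) ≤ M := by exact_mod_cast h11
  have hM1 : (0 : ℝ) < M - 1 := by linarith
  have hM0 : (0 : ℝ) < M := by linarith
  have h1 := hasF_wave h M (Λ := ZMod M × ZMod M)
    (fun l => (if l.1 = 0 then 0 else 1 / ((M : ℝ) - 1)) * (1 / M))
    (fun l x => eM M (l.1 * x ^ 3 + l.2 * x ^ 2)) ?_ ?_ ?_
  · have e : (fun S => ((1 / 2 : ℂ) ^ S.card * ∑ U ∈ spl S, avC M U (S \ U)).re) =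
        (fun S => ((1 / 2 : ℂ) ^ S.card * ∑ U ∈ spl S, ∑ l : ZMod M × ZMod M,
          (((if l.1 = 0 then 0 else 1 / ((M : ℝ) - 1)) * (1 / M) : ℝ) : ℂ) *
          ((∏ x ∈ U, eM M (l.1 * x ^ 3 + l.2 * x ^ 2)) *
            ∏ x ∈ S \ U, (starRingEnd ℂ) (eM M (l.1 * x ^ 3 + l.2 * x ^ 2)))).re) := by
      funext S
      congr 2
      refine sum_congr rfl fun U _ => ?_
      rw [Fintype.sum_prod_type]
      have e2 : ∀ δ : ZMod M, ∑ α : ZMod M,
          (((if (δ, α).1 = 0 then 0 else 1 / ((M : ℝ) - 1)) * (1 / M) : ℝ) : ℂ) *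
          ((∏ x ∈ U, eM M ((δ, α).1 * x ^ 3 + (δ, α).2 * x ^ 2)) *
            ∏ x ∈ S \ U, (starRingEnd ℂ) (eM M ((δ, α).1 * x ^ 3 + (δ, α).2 * x ^ 2))) =
          (((if δ = 0 then 0 else 1 / ((M : ℝ) - 1)) : ℝ) : ℂ) * ((1 / M : ℝ) *
            ∑ α : ZMod M, ((∏ x ∈ U, eM M (δ * x ^ 3 + α * x ^ 2)) *
            ∏ x ∈ S \ U, (starRingEnd ℂ) (eM M (δ * x ^ 3 + α * x ^ 2)))) := by
        intro δ
        rw [mul_sum, mul_sum]
        refine sum_congr rfl fun α _ => ?_
        rw [Complex.ofReal_mul]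
        ring
      rw [sum_congr rfl fun δ _ => e2 δ, sum_erase_aux, avC, ← mul_sum, ← mul_assoc]
      congr 1
      push_cast
      rw [one_div_mul_one_div]
    rw [e]
    exact h1
  · intro l
    refine mul_nonneg ?_ (by positivity)
    split_ifs
    · exact le_rfl
    · positivity
  · rw [← sum_mul, Fintype.sum_prod_type]
    have e3 : ∀ δ : ZMod M, ∑ y : ZMod M, (if (δ, y).1 = 0 then (0 : ℝ) else 1 / ((M : ℝ) - 1)) =
        M * (if δ = 0 then (0 : ℝ) else 1 / ((M : ℝ) - 1)) := by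
      intro δ
      change ∑ _y : ZMod M, (if δ = 0 then (0 : ℝ) else 1 / ((M : ℝ) - 1)) = _
      rw [sum_const, card_univ, ZMod.card, nsmul_eq_mul]
    rw [sum_congr rfl fun δ _ => e3 δ]
    rw [← mul_sum, sum_ite, sum_const_zero, zero_add, sum_const, nsmul_eq_mul]
    have : (univ.filter (fun l : ZMod M => ¬ l = 0)).card = M - 1 := by
      rw [filter_not, card_sdiff_of_subset (filter_subset _ _), filter_eq' univ (0 : ZMod M)]
      simp [ZMod.card]
    rw [this, Nat.cast_sub (by omega), Nat.cast_one]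
    field_simp
  · intro l x
    exact (norm_eM M _).le

open Classical in
/-- shifted characters -/
theorem hasF_A (h : S_WAVE) (M : ℕ) [NeZero M] (hM : M.Prime) (h11 : 11 ≤ M) :
    HasF M 1 (fun S => ((1 / 2 : ℂ) ^ S.card * ∑ U ∈ spl S, avA M U (S \ U)).re) 0 := by
  have hM11 : (11 : ℝ) ≤ M := by exact_mod_cast h11
  have hM1 : (0 : ℝ) < M - 2 := by linarith
  have hM0 : (0 : ℝ) < M := by linarith
  have h1 := hasF_wave h M (Λ := DirichletCharacter ℂ M × ZMod M)
    (fun l => (if l.1 = 1 then 0 else 1 / ((M : ℝ) - 2)) * (1 / M))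
    (fun l x => l.1 (x + l.2)) ?_ ?_ ?_
  · have e : (fun S => ((1 / 2 : ℂ) ^ S.card * ∑ U ∈ spl S, avA M U (S \ U)).re) =
        (fun S => ((1 / 2 : ℂ) ^ S.card * ∑ U ∈ spl S, ∑ l : DirichletCharacter ℂ M × ZMod M,
          (((if l.1 = 1 then 0 else 1 / ((M : ℝ) - 2)) * (1 / M) : ℝ) : ℂ) *
          ((∏ x ∈ U, l.1 (x + l.2)) *
            ∏ x ∈ S \ U, (starRingEnd ℂ) (l.1 (x + l.2)))).re) := by
      funext S
      congr 2
      refine sum_congr rfl fun U _ => ?_
      rw [Fintype.sum_prod_type]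
      have e2 : ∀ ψ : DirichletCharacter ℂ M, ∑ s : ZMod M,
          (((if (ψ, s).1 = 1 then 0 else 1 / ((M : ℝ) - 2)) * (1 / M) : ℝ) : ℂ) *
          ((∏ x ∈ U, (ψ, s).1 (x + (ψ, s).2)) *
            ∏ x ∈ S \ U, (starRingEnd ℂ) ((ψ, s).1 (x + (ψ, s).2))) =
          (((if ψ = 1 then 0 else 1 / ((M : ℝ) - 2)) : ℝ) : ℂ) * ((1 / M : ℝ) *
            ∑ s : ZMod M, ((∏ x ∈ U, ψ (x + s)) *
            ∏ x ∈ S \ U, (starRingEnd ℂ) (ψ (x + s)))) := by
        intro ψ
        rw [mul_sum, mul_sum]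
        refine sum_congr rfl fun s _ => ?_
        rw [Complex.ofReal_mul]
        ring
      rw [sum_congr rfl fun ψ _ => e2 ψ, sum_erase_aux, avA, ← mul_sum, ← mul_assoc]
      congr 1
      push_cast
      rw [one_div_mul_one_div]
    rw [e]
    exact h1
  · intro l
    refine mul_nonneg ?_ (by positivity)
    split_ifs
    · exact le_rfl
    · positivity
  · rw [← sum_mul, Fintype.sum_prod_type]
    have e3 : ∀ ψ : DirichletCharacter ℂ M, ∑ y : ZMod M,
        (if (ψ, y).1 = 1 then (0 : ℝ) else 1 / ((M : ℝ) - 2)) =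
        M * (if ψ = 1 then (0 : ℝ) else 1 / ((M : ℝ) - 2)) := by
      intro ψ
      change ∑ _y : ZMod M, (if ψ = 1 then (0 : ℝ) else 1 / ((M : ℝ) - 2)) = _
      rw [sum_const, card_univ, ZMod.card, nsmul_eq_mul]
    rw [sum_congr rfl fun ψ _ => e3 ψ]
    rw [← mul_sum, sum_ite, sum_const_zero, zero_add, sum_const, nsmul_eq_mul]
    have hc : Fintype.card (DirichletCharacter ℂ M) = M - 1 := by
      rw [← Nat.card_eq_fintype_card, DirichletCharacter.card_eq_totient_of_hasEnoughRootsOfUnity,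
        Nat.totient_prime hM]
    have : (univ.filter (fun l : DirichletCharacter ℂ M => ¬ l = 1)).card = M - 2 := by
      rw [filter_not, card_sdiff_of_subset (filter_subset _ _),
        filter_eq' univ (1 : DirichletCharacter ℂ M), if_pos (mem_univ _), card_univ,
        card_singleton, hc]
      omega
    rw [this, Nat.cast_sub (by omega), Nat.cast_ofNat]
    field_simp
  · intro l x
    exact DirichletCharacter.norm_le_one _ _

theorem spl_card {M : ℕ} {S U : Finset (ZMod M)} (hU : U ∈ spl S) :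
    Disjoint U (S \ U) ∧ U.card = (S \ U).card ∧ ∑ x ∈ U, x = ∑ x ∈ S \ U, x ∧
      2 * U.card = S.card := by
  have h := mem_filter.1 hU
  have hs := mem_powerset.1 h.1
  refine ⟨disjoint_sdiff, ?_, h.2.2, h.2.1⟩
  rw [card_sdiff_of_subset hs]
  have := h.2.1
  omega

theorem fld7 : S_WAVE → S_VQC → S_VA → S_PAIR → S_FLD7 := by
  intro hW hQC hA hP M _ hM h11
  have hM11 : (11 : ℝ) ≤ M := by exact_mod_cast h11
  have hM0 : (0 : ℝ) < M := by linarith
  have hM2 : (0 : ℝ) < M - 2 := by linarith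
  have hM1 : (0 : ℝ) < M - 1 := by linarith
  obtain ⟨wQ, hwQ⟩ : ∃ wQ : ℝ, wQ = 5 * (M - 1) / (M * (M - 2)) := ⟨_, rfl⟩
  obtain ⟨wC, hwC⟩ : ∃ wC : ℝ, wC = (M - 1) * (4 * M + 1) / (M * (M - 2)) := ⟨_, rfl⟩
  obtain ⟨wP, hwP⟩ : ∃ wP : ℝ, wP = (M + 1) / (8 * (M - 2)) := ⟨_, rfl⟩
  have hwQ0 : 0 ≤ wQ := by rw [hwQ]; positivity
  have hwC0 : 0 ≤ wC := by rw [hwC]; positivity
  have hwP0 : 0 ≤ wP := by rw [hwP]; positivity
  have hT0 : 0 < 1 + wQ + wC + wP := by positivity
  have h1 := (((hasF_A hW M hM h11).add ((hasF_Q hW M h11).smul hwQ0)).add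
    ((hasF_C hW M h11).smul hwC0)).add ((hasF_pair hP M hM h11).smul hwP0)
  have h2 := h1.smul (a := 1 / (1 + wQ + wC + wP)) (by positivity)
  obtain ⟨Θ, i, W, m, τ, g1, g2, g3, g4, g5, g6, g7⟩ := h2
  refine ⟨Θ, i, W, m, τ, ⟨g1, ?_, g3, g4, ?_⟩, ?_, g7⟩
  · rw [g2]
    field_simp
  · intro S hS hS7
    rw [g5 S hS hS7]
    have key : ((((1 / 2 : ℂ) ^ S.card * ∑ U ∈ spl S, avA M U (S \ U)).re +
        wQ * ((1 / 2 : ℂ) ^ S.card * ∑ U ∈ spl S, avQ M U (S \ U)).re) +
        wC * ((1 / 2 : ℂ) ^ S.card * ∑ U ∈ spl S, avC M U (S \ U)).re) +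
        wP * (if S.card = 4 then ((spl S).card : ℝ) / (2 * M) else 0) = 0 := by
      have comb : (((1 / 2 : ℂ) ^ S.card * ∑ U ∈ spl S, avA M U (S \ U)).re +
          wQ * ((1 / 2 : ℂ) ^ S.card * ∑ U ∈ spl S, avQ M U (S \ U)).re) +
          wC * ((1 / 2 : ℂ) ^ S.card * ∑ U ∈ spl S, avC M U (S \ U)).re =
          ((1 / 2 : ℂ) ^ S.card * ∑ U ∈ spl S, (avA M U (S \ U) + (wQ : ℂ) * avQ M U (S \ U) +
            (wC : ℂ) * avC M U (S \ U))).re := by
        rw [sum_add_distrib, sum_add_distrib, ← mul_sum, ← mul_sum, mul_add, mul_add,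
          Complex.add_re, Complex.add_re, mul_left_comm _ (wQ : ℂ), mul_left_comm _ (wC : ℂ),
          Complex.re_ofReal_mul, Complex.re_ofReal_mul]
      rw [comb]
      have hcM0 : (M : ℂ) ≠ 0 := by exact_mod_cast hM0.ne'
      have hcM1 : (M : ℂ) - 1 ≠ 0 := by
        have : ((((M : ℝ) - 1 : ℝ)) : ℂ) ≠ 0 := by exact_mod_cast hM1.ne'
        simpa using this
      have hcM2 : (M : ℂ) - 2 ≠ 0 := by
        have : ((((M : ℝ) - 2 : ℝ)) : ℂ) ≠ 0 := by exact_mod_cast hM2.ne'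
        simpa using this
      by_cases h4 : S.card = 4
      · have hv : ∀ U ∈ spl S, avA M U (S \ U) + (wQ : ℂ) * avQ M U (S \ U) +
            (wC : ℂ) * avC M U (S \ U) = ((-(M + 1) / (M * (M - 2)) : ℝ) : ℂ) := by
          intro U hU
          obtain ⟨u1, u2, u3, u4⟩ := spl_card hU
          have hU2 : U.card = 2 := by omega
          rw [((hQC M hM h11 U (S \ U) u1 u2 u3).2.1 hU2).1,
            ((hQC M hM h11 U (S \ U) u1 u2 u3).2.1 hU2).2,
            (hA M hM h11 U (S \ U) u1 u2 u3).1 hU2, hwQ]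
          push_cast
          field_simp
          ring
        rw [sum_congr rfl hv, sum_const, nsmul_eq_mul, if_pos h4, h4,
          show (1 / 2 : ℂ) ^ 4 * (((spl S).card : ℂ) * ((-(M + 1) / (M * (M - 2)) : ℝ) : ℂ)) =
            ((1 / 16 * (((spl S).card : ℝ) * (-(M + 1) / (M * (M - 2)))) : ℝ) : ℂ) by
              push_cast
              norm_num, Complex.ofReal_re, hwP]
        field_simp
        ring
      · rw [if_neg h4, mul_zero, add_zero]
        have hv : ∀ U ∈ spl S, avA M U (S \ U) + (wQ : ℂ) * avQ M U (S \ U) +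
            (wC : ℂ) * avC M U (S \ U) = 0 := by
          intro U hU
          obtain ⟨u1, u2, u3, u4⟩ := spl_card hU
          obtain ⟨q1, q2, q3, q4⟩ := hQC M hM h11 U (S \ U) u1 u2 u3
          obtain ⟨a2, a3, a4⟩ := hA M hM h11 U (S \ U) u1 u2 u3
          have hS0 := hS.card_pos
          have hU3 : U.card = 3 := by omega
          by_cases hsq : ∑ x ∈ U, x ^ 2 = ∑ x ∈ S \ U, x ^ 2
          · rw [(q4 hU3 hsq).1, (q4 hU3 hsq).2, a4 hU3 hsq, hwQ, hwC]
            push_cast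
            field_simp
            ring
          · rw [(q3 hU3 hsq).1, (q3 hU3 hsq).2, a3 hU3 hsq, hwQ]
            push_cast
            field_simp
            ring
        rw [sum_congr rfl hv]
        simp
    beta_reduce
    rw [key, mul_zero]
  · intro N
    refine le_trans ?_ (g6 N)
    have b1 : wQ ≤ 1 := by
      rw [hwQ, div_le_one (by positivity)]
      nlinarith
    have b2 : wC ≤ 6 := by
      rw [hwC, div_le_iff₀ (by positivity)]
      nlinarith
    have b3 : wP ≤ 1 := by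
      rw [hwP, div_le_one (by positivity)]
      linarith
    have b4 : 1 / 8 ≤ wP := by
      rw [hwP, div_le_div_iff₀ (by norm_num) (by positivity)]
      linarith
    have b5 : 1 / 10 ≤ 1 / (1 + wQ + wC + wP) :=
      one_div_le_one_div_of_le hT0 (by linarith)
    calc 1 / (200 * M : ℝ) ≤ 1 / 10 * (1 / 8 * (1 / (2 * M))) := by
          rw [show 1 / 10 * (1 / 8 * (1 / (2 * M))) = 1 / (160 * M : ℝ) by
            field_simp
            norm_num]
          exact one_div_le_one_div_of_le (by positivity) (by nlinarith)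
      _ ≤ 1 / (1 + wQ + wC + wP) * (0 + wQ * 0 + wC * 0 + wP * (1 / (2 * M))) := by
          rw [mul_zero, mul_zero, add_zero, add_zero, zero_add]
          gcongr

end Pool.Agent.H37.GB
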