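import Pool.Agent.H37.GB.Stm
import Pool.Agent.H50.L.CI.Glue

/-! # Project GB, stub GLUE: gluing independent blocks with labels -/

set_option autoImplicit false

namespace Pool.Agent.H37.GB

open Finset MeasureTheory Filter Topology Q198.CI

open Classical in
lemma glue_total {I : Finset ℕ} {K : ℕ} {p : ℕ → ℝ} {w : Finset ℕ → ℝ} (h : IsLaw I K p w) :
    ∑ S ∈ I.powerset, w S = 1 := by
  have h1 := h.2 ∅ (empty_subset _) (by simp)
  rw [prod_empty] at h1
  rw [← h1]
  apply sum_congr _ (fun _ _ => rfl)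
  ext S
  simp

open Classical in
/-- the mass of the bad sets -/
lemma glue_bad {I : Finset ℕ} {K : ℕ} {p : ℕ → ℝ} {w : Finset ℕ → ℝ} (h : IsLaw I K p w)
    (G : Finset ℕ → Prop) :
    bm I w {S | ¬ (S ⊆ I ∧ G S)} = ENNReal.ofReal (1 - mass I w G) := by
  rw [bm_apply]
  have h1 : ∀ S ∈ I.powerset, ENNReal.ofReal (w S) *
      ({S | ¬ (S ⊆ I ∧ G S)} : Set (Finset ℕ)).indicator (1 : Finset ℕ → ENNReal) S =
      ENNReal.ofReal (w S - if G S then w S else 0) := by
    intro S hS
    have hSI := mem_powerset.1 hS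
    by_cases hG : G S
    · rw [Set.indicator_of_notMem (by simp [hSI, hG]), if_pos hG]
      simp
    · rw [Set.indicator_of_mem (by simp [hSI, hG]), if_neg hG]
      simp
  rw [sum_congr rfl h1, ← ENNReal.ofReal_sum_of_nonneg]
  · congr 1
    rw [sum_sub_distrib, glue_total h, mass]
  · intro S hS
    have h2 := h.1 S (mem_powerset.1 hS)
    split_ifs
    · simp
    · simpa using h2

theorem glue2 : S_GLUE := by
  classical
  intro K p b R w lab c G hR hp hw hc hlab hmass
  have : ∀ i, IsProbabilityMeasure (bm (R i) (w i)) := fun i => bm_prob (hw i)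
  obtain ⟨P, hP⟩ : ∃ P : Measure (ℕ → Finset ℕ),
      P = Measure.infinitePi (fun i => bm (R i) (w i)) := ⟨_, rfl⟩
  refine ⟨ℕ → Finset ℕ, inferInstance, P, by rw [hP]; infer_instance,
    fun n => {ω | n ∈ ω (b n)}, ?_, ?_, ?_⟩
  · intro n
    have h1 : MeasurableSet {S : Finset ℕ | n ∈ S} := MeasurableSet.of_discrete
    have h2 : Measurable (fun ω : ℕ → Finset ℕ => ω (b n)) := measurable_pi_apply (b n)
    exact h2 h1
  · intro T hT
    have e : (⋂ n ∈ T, {ω : ℕ → Finset ℕ | n ∈ ω (b n)}) =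
        Set.pi (T.image b : Finset ℕ) (fun β => {S : Finset ℕ | T.filter (fun n => b n = β) ⊆ S}) := by
      ext ω
      simp only [Set.mem_iInter, Set.mem_ofPred_eq, Set.mem_pi, coe_image, Set.mem_image, mem_coe]
      constructor
      · rintro h β ⟨m, hm, rfl⟩ n hn
        rw [mem_filter] at hn
        have := h n hn.1
        rw [hn.2] at this
        exact this
      · intro h n hn
        exact h (b n) ⟨n, hn, rfl⟩ (mem_filter.2 ⟨hn, rfl⟩)
    rw [e, hP, Measure.infinitePi_pi _ (fun β _ => MeasurableSet.of_discrete)]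
    have h1 : ∀ β ∈ T.image b, bm (R β) (w β) {S : Finset ℕ | T.filter (fun n => b n = β) ⊆ S} =
        ENNReal.ofReal (∏ n ∈ T.filter (fun n => b n = β), p n) := by
      intro β hβ
      rw [mem_image] at hβ
      obtain ⟨m, hm, rfl⟩ := hβ
      apply bm_superset (hw (b m))
      · intro n hn
        rw [mem_filter] at hn
        exact (hR n (b m)).2 hn.2
      · exact (card_filter_le _ _).trans hT
    rw [prod_congr rfl h1, ← ENNReal.ofReal_prod_of_nonneg (fun β _ => prod_nonneg fun n _ => hp n)]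
    congr 1
    exact prod_fiberwise_of_maps_to (fun n hn => mem_image_of_mem b hn) p
  · -- infinitely many good blocks of each label
    have hbad : ∀ s : Finset ℕ, P (⋂ i ∈ s, {ω : ℕ → Finset ℕ | ¬ (ω i ⊆ R i ∧ G i (ω i))}) =
        ∏ i ∈ s, ENNReal.ofReal (1 - mass (R i) (w i) (G i)) := by
      intro s
      have e : (⋂ i ∈ s, {ω : ℕ → Finset ℕ | ¬ (ω i ⊆ R i ∧ G i (ω i))}) =
          Set.pi (s : Set ℕ) (fun β => {S : Finset ℕ | ¬ (S ⊆ R β ∧ G β S)}) := by
        ext ω
        simp only [Set.mem_iInter, Set.mem_pi, mem_coe, Set.mem_ofPred_eq]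
      rw [e, hP, Measure.infinitePi_pi _ (fun β _ => MeasurableSet.of_discrete)]
      exact prod_congr rfl fun β _ => glue_bad (hw β) (G β)
    have hzero : ∀ k n₀ : ℕ, P {ω : ℕ → Finset ℕ | ∀ i, n₀ ≤ i → lab i = k →
        ¬ (ω i ⊆ R i ∧ G i (ω i))} = 0 := by
      intro k n₀
      have hinf : {i : ℕ | n₀ ≤ i ∧ lab i = k}.Infinite := by
        refine Set.infinite_of_forall_exists_gt fun a => ?_
        obtain ⟨i, hi, hl⟩ := hlab k (max n₀ (a + 1))
        exact ⟨i, ⟨(le_max_left _ _).trans hi, hl⟩,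
          Nat.lt_of_succ_le ((le_max_right _ _).trans hi)⟩
      have hle : ∀ m : ℕ, P {ω : ℕ → Finset ℕ | ∀ i, n₀ ≤ i → lab i = k →
          ¬ (ω i ⊆ R i ∧ G i (ω i))} ≤ (ENNReal.ofReal (1 - c k)) ^ m := by
        intro m
        obtain ⟨s, hs, hsm⟩ := hinf.exists_subset_card_eq m
        have h1 : {ω : ℕ → Finset ℕ | ∀ i, n₀ ≤ i → lab i = k → ¬ (ω i ⊆ R i ∧ G i (ω i))} ⊆
            ⋂ i ∈ s, {ω : ℕ → Finset ℕ | ¬ (ω i ⊆ R i ∧ G i (ω i))} := by
          intro ω hω
          simp only [Set.mem_iInter]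
          intro i hi
          have h2 := hs (mem_coe.2 hi)
          exact hω i h2.1 h2.2
        refine (measure_mono h1).trans ?_
        rw [hbad s, ← hsm, ← prod_const]
        refine prod_le_prod' fun i hi => ?_
        have h2 := hs (mem_coe.2 hi)
        apply ENNReal.ofReal_le_ofReal
        have h3 := hmass i
        rw [h2.2] at h3
        linarith
      have hlt : ENNReal.ofReal (1 - c k) < 1 := by
        rw [← ENNReal.ofReal_one]
        exact (ENNReal.ofReal_lt_ofReal_iff one_pos).2 (by linarith [hc k])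
      have ht := ENNReal.tendsto_pow_atTop_nhds_zero_of_lt_one hlt
      exact le_antisymm (ge_of_tendsto' ht hle) zero_le
    have hae : ∀ᵐ ω ∂P, ∀ k n₀ : ℕ, ¬ ∀ i, n₀ ≤ i → lab i = k → ¬ (ω i ⊆ R i ∧ G i (ω i)) := by
      rw [ae_all_iff]
      intro k
      rw [ae_all_iff]
      intro n₀
      have h1 := hzero k n₀
      rw [ae_iff]
      simpa only [not_not] using h1
    filter_upwards [hae] with ω hω k
    rw [Filter.frequently_atTop]
    intro n₀
    have h1 := hω k n₀
    push Not at h1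
    obtain ⟨i, hi, hl, hi', hG⟩ := h1
    refine ⟨i, hi, hl, ω i, ?_, hG⟩
    intro n
    constructor
    · intro hn
      refine ⟨hi' hn, ?_⟩
      have h1 : b n = i := (hR n i).1 (hi' hn)
      change n ∈ ω (b n)
      rw [h1]
      exact hn
    · rintro ⟨h1, h2⟩
      have h3 : b n = i := (hR n i).1 h1
      change n ∈ ω (b n) at h2
      rw [h3] at h2
      exact h2

end Pool.Agent.H37.GB
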