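import Pool.Agent.H37.GB.Stm

/-! # GB-LAW: from random fields to laws (helper56) -/

set_option autoImplicit false

namespace Pool.Agent.H37.GB

open Finset MeasureTheory Filter Topology Q198.CI

theorem law : S_LAW := by
  classical
  intro M K B Θ _ W m p I hF hB hI hp
  have hinj : ∀ R : Finset ℕ, R ⊆ I → Set.InjOn (fun n : ℕ => (n : ZMod M)) R := by
    intro R hR a ha b hb hab
    have h1 : ((a : ℕ) : ZMod M) = ((b : ℕ) : ZMod M) := hab
    rw [ZMod.natCast_eq_natCast_iff', Nat.mod_eq_of_lt (hI a (hR ha)),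
      Nat.mod_eq_of_lt (hI b (hR hb))] at h1
    exact h1
  constructor
  · intro S hS
    apply Finset.sum_nonneg
    intro θ _
    apply mul_nonneg (hF.nonneg θ)
    unfold wl
    apply mul_nonneg
    · apply prod_nonneg
      intro n hn
      exact mul_nonneg (hp n (hS hn)).1 (by linarith [hF.low θ n])
    · apply prod_nonneg
      intro n hn
      have hnI := (mem_sdiff.mp hn).1
      have h1 : p n * (1 + m θ n) ≤ p n * (1 + B) :=
        mul_le_mul_of_nonneg_left (by linarith [hF.upp θ n]) (hp n hnI).1
      linarith [(hp n hnI).2]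
  · intro T hT hTK
    rw [sum_comm]
    have h1 : ∀ θ ∈ (univ : Finset Θ), ∑ S ∈ Icc T I, W θ * wl I p (fun n => m θ n) S =
        (∏ n ∈ T, p n) * (W θ * ∏ n ∈ T, (1 + m θ (n : ZMod M))) := by
      intro θ _
      rw [← mul_sum]
      have h2 : ∑ S ∈ Icc T I, wl I p (fun n => m θ n) S =
          ∏ n ∈ T, (p n * (1 + m θ (n : ZMod M))) :=
        prod_moment hT (fun n => p n * (1 + m θ (n : ZMod M)))
      rw [h2, prod_mul_distrib]
      ring
    rw [sum_congr rfl h1, ← mul_sum]
    have h3 : ∑ θ : Θ, W θ * ∏ n ∈ T, (1 + m θ (n : ZMod M)) = 1 := by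
      have h4 : ∀ θ ∈ (univ : Finset Θ), W θ * ∏ n ∈ T, (1 + m θ (n : ZMod M)) =
          ∑ R ∈ T.powerset, W θ * ∏ n ∈ R, m θ (n : ZMod M) := by
        intro θ _
        rw [prod_one_add, mul_sum]
      rw [sum_congr rfl h4, sum_comm, sum_eq_single ∅]
      · simp only [prod_empty, mul_one]
        exact hF.sum
      · intro R hR hne
        rw [mem_powerset] at hR
        have h5 := hF.corr (R.image (fun n : ℕ => (n : ZMod M)))
          ((nonempty_iff_ne_empty.mpr hne).image _)
          (card_image_le.trans ((card_le_card hR).trans hTK))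
        rw [← h5]
        refine sum_congr rfl fun θ _ => ?_
        rw [prod_image (hinj R (hR.trans hT))]
      · intro h5
        exact absurd (empty_mem_powerset T) h5
    rw [h3, mul_one]

end Pool.Agent.H37.GB
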