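import Pool.Agent.H37.GB.Stm

/-! # GB-M2: the second moment method (helper56) -/

set_option autoImplicit false

namespace Pool.Agent.H37.GB

open Finset MeasureTheory Filter Topology Q198.CI

theorem m2 : S_M2 := by
  classical
  intro Ω _ P _ s F q hm hq hind hpos
  obtain ⟨μ, hμ⟩ : ∃ μ, μ = ∑ a ∈ s, q a := ⟨_, rfl⟩
  rw [← hμ] at hpos ⊢
  have hP1 : ∀ a ∈ s, P.real (F a) = q a := by
    intro a ha
    have h1 := hind {a} (singleton_subset_iff.mpr ha) (by simp)
    simp only [mem_singleton, Set.iInter_iInter_eq_left, prod_singleton] at h1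
    rw [measureReal_def, h1, ENNReal.toReal_ofReal (hq a ha).1]
  have hP2 : ∀ a ∈ s, ∀ b ∈ s, a ≠ b → P.real (F a ∩ F b) = q a * q b := by
    intro a ha b hb hab
    have h1 := hind {a, b} (by
      intro x hx
      rw [mem_insert, mem_singleton] at hx
      rcases hx with rfl | rfl
      · exact ha
      · exact hb) card_le_two
    rw [prod_pair hab] at h1
    have h2 : ⋂ n ∈ ({a, b} : Finset ℕ), F n = F a ∩ F b := by
      ext ω
      simp
    rw [h2] at h1
    rw [measureReal_def, h1, ENNReal.toReal_ofReal (mul_nonneg (hq a ha).1 (hq b hb).1)]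
  obtain ⟨g, hg⟩ : ∃ g : ℕ → Ω → ℝ, g = fun a => (F a).indicator (fun _ => (1 : ℝ)) := ⟨_, rfl⟩
  have hgint : ∀ a ∈ s, Integrable (g a) P := by
    intro a ha
    rw [hg]
    exact (integrable_const 1).indicator (hm a ha)
  have hgi : ∀ a ∈ s, ∫ ω, g a ω ∂P = q a := by
    intro a ha
    rw [← hP1 a ha, hg]
    exact integral_indicator_one (hm a ha)
  have hgg : ∀ a b, (fun ω => g a ω * g b ω) = (F a ∩ F b).indicator (fun _ => (1 : ℝ)) := by
    intro a b
    funext ω
    rw [hg]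
    by_cases h1 : ω ∈ F a
    · by_cases h2 : ω ∈ F b
      · simp [h1, h2]
      · simp [h1, h2]
    · simp [h1]
  have hggint : ∀ a ∈ s, ∀ b ∈ s, Integrable (fun ω => g a ω * g b ω) P := by
    intro a ha b hb
    rw [hgg]
    exact (integrable_const 1).indicator ((hm a ha).inter (hm b hb))
  have hggi : ∀ a ∈ s, ∀ b ∈ s, ∫ ω, g a ω * g b ω ∂P ≤ q a * q b + if a = b then q a else 0 := by
    intro a ha b hb
    rw [hgg]
    have h1 : ∫ ω, (F a ∩ F b).indicator (fun _ => (1 : ℝ)) ω ∂P = P.real (F a ∩ F b) :=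
      integral_indicator_one ((hm a ha).inter (hm b hb))
    rw [h1]
    by_cases hab : a = b
    · subst hab
      rw [Set.inter_self, hP1 a ha, if_pos rfl]
      nlinarith [(hq a ha).1]
    · rw [hP2 a ha b hb hab, if_neg hab, add_zero]
  have hf : ∀ ω, (∑ a ∈ s, g a ω - μ) ^ 2 =
      ∑ a ∈ s, ∑ b ∈ s, g a ω * g b ω - 2 * μ * ∑ a ∈ s, g a ω + μ ^ 2 := by
    intro ω
    rw [← sum_mul_sum]
    ring
  have hint1 : Integrable (fun ω => ∑ a ∈ s, ∑ b ∈ s, g a ω * g b ω) P :=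
    integrable_finsetSum _ fun a ha => integrable_finsetSum _ fun b hb => hggint a ha b hb
  have hint2 : Integrable (fun ω => ∑ a ∈ s, g a ω) P :=
    integrable_finsetSum _ fun a ha => hgint a ha
  have hint : Integrable (fun ω => (∑ a ∈ s, g a ω - μ) ^ 2) P := by
    have h1 : (fun ω => (∑ a ∈ s, g a ω - μ) ^ 2) =
        fun ω => ∑ a ∈ s, ∑ b ∈ s, g a ω * g b ω - 2 * μ * ∑ a ∈ s, g a ω + μ ^ 2 := funext hf
    rw [h1]
    exact (hint1.sub (hint2.const_mul _)).add (integrable_const _)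
  have hI : ∫ ω, (∑ a ∈ s, g a ω - μ) ^ 2 ∂P ≤ μ := by
    have h1 : ∫ ω, (∑ a ∈ s, g a ω - μ) ^ 2 ∂P =
        ∫ ω, (∑ a ∈ s, ∑ b ∈ s, g a ω * g b ω - 2 * μ * ∑ a ∈ s, g a ω + μ ^ 2) ∂P :=
      integral_congr_ae (Eventually.of_forall hf)
    have i2 : Integrable (fun ω => 2 * μ * ∑ a ∈ s, g a ω) P := hint2.const_mul _
    have i3 : Integrable (fun ω => ∑ a ∈ s, ∑ b ∈ s, g a ω * g b ω - 2 * μ * ∑ a ∈ s, g a ω) P :=
      hint1.sub i2
    rw [h1, integral_add i3 (integrable_const _),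
      integral_sub hint1 i2, integral_const_mul, integral_finsetSum _ hgint,
      sum_congr rfl hgi, ← hμ]
    have h2 : ∫ ω, ∑ a ∈ s, ∑ b ∈ s, g a ω * g b ω ∂P ≤ μ ^ 2 + μ := by
      rw [integral_finsetSum _ fun a ha => integrable_finsetSum _ fun b hb => hggint a ha b hb]
      have h3 : ∑ a ∈ s, ∫ ω, ∑ b ∈ s, g a ω * g b ω ∂P ≤
          ∑ a ∈ s, ∑ b ∈ s, (q a * q b + if a = b then q a else 0) := by
        apply sum_le_sum
        intro a ha
        rw [integral_finsetSum _ fun b hb => hggint a ha b hb]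
        exact sum_le_sum fun b hb => hggi a ha b hb
      refine h3.trans (le_of_eq ?_)
      have h4 : ∀ a ∈ s, ∑ b ∈ s, (q a * q b + if a = b then q a else 0) = q a * μ + q a := by
        intro a ha
        rw [sum_add_distrib, ← mul_sum, ← hμ, sum_ite_eq, if_pos ha]
      rw [sum_congr rfl h4, sum_add_distrib, ← sum_mul, ← hμ]
      ring
    have h5 : ∫ _ω : Ω, μ ^ 2 ∂P = μ ^ 2 := by simp
    rw [h5]
    linarith
  have hZm : MeasurableSet (⋂ a ∈ s, (F a)ᶜ) :=
    Finset.measurableSet_biInter _ fun a ha => (hm a ha).compl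
  have hZ : P.real (⋂ a ∈ s, (F a)ᶜ) * μ ^ 2 ≤ μ := by
    have h1 : ∫ ω, (⋂ a ∈ s, (F a)ᶜ).indicator (fun _ => μ ^ 2) ω ∂P ≤
        ∫ ω, (∑ a ∈ s, g a ω - μ) ^ 2 ∂P := by
      apply integral_mono ((integrable_const _).indicator hZm) hint
      intro ω
      show (⋂ a ∈ s, (F a)ᶜ).indicator (fun _ => μ ^ 2) ω ≤ (∑ a ∈ s, g a ω - μ) ^ 2
      by_cases hω : ω ∈ ⋂ a ∈ s, (F a)ᶜ
      · rw [Set.indicator_of_mem hω]
        have h2 : ∑ a ∈ s, g a ω = 0 := by
          apply sum_eq_zero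
          intro a ha
          rw [hg]
          apply Set.indicator_of_notMem
          rw [Set.mem_iInter₂] at hω
          exact hω a ha
        rw [h2]
        apply le_of_eq
        ring
      · rw [Set.indicator_of_notMem hω]
        exact sq_nonneg _
    rw [integral_indicator hZm, setIntegral_const, smul_eq_mul] at h1
    exact h1.trans hI
  rw [← ENNReal.ofReal_toReal (measure_ne_top P _)]
  apply ENNReal.ofReal_le_ofReal
  rw [le_div_iff₀ hpos]
  have h1 : P.real (⋂ a ∈ s, (F a)ᶜ) * μ * μ ≤ 1 * μ := by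
    rw [one_mul]
    nlinarith
  exact le_of_mul_le_mul_right h1 hpos

end Pool.Agent.H37.GB
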