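import Pool.Agent.H37.GB.Stm

/-! # Project GB, stub GB-M4: the fourth moment (by helper92) -/

set_option autoImplicit false

namespace Pool.Agent.H37.GB

open Finset MeasureTheory Filter Topology Q198.CI

namespace M4

/-! ## functions of low degree of a subset -/

/-- `T ⊆ S` -/
def mon (T S : Finset ℕ) : ℝ := if T ⊆ S then 1 else 0

/-- the functions of degree at most `k` -/
def Dg (s : Finset ℕ) (k : ℕ) : Submodule ℝ (Finset ℕ → ℝ) :=
  Submodule.span ℝ {f | ∃ T, T ⊆ s ∧ T.card ≤ k ∧ f = mon T}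

/-- the number of the elements of `s` in `S` -/
def cnt (s S : Finset ℕ) : ℝ := ∑ a ∈ s, if a ∈ S then 1 else 0

lemma cnt_eq {s S : Finset ℕ} (h : S ⊆ s) : cnt s S = S.card := by
  unfold cnt
  rw [sum_ite_mem, inter_eq_right.2 h]
  simp

lemma mon_insert (a : ℕ) (T S : Finset ℕ) :
    (if a ∈ S then (1 : ℝ) else 0) * mon T S = mon (insert a T) S := by
  unfold mon
  by_cases h1 : a ∈ S <;> by_cases h2 : T ⊆ S <;> simp [h1, h2, insert_subset_iff]

lemma Dg_mono (s : Finset ℕ) (k : ℕ) : Dg s k ≤ Dg s (k + 1) := by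
  refine Submodule.span_mono ?_
  rintro f ⟨T, h1, h2, rfl⟩
  exact ⟨T, h1, by omega, rfl⟩

lemma mul_mem_Dg {s : Finset ℕ} {k : ℕ} (μ : ℝ) {f : Finset ℕ → ℝ} (hf : f ∈ Dg s k) :
    (fun S => (cnt s S - μ) * f S) ∈ Dg s (k + 1) := by
  have h1 : (fun S => cnt s S * f S) ∈ Dg s (k + 1) := by
    unfold Dg at hf
    induction hf using Submodule.span_induction with
    | mem f hf =>
      obtain ⟨T, h1, h2, rfl⟩ := hf
      have h3 : (fun S => cnt s S * mon T S) = ∑ a ∈ s, mon (insert a T) := by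
        funext S
        rw [Finset.sum_apply]
        unfold cnt
        rw [sum_mul]
        exact sum_congr rfl fun a _ => mon_insert a T S
      rw [h3]
      refine Submodule.sum_mem _ fun a ha => Submodule.subset_span ?_
      exact ⟨insert a T, insert_subset ha h1, (card_insert_le _ _).trans (by omega), rfl⟩
    | zero =>
      have : (fun S => cnt s S * (0 : Finset ℕ → ℝ) S) = 0 := by
        funext S
        simp
      rw [this]
      exact Submodule.zero_mem _
    | add f g _ _ hf hg =>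
      have : (fun S => cnt s S * (f + g) S) = (fun S => cnt s S * f S) + fun S => cnt s S * g S := by
        funext S
        simp only [Pi.add_apply]
        ring
      rw [this]
      exact Submodule.add_mem _ hf hg
    | smul c f _ hf =>
      have : (fun S => cnt s S * (c • f) S) = c • fun S => cnt s S * f S := by
        funext S
        simp only [Pi.smul_apply, smul_eq_mul]
        ring
      rw [this]
      exact Submodule.smul_mem _ c hf
  have h2 : (fun S => (cnt s S - μ) * f S) = (fun S => cnt s S * f S) + (-μ) • f := by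
    funext S
    simp only [Pi.add_apply, Pi.smul_apply, smul_eq_mul]
    ring
  rw [h2]
  exact Submodule.add_mem _ h1 (Submodule.smul_mem _ _ (Dg_mono s k hf))

lemma pow_mem_Dg (s : Finset ℕ) (μ : ℝ) : ∀ k : ℕ, (fun S => (cnt s S - μ) ^ k) ∈ Dg s k
  | 0 => Submodule.subset_span ⟨∅, empty_subset _, by simp, by
      funext S
      simp [mon]⟩
  | k + 1 => by
    have h1 := mul_mem_Dg μ (pow_mem_Dg s μ k)
    have h2 : (fun S => (cnt s S - μ) ^ (k + 1)) = fun S => (cnt s S - μ) * (cnt s S - μ) ^ k := by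
      funext S
      rw [pow_succ']
    rw [h2]
    exact h1

/-- the expectation of a function of low degree depends only on the moments -/
lemma same {s : Finset ℕ} {k : ℕ} {v w : Finset ℕ → ℝ}
    (h : ∀ T ⊆ s, T.card ≤ k → ∑ S ∈ Icc T s, v S = ∑ S ∈ Icc T s, w S) {f : Finset ℕ → ℝ}
    (hf : f ∈ Dg s k) : ∑ S ∈ s.powerset, v S * f S = ∑ S ∈ s.powerset, w S * f S := by
  unfold Dg at hf
  induction hf using Submodule.span_induction with
  | mem f hf =>
    obtain ⟨T, h1, h2, rfl⟩ := hf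
    have h3 : ∀ u : Finset ℕ → ℝ, ∑ S ∈ s.powerset, u S * mon T S = ∑ S ∈ Icc T s, u S := by
      intro u
      have h4 : s.powerset.filter (fun S => T ⊆ S) = Icc T s := by
        ext S
        rw [mem_filter, mem_powerset, mem_Icc]
        exact and_comm
      rw [← h4, sum_filter]
      refine sum_congr rfl fun S _ => ?_
      unfold mon
      split_ifs <;> simp
    rw [h3 v, h3 w, h T h1 h2]
  | zero => simp
  | add f g _ _ hf hg =>
    simp only [Pi.add_apply, mul_add, sum_add_distrib]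
    rw [hf, hg]
  | smul c f _ hf =>
    simp only [Pi.smul_apply, smul_eq_mul]
    have h1 : ∀ u : Finset ℕ → ℝ, ∑ S ∈ s.powerset, u S * (c * f S) =
        c * ∑ S ∈ s.powerset, u S * f S := by
      intro u
      rw [mul_sum]
      exact sum_congr rfl fun S _ => by ring
    rw [h1 v, h1 w, hf]

/-! ## the product law -/

/-- the product law -/
def pl (q : ℕ → ℝ) (s S : Finset ℕ) : ℝ := (∏ n ∈ S, q n) * ∏ n ∈ s \ S, (1 - q n)

/-- the central moments of the product law -/
def mo (q : ℕ → ℝ) (k : ℕ) (s : Finset ℕ) : ℝ :=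
  ∑ S ∈ s.powerset, pl q s S * ((S.card : ℝ) - ∑ a ∈ s, q a) ^ k

lemma mo_insert (q : ℕ → ℝ) (k : ℕ) {s : Finset ℕ} {a : ℕ} (ha : a ∉ s) :
    mo q k (insert a s) = ∑ S ∈ s.powerset, pl q s S *
      ((1 - q a) * (((S.card : ℝ) - ∑ a ∈ s, q a) - q a) ^ k +
        q a * (((S.card : ℝ) - ∑ a ∈ s, q a) + 1 - q a) ^ k) := by
  unfold mo
  rw [sum_powerset_insert ha, ← sum_add_distrib]
  refine sum_congr rfl fun S hS => ?_
  have haS : a ∉ S := fun h => ha (mem_powerset.1 hS h)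
  have h1 : insert a s \ S = insert a (s \ S) := by
    rw [insert_sdiff_of_notMem _ haS]
  have h2 : insert a s \ insert a S = s \ S := by
    ext x
    rw [Finset.mem_sdiff, Finset.mem_sdiff, Finset.mem_insert, Finset.mem_insert]
    constructor
    · rintro ⟨h3 | h3, h4⟩
      · exact absurd (Or.inl h3) h4
      · exact ⟨h3, fun h5 => h4 (Or.inr h5)⟩
    · rintro ⟨h3, h4⟩
      refine ⟨Or.inr h3, ?_⟩
      rintro (rfl | h5)
      · exact ha h3
      · exact h4 h5
  have h3 : a ∉ s \ S := fun h => ha (Finset.mem_sdiff.1 h).1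
  unfold pl
  rw [h1, h2, prod_insert h3, prod_insert haS, card_insert_of_notMem haS, sum_insert ha]
  push_cast
  ring

lemma mo_bound (q : ℕ → ℝ) (s : Finset ℕ) : (∀ a ∈ s, 0 ≤ q a ∧ q a ≤ 1) →
    mo q 0 s = 1 ∧ mo q 1 s = 0 ∧ 0 ≤ mo q 2 s ∧ mo q 2 s ≤ ∑ a ∈ s, q a ∧
      mo q 4 s ≤ 3 * mo q 2 s ^ 2 + mo q 2 s := by
  induction s using Finset.induction_on with
  | empty =>
    intro _
    have h1 : ∀ k, mo q k ∅ = 0 ^ k := by
      intro k
      unfold mo pl
      simp
    rw [h1, h1, h1, h1]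
    norm_num
  | insert a s ha ih =>
    intro hq
    obtain ⟨e0, e1, e2, e3, e4⟩ := ih fun b hb => hq b (mem_insert_of_mem hb)
    obtain ⟨hq0, hq1⟩ := hq a (mem_insert_self a s)
    have key : ∀ (k : ℕ) (c0 c1 c2 c4 : ℝ), (∀ X : ℝ, (1 - q a) * (X - q a) ^ k +
        q a * (X + 1 - q a) ^ k = c0 * X ^ 0 + c1 * X ^ 1 + c2 * X ^ 2 + c4 * X ^ 4) →
        mo q k (insert a s) = c0 * mo q 0 s + c1 * mo q 1 s + c2 * mo q 2 s + c4 * mo q 4 s := by
      intro k c0 c1 c2 c4 h
      rw [mo_insert q k ha]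
      unfold mo
      rw [mul_sum, mul_sum, mul_sum, mul_sum, ← sum_add_distrib, ← sum_add_distrib,
        ← sum_add_distrib]
      refine sum_congr rfl fun S _ => ?_
      rw [h]
      ring
    have k0 := key 0 1 0 0 0 (fun X => by ring)
    have k1 := key 1 0 1 0 0 (fun X => by ring)
    have k2 := key 2 (q a * (1 - q a)) 0 1 0 (fun X => by ring)
    have k4 := key 4 (q a * (1 - q a) * (1 - 3 * (q a * (1 - q a))))
      (4 * (q a * (1 - q a) * (1 - 2 * q a))) (6 * (q a * (1 - q a))) 1 (fun X => by ring)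
    rw [e0, e1] at k0 k1 k2 k4
    have hv0 : 0 ≤ q a * (1 - q a) := mul_nonneg hq0 (by linarith)
    have hv1 : q a * (1 - q a) ≤ q a := by nlinarith
    rw [sum_insert ha]
    refine ⟨by rw [k0]; ring, by rw [k1]; ring, by rw [k2]; linarith, by rw [k2]; linarith, ?_⟩
    rw [k4, k2]
    nlinarith [mul_nonneg hv0 hv0]

lemma law_four {s : Finset ℕ} {q : ℕ → ℝ} {v : Finset ℕ → ℝ} (hq : ∀ a ∈ s, 0 ≤ q a ∧ q a ≤ 1)
    (hv : ∀ T ⊆ s, T.card ≤ 4 → ∑ S ∈ Icc T s, v S = ∏ n ∈ T, q n) :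
    ∑ S ∈ s.powerset, v S * ((S.card : ℝ) - ∑ a ∈ s, q a) ^ 4 ≤
      3 * (∑ a ∈ s, q a) ^ 2 + ∑ a ∈ s, q a := by
  have h1 : ∀ u : Finset ℕ → ℝ, ∑ S ∈ s.powerset, u S * ((S.card : ℝ) - ∑ a ∈ s, q a) ^ 4 =
      ∑ S ∈ s.powerset, u S * (cnt s S - ∑ a ∈ s, q a) ^ 4 := fun u =>
    sum_congr rfl fun S hS => by rw [cnt_eq (mem_powerset.1 hS)]
  have h2 := same (k := 4) (v := v) (w := pl q s) (fun T hT hT4 => by
    rw [hv T hT hT4]
    exact (prod_moment hT q).symm) (pow_mem_Dg s (∑ a ∈ s, q a) 4)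
  rw [h1 v, h2, ← h1 (pl q s)]
  obtain ⟨-, -, e2, e3, e4⟩ := mo_bound q s hq
  have h3 : mo q 4 s ≤ 3 * (∑ a ∈ s, q a) ^ 2 + ∑ a ∈ s, q a := by
    refine e4.trans ?_
    have h4 : mo q 2 s ^ 2 ≤ (∑ a ∈ s, q a) ^ 2 := pow_le_pow_left₀ e2 e3 2
    linarith
  exact h3

end M4

open M4 in
open Classical in
theorem m4 : S_M4 := by
  intro Ω _ P _ s F q t hF hq hT ht
  set D : Finset ℕ → Set Ω := fun S => ⋂ n ∈ s, {ω | ω ∈ F n ↔ n ∈ S} with hD
  have hDm : ∀ S, MeasurableSet (D S) := by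
    intro S
    refine Finset.measurableSet_biInter _ fun n hn => ?_
    by_cases h : n ∈ S
    · have : {ω | ω ∈ F n ↔ n ∈ S} = F n := by
        ext ω
        simp [h]
      rw [this]
      exact hF n hn
    · have : {ω | ω ∈ F n ↔ n ∈ S} = (F n)ᶜ := by
        ext ω
        simp [h]
      rw [this]
      exact (hF n hn).compl
  have hmemD : ∀ S ω, ω ∈ D S ↔ ∀ n ∈ s, (ω ∈ F n ↔ n ∈ S) := by
    intro S ω
    simp only [hD, Set.mem_iInter, Set.mem_ofPred_eq]
  have hlaw : ∀ T ⊆ s, T.card ≤ 4 →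
      ∑ S ∈ Icc T s, (P (D S)).toReal = ∏ n ∈ T, q n := by
    intro T hTI hTc
    have h1 : (⋂ n ∈ T, F n) = ⋃ S ∈ Icc T s, D S := by
      ext ω
      simp only [Set.mem_iInter, Set.mem_iUnion, hmemD]
      constructor
      · intro h
        refine ⟨s.filter (fun n => ω ∈ F n), ?_, ?_⟩
        · rw [mem_Icc]
          refine ⟨fun n hn => mem_filter.2 ⟨hTI hn, h n hn⟩, filter_subset _ _⟩
        · intro n hn
          rw [mem_filter]
          exact ⟨fun h2 => ⟨hn, h2⟩, fun h2 => h2.2⟩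
      · rintro ⟨S, hS, h⟩ n hn
        rw [mem_Icc] at hS
        exact (h n (hTI hn)).2 (hS.1 hn)
    have h2 : P (⋂ n ∈ T, F n) = ∑ S ∈ Icc T s, P (D S) := by
      rw [h1, measure_biUnion_finset]
      · intro S hS S' hS' hne
        rw [Function.onFun, Set.disjoint_left]
        intro ω h3 h4
        rw [hmemD] at h3 h4
        apply hne
        ext n
        have hSI := (mem_Icc.1 (mem_coe.1 hS)).2
        have hSI' := (mem_Icc.1 (mem_coe.1 hS')).2
        constructor
        · intro h5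
          exact (h4 n (hSI h5)).1 ((h3 n (hSI h5)).2 h5)
        · intro h5
          exact (h3 n (hSI' h5)).1 ((h4 n (hSI' h5)).2 h5)
      · intro S _
        exact hDm S
    rw [← ENNReal.toReal_sum (fun S _ => measure_ne_top P _), ← h2, hT T hTI hTc,
      ENNReal.toReal_ofReal (prod_nonneg fun n hn => (hq n (hTI hn)).1)]
  set μ : ℝ := ∑ a ∈ s, q a with hμ
  set J : Finset (Finset ℕ) := s.powerset.filter (fun S => t ≤ |(S.card : ℝ) - μ|) with hJ
  have h3 : {ω | t ≤ |((s.filter (fun a => ω ∈ F a)).card : ℝ) - μ|} ⊆ ⋃ S ∈ J, D S := by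
    intro ω hω
    simp only [Set.mem_iUnion]
    refine ⟨s.filter (fun a => ω ∈ F a), ?_, ?_⟩
    · rw [hJ, mem_filter, mem_powerset]
      exact ⟨filter_subset _ _, hω⟩
    · rw [hmemD]
      intro n hn
      rw [mem_filter]
      exact ⟨fun h2 => ⟨hn, h2⟩, fun h2 => h2.2⟩
  refine (measure_mono h3).trans ((measure_biUnion_finset_le J D).trans ?_)
  have h4 : ∑ S ∈ J, P (D S) = ENNReal.ofReal (∑ S ∈ J, (P (D S)).toReal) := by
    rw [ENNReal.ofReal_sum_of_nonneg fun S _ => ENNReal.toReal_nonneg]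
    exact sum_congr rfl fun S _ => (ENNReal.ofReal_toReal (measure_ne_top P _)).symm
  rw [h4]
  refine ENNReal.ofReal_le_ofReal ?_
  rw [le_div_iff₀ (pow_pos ht 4)]
  refine le_trans ?_ (law_four hq hlaw)
  rw [sum_mul]
  refine (sum_le_sum fun S hS => ?_).trans (sum_le_sum_of_subset_of_nonneg (filter_subset _ _)
    fun S _ _ => mul_nonneg ENNReal.toReal_nonneg (by positivity))
  refine mul_le_mul_of_nonneg_left ?_ ENNReal.toReal_nonneg
  have h5 : t ≤ |(S.card : ℝ) - μ| := (mem_filter.1 hS).2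
  calc t ^ 4 ≤ |(S.card : ℝ) - μ| ^ 4 := pow_le_pow_left₀ ht.le h5 4
    _ = ((S.card : ℝ) - μ) ^ 4 := by
      rw [show (4 : ℕ) = 2 * 2 by norm_num, pow_mul, pow_mul, sq_abs]

end Pool.Agent.H37.GB
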