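import Pool.Agent.H37.GB.Stm

/-! # GB-MU: the lower bound for the expectation (helper56) -/

set_option autoImplicit false

namespace Pool.Agent.H37.GB

open Finset MeasureTheory Filter Topology Q198.CI

theorem mu_low : S_MU := by
  intro p hp n₀
  obtain ⟨c, hc, hlow⟩ := hp.low
  obtain ⟨n₁, hn₁⟩ := eventually_atTop.mp hlow
  obtain ⟨N, hN⟩ : ∃ N, N = max (max n₀ n₁) 3 := ⟨_, rfl⟩
  have hN0 : n₀ ≤ N := by rw [hN]; exact (le_max_left _ _).trans (le_max_left _ _)
  have hN1 : n₁ ≤ N := by rw [hN]; exact (le_max_right _ _).trans (le_max_left _ _)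
  have hN3 : 3 ≤ N := by rw [hN]; exact le_max_right _ _
  refine ⟨c ^ 2 / 4, by positivity, ?_⟩
  filter_upwards [eventually_ge_atTop (4 * N)] with M hM
  have hM3 : (3 : ℝ) ≤ M := by exact_mod_cast (by omega : 3 ≤ M)
  have hlogM : 0 < Real.log M := Real.log_pos (by linarith)
  have hpos : ∀ x, N ≤ x → x ≤ M → c / Real.log M ≤ p x := by
    intro x hx hxM
    have h1 : (3 : ℝ) ≤ x := by exact_mod_cast hN3.trans hx
    have h2 : (x : ℝ) ≤ M := by exact_mod_cast hxM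
    have h3 : 0 < Real.log x := Real.log_pos (by linarith)
    refine le_trans ?_ (hn₁ x (hN1.trans hx))
    exact div_le_div_of_nonneg_left hc.le h3 (Real.log_le_log (by linarith) h2)
  unfold mu
  have hsub : Ico N ((M + 1) / 2) ⊆ Ico n₀ ((M + 1) / 2) := Ico_subset_Ico_left hN0
  have h1 : ∑ x ∈ Ico N ((M + 1) / 2), p x * p (M - x) ≤
      ∑ x ∈ Ico n₀ ((M + 1) / 2), p x * p (M - x) :=
    sum_le_sum_of_subset_of_nonneg hsub fun x _ _ => mul_nonneg (hp.nonneg _) (hp.nonneg _)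
  refine le_trans ?_ h1
  have h2 : ((Ico N ((M + 1) / 2)).card : ℝ) * (c / Real.log M) ^ 2 ≤
      ∑ x ∈ Ico N ((M + 1) / 2), p x * p (M - x) := by
    rw [← nsmul_eq_mul]
    apply card_nsmul_le_sum
    intro x hx
    rw [mem_Ico] at hx
    rw [sq]
    exact mul_le_mul (hpos x hx.1 (by omega)) (hpos (M - x) (by omega) (by omega))
      (div_nonneg hc.le hlogM.le) (hp.nonneg _)
  refine le_trans ?_ h2
  have h3 : (M : ℝ) / 4 ≤ (Ico N ((M + 1) / 2)).card := by
    rw [Nat.card_Ico]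
    have h4 : M ≤ 4 * ((M + 1) / 2 - N) := by omega
    have h5 : (M : ℝ) ≤ 4 * (((M + 1) / 2 - N : ℕ) : ℝ) := by exact_mod_cast h4
    linarith
  have h4 : c ^ 2 / 4 * ((M : ℝ) / Real.log M ^ 2) = (M : ℝ) / 4 * (c / Real.log M) ^ 2 := by
    rw [div_pow]
    ring
  rw [h4]
  exact mul_le_mul_of_nonneg_right h3 (sq_nonneg _)

end Pool.Agent.H37.GB
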