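import Pool.Agent.H37.GB.Stm

/-! # GB-PAIR: the correlations of the field of the pairs -/

set_option autoImplicit false

namespace Pool.Agent.H37.GB

open Finset MeasureTheory Filter Topology Q198.CI

namespace PR

/-- flip the sign at `r` -/
def flp {M : ℕ} (r : ZMod M) (η : ZMod M → Bool) : ZMod M → Bool := Function.update η r (!η r)

lemma flp_same {M : ℕ} (r : ZMod M) (η : ZMod M → Bool) : flp r η r = !η r := by
  unfold flp
  rw [Function.update_self]

lemma flp_ne {M : ℕ} {r s : ZMod M} (h : s ≠ r) (η : ZMod M → Bool) : flp r η s = η s := by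
  unfold flp
  rw [Function.update_of_ne h]

lemma flp_flp {M : ℕ} (r : ZMod M) (η : ZMod M → Bool) : flp r (flp r η) = η := by
  funext s
  by_cases h : s = r
  · subst h
    rw [flp_same, flp_same, Bool.not_not]
  · rw [flp_ne h, flp_ne h]

lemma flp_ne_self {M : ℕ} (r : ZMod M) (η : ZMod M → Bool) : flp r η ≠ η := by
  intro h
  have := congrFun h r
  rw [flp_same] at this
  cases hb : η r <;> simp [hb] at this

lemma sgn_not (b : Bool) : (if (!b) = true then (1:ℝ) else -1) = -(if b = true then 1 else -1) := by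
  cases b <;> simp

lemma caseA {M : ℕ} [NeZero M] (N : ZMod M) (σ : Bool) {S : Finset (ZMod M)} {x : ZMod M}
    (hx : x ∈ S) (h : x = N - x ∨ N - x ∉ S) :
    ∑ η : ZMod M → Bool, ∏ x ∈ S, pairF N σ η x = 0 := by
  rcases h with h | h
  · refine sum_eq_zero fun η _ => prod_eq_zero hx ?_
    unfold pairF
    rw [← h]
    simp
  · have key : ∃ r : ZMod M, (∀ η, pairF N σ (flp r η) x = -pairF N σ η x) ∧
        ∀ y ∈ S, y ≠ x → ∀ η, pairF N σ (flp r η) y = pairF N σ η y := by
      have hxN : x ≠ N - x := fun e => h (e ▸ hx)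
      have hv : x.val ≠ (N - x).val := fun e => hxN (ZMod.val_injective M e)
      by_cases hlt : x.val < (N - x).val
      · refine ⟨x, fun η => ?_, fun y hy hyx η => ?_⟩
        · unfold pairF
          rw [if_pos hlt, if_pos hlt, flp_same, sgn_not]
        · have h1 : y ≠ x := hyx
          have h2 : N - y ≠ x := by
            intro e
            apply h
            rw [← e, sub_sub_cancel]
            exact hy
          unfold pairF
          rw [flp_ne h1, flp_ne h2]
      · have hgt : (N - x).val < x.val := by omega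
        refine ⟨N - x, fun η => ?_, fun y hy hyx η => ?_⟩
        · unfold pairF
          rw [if_neg hlt, if_neg hlt, if_pos hgt, if_pos hgt, flp_same, sgn_not]
          ring
        · have h1 : y ≠ N - x := by
            intro e
            exact h (e ▸ hy)
          have h2 : N - y ≠ N - x := by
            intro e
            exact hyx (sub_right_injective e)
          unfold pairF
          rw [flp_ne h1, flp_ne h2]
    obtain ⟨r, hr1, hr2⟩ := key
    refine sum_involution (fun η _ => flp r η) ?_ ?_ ?_ ?_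
    · intro η _
      rw [← mul_prod_erase S _ hx, ← mul_prod_erase S (fun y => pairF N σ (flp r η) y) hx, hr1]
      have : ∏ y ∈ S.erase x, pairF N σ (flp r η) y = ∏ y ∈ S.erase x, pairF N σ η y :=
        prod_congr rfl fun y hy => hr2 y (mem_of_mem_erase hy) (ne_of_mem_erase hy) η
      rw [this]
      ring
    · intro η _ _
      exact flp_ne_self r η
    · intro η _
      exact mem_univ _
    · intro η _
      exact flp_flp r η

/-- `S` is a union of pairs `{x, N - x}` -/
def Inv {M : ℕ} (N : ZMod M) (S : Finset (ZMod M)) : Prop := ∀ x ∈ S, x ≠ N - x ∧ N - x ∈ S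

lemma caseB {M : ℕ} [NeZero M] {N : ZMod M} {S : Finset (ZMod M)} (h : Inv N S) :
    ∃ k, S.card = 2 * k ∧ ∀ σ η, ∏ x ∈ S, pairF N σ η x = (if σ = true then (1:ℝ) else -1) ^ k := by
  classical
  set L := S.filter (fun x => x.val < (N - x).val) with hL
  set H := S.filter (fun x => ¬ x.val < (N - x).val) with hH
  have hmapL : ∀ x ∈ L, N - x ∈ H := by
    intro x hx
    rw [hL, mem_filter] at hx
    rw [hH, mem_filter, sub_sub_cancel]
    exact ⟨(h x hx.1).2, by omega⟩
  have hmapH : ∀ x ∈ H, N - x ∈ L := by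
    intro x hx
    rw [hH, mem_filter] at hx
    rw [hL, mem_filter, sub_sub_cancel]
    refine ⟨(h x hx.1).2, ?_⟩
    have h1 : x.val ≠ (N - x).val := fun e => (h x hx.1).1 (ZMod.val_injective M e)
    omega
  have hcard : L.card = H.card := by
    refine card_bij (fun x _ => N - x) hmapL ?_ ?_
    · intro a _ b _ e
      exact sub_right_injective e
    · intro b hb
      exact ⟨N - b, hmapH b hb, sub_sub_cancel _ _⟩
  have hS : L.card + H.card = S.card := by
    rw [hL, hH]
    exact card_filter_add_card_filter_not (s := S) _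
  refine ⟨H.card, by omega, fun σ η => ?_⟩
  rw [← prod_filter_mul_prod_filter_not S (fun x => x.val < (N - x).val), ← hL, ← hH]
  have e1 : ∏ x ∈ L, pairF N σ η x = ∏ x ∈ L, (if η x = true then (1:ℝ) else -1) := by
    refine prod_congr rfl fun x hx => ?_
    unfold pairF
    rw [if_pos (mem_filter.1 hx).2]
  have e2 : ∏ x ∈ H, pairF N σ η x =
      (if σ = true then (1:ℝ) else -1) ^ H.card * ∏ x ∈ H, (if η (N - x) = true then (1:ℝ) else -1) := by
    rw [← prod_const, ← prod_mul_distrib]
    refine prod_congr rfl fun x hx => ?_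
    unfold pairF
    have h2 := mem_filter.1 hx
    have h1 : x.val ≠ (N - x).val := fun e => (h x h2.1).1 (ZMod.val_injective M e)
    rw [if_neg h2.2, if_pos (by omega)]
  have e3 : ∏ x ∈ H, (if η (N - x) = true then (1:ℝ) else -1) =
      ∏ x ∈ L, (if η x = true then (1:ℝ) else -1) := by
    refine prod_bij (fun x _ => N - x) hmapH ?_ ?_ ?_
    · intro a _ b _ e
      exact sub_right_injective e
    · intro b hb
      exact ⟨N - b, hmapL b hb, sub_sub_cancel _ _⟩
    · intro a _
      rfl
  rw [e1, e2, e3]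
  have e4 : (∏ x ∈ L, (if η x = true then (1:ℝ) else -1)) *
      (∏ x ∈ L, (if η x = true then (1:ℝ) else -1)) = 1 := by
    rw [← prod_mul_distrib]
    refine prod_eq_one fun x _ => ?_
    split_ifs <;> norm_num
  calc _ = (if σ = true then (1:ℝ) else -1) ^ H.card * ((∏ x ∈ L, (if η x = true then (1:ℝ) else -1)) *
      (∏ x ∈ L, (if η x = true then (1:ℝ) else -1))) := by ring
    _ = _ := by rw [e4, mul_one]

lemma not_inv {M : ℕ} {N : ZMod M} {S : Finset (ZMod M)} (h : ¬ Inv N S) :
    ∃ x ∈ S, x = N - x ∨ N - x ∉ S := by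
  unfold Inv at h
  push Not at h
  obtain ⟨x, hx, h1⟩ := h
  by_cases e : x = N - x
  · exact ⟨x, hx, Or.inl e⟩
  · exact ⟨x, hx, Or.inr (h1 e)⟩

lemma pair_unique {M : ℕ} {N : ZMod M} {U : Finset (ZMod M)} {a : ZMod M} (ha : a ∈ U)
    (hc : U.card = 2) (hs : ∑ x ∈ U, x = N) : U = {a, N - a} := by
  obtain ⟨u, v, huv, rfl⟩ := card_eq_two.1 hc
  rw [sum_pair huv] at hs
  rw [mem_insert, mem_singleton] at ha
  rcases ha with rfl | rfl
  · rw [← hs, add_sub_cancel_left]
  · rw [← hs, add_sub_cancel_right, Finset.pair_comm]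

/-- the two halves of `S` with sum `N` -/
lemma fibre {M : ℕ} {N : ZMod M} {S : Finset (ZMod M)} (h : Inv N S)
    (h4 : S.card = 4) : ((spl S).filter (fun U => ∑ x ∈ U, x = N)).card = 2 := by
  have hne : S.Nonempty := by
    rw [← card_pos]
    omega
  obtain ⟨a, ha⟩ := hne
  set P : Finset (ZMod M) := {a, N - a} with hP
  have hPc : P.card = 2 := card_pair (h a ha).1
  have hPS : P ⊆ S := by
    rw [hP]
    intro x hx
    rw [mem_insert, mem_singleton] at hx
    rcases hx with rfl | rfl
    · exact ha
    · exact (h a ha).2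
  have hPs : ∑ x ∈ P, x = N := by
    rw [hP, sum_pair (h a ha).1]
    ring
  have hQc : (S \ P).card = 2 := by
    rw [card_sdiff_of_subset hPS, h4, hPc]
  have hQs : ∑ x ∈ S \ P, x = N := by
    have hne2 : (S \ P).Nonempty := by
      rw [← card_pos]
      omega
    obtain ⟨c, hc⟩ := hne2
    rw [Finset.mem_sdiff] at hc
    have hcN := h c hc.1
    have hNc : N - c ∈ S \ P := by
      rw [Finset.mem_sdiff]
      refine ⟨hcN.2, fun hmem => hc.2 ?_⟩
      rw [hP, mem_insert, mem_singleton] at hmem ⊢
      rcases hmem with e | e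
      · right
        rw [← e, sub_sub_cancel]
      · left
        exact sub_right_injective e
    have hsub : ({c, N - c} : Finset (ZMod M)) ⊆ S \ P := by
      intro x hx
      rw [mem_insert, mem_singleton] at hx
      rcases hx with rfl | rfl
      · exact Finset.mem_sdiff.2 hc
      · exact hNc
    have heq : ({c, N - c} : Finset (ZMod M)) = S \ P := by
      refine eq_of_subset_of_card_le hsub ?_
      rw [hQc, card_pair hcN.1]
    rw [← heq, sum_pair hcN.1]
    ring
  have hPQ : P ≠ S \ P := by
    intro e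
    have h1 : a ∈ P := by
      rw [hP]
      exact mem_insert_self _ _
    have h2 : a ∈ S \ P := e ▸ h1
    exact (Finset.mem_sdiff.1 h2).2 h1
  have hset : (spl S).filter (fun U => ∑ x ∈ U, x = N) = {P, S \ P} := by
    ext U
    rw [mem_filter, mem_insert, mem_singleton]
    unfold spl
    rw [mem_filter, mem_powerset, h4]
    constructor
    · rintro ⟨⟨hU, hUc, hUs⟩, hUN⟩
      have hUc2 : U.card = 2 := by omega
      by_cases haU : a ∈ U
      · left
        exact pair_unique haU hUc2 hUN
      · right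
        have h1 : a ∈ S \ U := Finset.mem_sdiff.2 ⟨ha, haU⟩
        have h2 : (S \ U).card = 2 := by
          rw [card_sdiff_of_subset hU, h4, hUc2]
        have h3 := pair_unique h1 h2 (hUs ▸ hUN)
        rw [hP, ← h3, Finset.sdiff_sdiff_eq_self hU]
    · rintro (rfl | rfl)
      · exact ⟨⟨hPS, by omega, by rw [hPs, hQs]⟩, hPs⟩
      · exact ⟨⟨sdiff_subset, by omega, by rw [Finset.sdiff_sdiff_eq_self hPS, hPs, hQs]⟩, hQs⟩
  rw [hset, card_pair hPQ]

lemma inv_of_spl {M : ℕ} {S U : Finset (ZMod M)} (h4 : S.card = 4) (hU : U ∈ spl S) :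
    Inv (∑ x ∈ U, x) S := by
  unfold spl at hU
  rw [mem_filter, mem_powerset, h4] at hU
  obtain ⟨hUS, hUc, hUs⟩ := hU
  have hUc2 : U.card = 2 := by omega
  have h2 : (S \ U).card = 2 := by
    rw [card_sdiff_of_subset hUS, h4, hUc2]
  have aux : ∀ V : Finset (ZMod M), V ⊆ S → V.card = 2 → ∑ x ∈ V, x = ∑ x ∈ U, x → ∀ x ∈ V,
      x ≠ ∑ x ∈ U, x - x ∧ ∑ x ∈ U, x - x ∈ S := by
    intro V hV hVc hVs x hx
    have h3 := pair_unique hx hVc hVs
    constructor
    · intro e
      rw [← e, pair_eq_singleton] at h3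
      rw [h3, card_singleton] at hVc
      omega
    · apply hV
      rw [h3]
      exact mem_insert_of_mem (mem_singleton_self _)
  intro x hx
  by_cases hxU : x ∈ U
  · exact aux U hUS hUc2 rfl x hxU
  · exact aux (S \ U) sdiff_subset h2 hUs.symm x (Finset.mem_sdiff.2 ⟨hx, hxU⟩)

end PR

theorem pair_avg : S_PAIR := by
  classical
  intro M _ hM _ S hS hS7
  have hN : ∀ N : ZMod M, ∑ σ : Bool, ∑ η : ZMod M → Bool, ∏ x ∈ S, pairF N σ η x =
      if PR.Inv N S ∧ S.card = 4 then 2 * 2 ^ M else 0 := by
    intro N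
    by_cases h : PR.Inv N S
    · obtain ⟨k, hk, hprod⟩ := PR.caseB h
      have e1 : ∀ σ : Bool, ∑ η : ZMod M → Bool, ∏ x ∈ S, pairF N σ η x =
          2 ^ M * (if σ = true then (1:ℝ) else -1) ^ k := by
        intro σ
        rw [sum_congr rfl fun η _ => hprod σ η, sum_const, nsmul_eq_mul]
        congr 1
        rw [card_univ, Fintype.card_fun, Fintype.card_bool, ZMod.card]
        push_cast
        rfl
      rw [Fintype.sum_bool, e1, e1]
      have hk1 : 1 ≤ k := by
        have := card_pos.2 hS
        omega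
      have hk3 : k ≤ 3 := by omega
      have hcases : k = 1 ∨ k = 2 ∨ k = 3 := by omega
      rcases hcases with rfl | rfl | rfl
      · have h5 : ¬ (PR.Inv N S ∧ S.card = 4) := fun h1 => by omega
        rw [if_neg h5]
        norm_num
      · have h5 : PR.Inv N S ∧ S.card = 4 := ⟨h, by omega⟩
        rw [if_pos h5]
        norm_num
        ring
      · have h5 : ¬ (PR.Inv N S ∧ S.card = 4) := fun h1 => by omega
        rw [if_neg h5]
        norm_num
    · rw [if_neg (fun h1 => h h1.1)]
      obtain ⟨x, hx, h1⟩ := PR.not_inv h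
      refine sum_eq_zero fun σ _ => PR.caseA N σ hx h1
  rw [sum_congr rfl fun N _ => hN N]
  by_cases h4 : S.card = 4
  · rw [if_pos h4]
    have e1 : ∑ N : ZMod M, (if PR.Inv N S ∧ S.card = 4 then (2 * 2 ^ M : ℝ) else 0) =
        ((univ.filter (fun N : ZMod M => PR.Inv N S)).card : ℝ) * (2 * 2 ^ M) := by
      rw [← sum_filter, sum_const, nsmul_eq_mul]
      congr 3
      ext N
      simp [h4]
    have e2 : (spl S).card = (univ.filter (fun N : ZMod M => PR.Inv N S)).card * 2 := by
      have h5 := card_eq_sum_card_fiberwise (s := spl S)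
        (t := univ.filter (fun N : ZMod M => PR.Inv N S)) (f := fun U => ∑ x ∈ U, x) (by
          intro U hU
          rw [coe_filter]
          exact ⟨mem_univ _, PR.inv_of_spl h4 hU⟩)
      rw [h5, sum_congr rfl fun N hN' => PR.fibre (mem_filter.1 hN').2 h4, sum_const, smul_eq_mul]
    rw [e1, e2]
    have hMpos : (0:ℝ) < M := by exact_mod_cast hM.pos
    push_cast
    field_simp
  · rw [if_neg h4, sum_congr rfl fun N _ => if_neg (fun h => h4 h.2), sum_const_zero, mul_zero]

end Pool.Agent.H37.GB
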