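import Pool.Agent.H37.GB.Stm

/-! Project GB: order 4 bounds the number of exceptions (`S_POS4`), proof by helper71. -/

set_option autoImplicit false

namespace Pool.Agent.H37.GB

open Finset MeasureTheory Filter Topology Q198.CI

namespace Pos4

lemma summable_f (ε : ℝ) (hε : 0 < ε) :
    Summable (fun n : ℕ => 1 / ((n : ℝ) * (1 + Real.log n) ^ (1 + ε))) := by
  have hl2 : 0 < Real.log 2 := Real.log_pos (by norm_num)
  have hl2' : Real.log 2 ≤ 1 := by
    have := Real.log_two_lt_d9
    linarith
  have hlog : ∀ n : ℕ, 0 ≤ Real.log n := fun n => Real.log_natCast_nonneg n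
  rw [← summable_condensed_iff_of_nonneg]
  · have h1 : Summable (fun k : ℕ => 1 / (Real.log 2) ^ (1 + ε) * (1 / ((k + 1 : ℕ) : ℝ) ^ (1 + ε))) := by
      apply Summable.mul_left
      exact (summable_nat_add_iff 1).2 (Real.summable_one_div_nat_rpow.2 (by linarith))
    refine Summable.of_nonneg_of_le (fun k => ?_) (fun k => ?_) h1
    · have := hlog (2 ^ k)
      positivity
    · have e1 : ((2 ^ k : ℕ) : ℝ) = 2 ^ k := by push_cast; ring
      rw [e1, Real.log_pow]
      have e2 : (2 : ℝ) ^ k * (1 / ((2 : ℝ) ^ k * (1 + (k : ℝ) * Real.log 2) ^ (1 + ε))) =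
          1 / (1 + (k : ℝ) * Real.log 2) ^ (1 + ε) := by
        have h2 : (2 : ℝ) ^ k ≠ 0 := by positivity
        have h3 : (1 + (k : ℝ) * Real.log 2) ^ (1 + ε) ≠ 0 := by
          have : 0 < 1 + (k : ℝ) * Real.log 2 := by positivity
          exact (Real.rpow_pos_of_pos this _).ne'
        field_simp
      rw [e2, one_div_mul_one_div, ← Real.mul_rpow hl2.le (by positivity)]
      apply one_div_le_one_div_of_le
      · apply Real.rpow_pos_of_pos
        positivity
      · apply Real.rpow_le_rpow (by positivity) _ (by linarith)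
        push_cast
        nlinarith
  · intro n
    have := hlog n
    positivity
  · intro m n hm hmn
    have hm' : (0 : ℝ) < m := by exact_mod_cast hm
    have hmn' : (m : ℝ) ≤ n := by exact_mod_cast hmn
    have hlm : Real.log m ≤ Real.log n := Real.log_le_log hm' hmn'
    have := hlog m
    apply one_div_le_one_div_of_le
    · positivity
    · apply mul_le_mul hmn' _ (by positivity) (by positivity)
      exact Real.rpow_le_rpow (by positivity) (by linarith) (by linarith)

open Classical in
/-- events of small probability: almost sure bound for the number of the events which occur -/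
lemma ae_count {Ω : Type} [MeasurableSpace Ω] (P : Measure Ω) [IsProbabilityMeasure P]
    (A : ℕ → Set Ω) (hA : ∀ M, MeasurableSet (A M)) (C : ℝ) (hC : 0 ≤ C) (M₁ : ℕ)
    (hP : ∀ M, M₁ ≤ M → P (A M) ≤ ENNReal.ofReal (C * ((1 + Real.log M) ^ 2 / M))) :
    ∀ᵐ ω ∂P, ∀ ε : ℝ, 0 < ε → ∀ᶠ X : ℕ in atTop,
      ((((range (X + 1)).filter (fun M => ω ∈ A M)).card : ℕ) : ℝ) ≤ Real.log X ^ (3 + ε) := by
  have hlog : ∀ n : ℕ, 0 ≤ Real.log n := fun n => Real.log_natCast_nonneg n
  -- the weighted sum is almost surely finite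
  have key : ∀ η : ℝ, 0 < η → ∀ᵐ ω ∂P, ∑' M : ℕ, (A (M₁ + M)).indicator
      (fun _ => ENNReal.ofReal (1 / (1 + Real.log ((M₁ + M : ℕ) : ℝ)) ^ (3 + η))) ω < ⊤ := by
    intro η hη
    apply ae_lt_top
    · apply Measurable.ennreal_tsum
      intro M
      exact Measurable.indicator measurable_const (hA _)
    · rw [lintegral_tsum (fun M => (Measurable.indicator measurable_const (hA _)).aemeasurable)]
      have h1 : ∀ M : ℕ, ∫⁻ ω, (A (M₁ + M)).indicator
          (fun _ => ENNReal.ofReal (1 / (1 + Real.log ((M₁ + M : ℕ) : ℝ)) ^ (3 + η))) ω ∂P ≤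
          ENNReal.ofReal (C * (1 / (((M₁ + M : ℕ) : ℝ) *
            (1 + Real.log ((M₁ + M : ℕ) : ℝ)) ^ (1 + η)))) := by
        intro M
        rw [lintegral_indicator (hA _), setLIntegral_const]
        have h2 := hP (M₁ + M) (by omega)
        have h3 := hlog (M₁ + M)
        refine (mul_le_mul_right h2 _).trans ?_
        rw [← ENNReal.ofReal_mul (by positivity)]
        apply ENNReal.ofReal_le_ofReal
        apply le_of_eq
        have h4 : (1 + Real.log ((M₁ + M : ℕ) : ℝ)) ^ (3 + η) =
            (1 + Real.log ((M₁ + M : ℕ) : ℝ)) ^ (1 + η) *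
              (1 + Real.log ((M₁ + M : ℕ) : ℝ)) ^ 2 := by
          rw [← Real.rpow_natCast, ← Real.rpow_add (by positivity)]
          congr 1
          push_cast
          ring
        rw [h4]
        have h5 : (1 + Real.log ((M₁ + M : ℕ) : ℝ)) ^ (1 + η) ≠ 0 :=
          (Real.rpow_pos_of_pos (by positivity) _).ne'
        have h6 : (1 + Real.log ((M₁ + M : ℕ) : ℝ)) ^ 2 ≠ 0 := by positivity
        field_simp
      have h2 : Summable (fun M : ℕ => C * (1 / (((M₁ + M : ℕ) : ℝ) *
            (1 + Real.log ((M₁ + M : ℕ) : ℝ)) ^ (1 + η)))) := by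
        apply Summable.mul_left
        have h3 := (summable_nat_add_iff M₁).2 (summable_f η hη)
        refine h3.congr (fun M => ?_)
        rw [add_comm M M₁]
      refine ne_of_lt (lt_of_le_of_lt (ENNReal.tsum_le_tsum h1) ?_)
      exact lt_of_le_of_ne le_top h2.tsum_ofReal_ne_top
  have key2 : ∀ᵐ ω ∂P, ∀ j : ℕ, ∑' M : ℕ, (A (M₁ + M)).indicator
      (fun _ => ENNReal.ofReal (1 / (1 + Real.log ((M₁ + M : ℕ) : ℝ)) ^ (3 + 1 / ((j : ℝ) + 1)))) ω
        < ⊤ := by
    rw [ae_all_iff]
    intro j
    exact key _ (by positivity)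
  filter_upwards [key2] with ω hω ε hε
  obtain ⟨j, hj⟩ := exists_nat_one_div_lt hε
  obtain ⟨η, hη⟩ : ∃ η : ℝ, η = 1 / ((j : ℝ) + 1) := ⟨_, rfl⟩
  have hη0 : 0 < η := by rw [hη]; positivity
  have hω := hω j
  rw [← hη] at hω hj
  obtain ⟨S, hS⟩ : ∃ S : ℝ, S = (∑' M : ℕ, (A (M₁ + M)).indicator
      (fun _ => ENNReal.ofReal (1 / (1 + Real.log ((M₁ + M : ℕ) : ℝ)) ^ (3 + η))) ω).toReal :=
    ⟨_, rfl⟩
  have hS0 : 0 ≤ S := by rw [hS]; exact ENNReal.toReal_nonneg
  -- count
  have hcount : ∀ X : ℕ, (((range (X + 1)).filter (fun M => ω ∈ A M)).card : ℝ) ≤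
      M₁ + S * (1 + Real.log X) ^ (3 + η) := by
    intro X
    have h1 : (range (X + 1)).filter (fun M => ω ∈ A M) ⊆ range M₁ ∪
        ((range (X + 1 - M₁)).filter (fun M => ω ∈ A (M₁ + M))).image (fun M => M₁ + M) := by
      intro M hM
      rw [Finset.mem_filter, Finset.mem_range] at hM
      rw [Finset.mem_union, Finset.mem_range, Finset.mem_image]
      by_cases h : M < M₁
      · exact Or.inl h
      · right
        refine ⟨M - M₁, ?_, by omega⟩
        rw [Finset.mem_filter, Finset.mem_range]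
        refine ⟨by omega, ?_⟩
        rw [show M₁ + (M - M₁) = M by omega]
        exact hM.2
    have h2 := (Finset.card_le_card h1).trans ((Finset.card_union_le _ _).trans
      (Nat.add_le_add_left Finset.card_image_le _))
    rw [Finset.card_range] at h2
    have h3 : (((range (X + 1)).filter (fun M => ω ∈ A M)).card : ℝ) ≤ M₁ +
        (((range (X + 1 - M₁)).filter (fun M => ω ∈ A (M₁ + M))).card : ℝ) := by exact_mod_cast h2
    refine h3.trans ?_
    have hlX := hlog X
    obtain ⟨F, hF⟩ : ∃ F, F = (range (X + 1 - M₁)).filter (fun M => ω ∈ A (M₁ + M)) := ⟨_, rfl⟩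
    rw [← hF]
    have h4 : (F.card : ℝ) * (1 / (1 + Real.log X) ^ (3 + η)) ≤ S := by
      have h5 : ENNReal.ofReal ((F.card : ℝ) * (1 / (1 + Real.log X) ^ (3 + η))) ≤
          ∑' M : ℕ, (A (M₁ + M)).indicator
            (fun _ => ENNReal.ofReal (1 / (1 + Real.log ((M₁ + M : ℕ) : ℝ)) ^ (3 + η))) ω := by
        refine le_trans ?_ (ENNReal.sum_le_tsum F)
        rw [ENNReal.ofReal_mul (by positivity), ENNReal.ofReal_natCast, ← nsmul_eq_mul]
        apply Finset.card_nsmul_le_sum
        intro M hM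
        rw [hF, Finset.mem_filter, Finset.mem_range] at hM
        rw [Set.indicator_of_mem hM.2]
        apply ENNReal.ofReal_le_ofReal
        rcases Nat.eq_zero_or_pos (M₁ + M) with h0 | h0
        · rw [h0]
          simp only [Nat.cast_zero, Real.log_zero, add_zero, Real.one_rpow, div_one]
          rw [div_le_one (Real.rpow_pos_of_pos (by positivity) _)]
          exact Real.one_le_rpow (by linarith) (by linarith)
        · have h0' : (0 : ℝ) < ((M₁ + M : ℕ) : ℝ) := by exact_mod_cast h0
          have hl := hlog (M₁ + M)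
          apply one_div_le_one_div_of_le (Real.rpow_pos_of_pos (by positivity) _)
          apply Real.rpow_le_rpow (by positivity) _ (by linarith)
          have h6 : ((M₁ + M : ℕ) : ℝ) ≤ X := by
            have : M₁ + M ≤ X := by omega
            exact_mod_cast this
          have := Real.log_le_log h0' h6
          linarith
      have h6 := ENNReal.toReal_mono hω.ne h5
      rw [← hS, ENNReal.toReal_ofReal (by positivity)] at h6
      exact h6
    have h7 : (0 : ℝ) < (1 + Real.log X) ^ (3 + η) := Real.rpow_pos_of_pos (by positivity) _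
    rw [mul_one_div, div_le_iff₀ h7] at h4
    linarith
  -- conclusion
  have hn : Tendsto (fun X : ℕ => Real.log (X : ℝ)) atTop atTop :=
    Real.tendsto_log_atTop.comp tendsto_natCast_atTop_atTop
  have hev : ∀ᶠ y : ℝ in atTop, (M₁ : ℝ) + S * 2 ^ (3 + η) ≤ y ^ (ε - η) :=
    (tendsto_rpow_atTop (by linarith)).eventually_ge_atTop _
  filter_upwards [hn.eventually hev, hn.eventually (eventually_ge_atTop 1)] with X hX1 hX2
  refine (hcount X).trans ?_
  have hy : 0 < Real.log X := by linarith
  have e1 : (1 + Real.log X) ^ (3 + η) ≤ 2 ^ (3 + η) * Real.log X ^ (3 + η) := by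
    rw [← Real.mul_rpow (by norm_num) hy.le]
    exact Real.rpow_le_rpow (by positivity) (by linarith) (by linarith)
  have e2 : (1 : ℝ) ≤ Real.log X ^ (3 + η) := Real.one_le_rpow hX2 (by linarith)
  have e3 : Real.log X ^ (3 + ε) = Real.log X ^ (ε - η) * Real.log X ^ (3 + η) := by
    rw [← Real.rpow_add hy]
    congr 1
    ring
  rw [e3]
  calc (M₁ : ℝ) + S * (1 + Real.log X) ^ (3 + η)
      ≤ M₁ * Real.log X ^ (3 + η) + S * (2 ^ (3 + η) * Real.log X ^ (3 + η)) := by
        apply add_le_add
        · exact le_mul_of_one_le_right (Nat.cast_nonneg _) e2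
        · exact mul_le_mul_of_nonneg_left e1 hS0
    _ = (M₁ + S * 2 ^ (3 + η)) * Real.log X ^ (3 + η) := by ring
    _ ≤ Real.log X ^ (ε - η) * Real.log X ^ (3 + η) :=
        mul_le_mul_of_nonneg_right hX1 (by positivity)

lemma meas_rep {Ω : Type} [MeasurableSpace Ω] (E : ℕ → Set Ω) (hE : ∀ n, MeasurableSet (E n))
    (M : ℕ) : {ω | rep E ω M = 0} = ⋂ x ∈ range ((M + 1) / 2), (E x ∩ E (M - x))ᶜ := by
  classical
  ext ω
  simp only [rep, Set.mem_setOf_eq, Finset.card_eq_zero, Finset.filter_eq_empty_iff, Set.mem_iInter,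
    Set.mem_compl_iff, Set.mem_inter_iff]

lemma prob_rep (h2 : S_M2) (p : ℕ → ℝ) (κ : ℕ → ℕ) (hp : IsDens p) (n₀ : ℕ)
    (hκ : ∀ n, n₀ ≤ n → 4 ≤ κ n) {Ω : Type} [MeasurableSpace Ω] (P : Measure Ω)
    [IsProbabilityMeasure P] (E : ℕ → Set Ω) (hM : Model P p κ E) (M : ℕ) (hmu : 0 < mu p n₀ M) :
    P {ω | rep E ω M = 0} ≤ ENNReal.ofReal (1 / mu p n₀ M) := by
  classical
  have hq := h2 Ω P (Ico n₀ ((M + 1) / 2)) (fun x => E x ∩ E (M - x)) (fun x => p x * p (M - x))
    (fun a _ => (hM.meas _).inter (hM.meas _))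
    (fun a _ => ⟨mul_nonneg (hp.nonneg _) (hp.nonneg _),
      mul_le_one₀ (hp.le_one _) (hp.nonneg _) (hp.le_one _)⟩)
    (by
      intro T hT hTc
      have hT' : ∀ a ∈ T, n₀ ≤ a ∧ a < (M + 1) / 2 := fun a ha => Finset.mem_Ico.1 (hT ha)
      have hinj : Set.InjOn (fun x => M - x) (T : Set ℕ) := by
        intro a ha b hb hab
        have h1 := hT' a ha
        have h2 := hT' b hb
        simp only at hab
        omega
      have hdisj : Disjoint T (T.image (fun x => M - x)) := by
        rw [Finset.disjoint_left]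
        intro a ha ha'
        rw [Finset.mem_image] at ha'
        obtain ⟨b, hb, hab⟩ := ha'
        have h1 := hT' a ha
        have h2 := hT' b hb
        omega
      have hset : (⋂ a ∈ T, E a ∩ E (M - a)) = ⋂ n ∈ T ∪ T.image (fun x => M - x), E n := by
        ext ω
        simp only [Set.mem_iInter, Set.mem_inter_iff, Finset.mem_union, Finset.mem_image]
        constructor
        · rintro h n (hn | ⟨b, hb, rfl⟩)
          · exact (h n hn).1
          · exact (h b hb).2
        · intro h a ha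
          exact ⟨h a (Or.inl ha), h (M - a) (Or.inr ⟨a, ha, rfl⟩)⟩
      rw [hset, hM.indep]
      · rw [Finset.prod_union hdisj, Finset.prod_image hinj, Finset.prod_mul_distrib]
      · intro n hn
        have hc : (T ∪ T.image (fun x => M - x)).card ≤ 4 := by
          have h3 := Finset.card_union_le T (T.image (fun x => M - x))
          have h4 := Finset.card_image_le (s := T) (f := fun x => M - x)
          omega
        refine hc.trans (hκ n ?_)
        rw [Finset.mem_union, Finset.mem_image] at hn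
        rcases hn with hn | ⟨b, hb, rfl⟩
        · exact (hT' n hn).1
        · have := hT' b hb
          omega) hmu
  refine le_trans (measure_mono ?_) hq
  intro ω hω
  rw [meas_rep E hM.meas] at hω
  simp only [Set.mem_iInter] at hω ⊢
  intro a ha
  refine hω a ?_
  rw [Finset.mem_Ico] at ha
  rw [Finset.mem_range]
  exact ha.2

end Pos4

open Pos4 in
theorem pos4 : S_M2 → S_MU → S_POS4 := by
  classical
  intro h2 hmu p κ hp hκ Ω _ P _ E hM
  obtain ⟨n₀, hn₀⟩ := eventually_atTop.1 hκ
  obtain ⟨c, hc, hev⟩ := hmu p hp n₀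
  obtain ⟨M₀, hM₀⟩ := eventually_atTop.1 hev
  have hmeas : ∀ M, MeasurableSet {ω | rep E ω M = 0} := by
    intro M
    rw [meas_rep E hM.meas]
    exact Finset.measurableSet_biInter _ (fun x _ => ((hM.meas _).inter (hM.meas _)).compl)
  have hbound : ∀ M, max M₀ 3 ≤ M → P {ω | rep E ω M = 0} ≤
      ENNReal.ofReal (1 / c * ((1 + Real.log M) ^ 2 / M)) := by
    intro M hMM
    have hM1 : M₀ ≤ M := (le_max_left _ _).trans hMM
    have hM2 : 3 ≤ M := (le_max_right _ _).trans hMM
    have hM3 : (3 : ℝ) ≤ M := by exact_mod_cast hM2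
    have hl : 0 < Real.log M := Real.log_pos (by linarith)
    have h3 := hM₀ M hM1
    have h4 : 0 < c * ((M : ℝ) / Real.log M ^ 2) := by positivity
    refine (prob_rep h2 p κ hp n₀ hn₀ P E hM M (lt_of_lt_of_le h4 h3)).trans ?_
    apply ENNReal.ofReal_le_ofReal
    calc 1 / mu p n₀ M ≤ 1 / (c * ((M : ℝ) / Real.log M ^ 2)) := one_div_le_one_div_of_le h4 h3
      _ = 1 / c * (Real.log M ^ 2 / M) := by field_simp
      _ ≤ 1 / c * ((1 + Real.log M) ^ 2 / M) := by
        apply mul_le_mul_of_nonneg_left _ (by positivity)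
        apply div_le_div_of_nonneg_right _ (by positivity)
        exact pow_le_pow_left₀ hl.le (by linarith) 2
  filter_upwards [ae_count P (fun M => {ω | rep E ω M = 0}) hmeas (1 / c) (by positivity) _ hbound]
    with ω hω ε hε
  filter_upwards [hω ε hε] with X hX
  refine le_trans (le_of_eq ?_) hX
  rw [← Set.ncard_coe_finset]
  congr 2
  ext M
  simp only [Finset.coe_filter, Finset.mem_range, Set.mem_setOf_eq]
  constructor
  · rintro ⟨h, h'⟩
    exact ⟨by omega, h'⟩
  · rintro ⟨h, h'⟩
    exact ⟨by omega, h'⟩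

end Pool.Agent.H37.GB
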