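import Pool.Agent.H37.GB.Stm

/-! GB-POS8 (helper67): order 8 gives the asymptotic formula. -/

set_option autoImplicit false

namespace Pool.Agent.H37.GB

open Finset MeasureTheory Filter Topology Q198.CI

/-- the pairs `(x, M - x)` are independent of half the order -/
lemma pairs_indep {Ω : Type} [MeasurableSpace Ω] {P : Measure Ω} {p : ℕ → ℝ} {κ : ℕ → ℕ}
    {E : ℕ → Set Ω} (hM : Model P p κ E) {K n₀ : ℕ} (hκ : ∀ n, n₀ ≤ n → 2 * K ≤ κ n) (M : ℕ)
    (T : Finset ℕ) (hT : T ⊆ Ico n₀ ((M + 1) / 2)) (hTc : T.card ≤ K) :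
    P (⋂ a ∈ T, (E a ∩ E (M - a))) = ENNReal.ofReal (∏ a ∈ T, p a * p (M - a)) := by
  classical
  have h1 : ∀ a ∈ T, n₀ ≤ a ∧ 2 * a < M := by
    intro a ha
    have := mem_Ico.1 (hT ha)
    omega
  set T' := T.image (fun a => M - a) with hT'
  have hinj : Set.InjOn (fun a => M - a) (T : Set ℕ) := by
    intro a ha b hb hab
    have := h1 a ha
    have := h1 b hb
    simp only at hab
    omega
  have hdis : Disjoint T T' := by
    rw [Finset.disjoint_left]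
    intro a ha ha'
    rw [hT', mem_image] at ha'
    obtain ⟨b, hb, hab⟩ := ha'
    have := h1 _ ha
    have := h1 b hb
    omega
  have hset : (⋂ a ∈ T, (E a ∩ E (M - a))) = ⋂ n ∈ T ∪ T', E n := by
    ext ω
    simp only [Set.mem_iInter, Set.mem_inter_iff, mem_union]
    constructor
    · rintro h n (hn | hn)
      · exact (h n hn).1
      · rw [hT', mem_image] at hn
        obtain ⟨b, hb, rfl⟩ := hn
        exact (h b hb).2
    · intro h a ha
      exact ⟨h a (Or.inl ha), h _ (Or.inr (mem_image_of_mem _ ha))⟩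
  rw [hset, hM.indep]
  · rw [prod_union hdis, hT', prod_image (fun a ha b hb h => hinj ha hb h), ← prod_mul_distrib]
  · intro n hn
    have hc : (T ∪ T').card ≤ 2 * K := by
      have := card_union_le T T'
      have : T'.card ≤ T.card := by
        rw [hT']
        exact card_image_le
      omega
    refine hc.trans (hκ n ?_)
    rw [mem_union] at hn
    rcases hn with hn | hn
    · exact (h1 n hn).1
    · rw [hT', mem_image] at hn
      obtain ⟨b, hb, rfl⟩ := hn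
      have := h1 b hb
      omega

lemma mu_nonneg {p : ℕ → ℝ} (hp : IsDens p) (n₀ M : ℕ) : 0 ≤ mu p n₀ M :=
  sum_nonneg fun x _ => mul_nonneg (hp.nonneg x) (hp.nonneg _)

lemma mu_le {p : ℕ → ℝ} (hp : IsDens p) (n₀ M : ℕ) : mu p n₀ M ≤ mu p 0 M :=
  sum_le_sum_of_subset_of_nonneg (Ico_subset_Ico_left (Nat.zero_le _))
    fun x _ _ => mul_nonneg (hp.nonneg x) (hp.nonneg _)

lemma le_mu {p : ℕ → ℝ} (hp : IsDens p) (n₀ M : ℕ) : mu p 0 M ≤ mu p n₀ M + n₀ := by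
  classical
  unfold mu
  rw [← sum_filter_add_sum_filter_not (Ico 0 ((M + 1) / 2)) (fun x => x < n₀), add_comm]
  have e : (Ico 0 ((M + 1) / 2)).filter (fun x => ¬ x < n₀) = Ico n₀ ((M + 1) / 2) := by
    ext x
    simp only [mem_filter, mem_Ico]
    omega
  rw [e]
  refine add_le_add le_rfl ?_
  have h1 : ∑ x ∈ (Ico 0 ((M + 1) / 2)).filter (fun x => x < n₀), p x * p (M - x) ≤
      ∑ _x ∈ (Ico 0 ((M + 1) / 2)).filter (fun x => x < n₀), (1:ℝ) :=
    sum_le_sum fun x _ => mul_le_one₀ (hp.le_one x) (hp.nonneg _) (hp.le_one _)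
  rw [sum_const, nsmul_eq_mul, mul_one] at h1
  refine h1.trans ?_
  have h2 : ((Ico 0 ((M + 1) / 2)).filter (fun x => x < n₀)).card ≤ (range n₀).card :=
    card_le_card fun x hx => mem_range.2 (mem_filter.1 hx).2
  rw [card_range] at h2
  exact_mod_cast h2

open Classical in
lemma rep_close {Ω : Type} (E : ℕ → Set Ω) (ω : Ω) (n₀ M : ℕ) :
    |(rep E ω M : ℝ) - (((Ico n₀ ((M + 1) / 2)).filter
      (fun x => ω ∈ E x ∩ E (M - x))).card : ℝ)| ≤ n₀ := by
  set A := (Ico n₀ ((M + 1) / 2)).filter (fun x => ω ∈ E x ∩ E (M - x)) with hA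
  set B := (range ((M + 1) / 2)).filter (fun x => ω ∈ E x ∧ ω ∈ E (M - x)) with hB
  have hrep : rep E ω M = B.card := by
    unfold rep
    rw [hB]
  have h1 : A ⊆ B := by
    intro x hx
    rw [hA, mem_filter, mem_Ico] at hx
    rw [hB, mem_filter, mem_range]
    exact ⟨hx.1.2, hx.2⟩
  have h2 : B ⊆ A ∪ range n₀ := by
    intro x hx
    rw [hB, mem_filter, mem_range] at hx
    rw [mem_union, mem_range, hA, mem_filter, mem_Ico]
    by_cases h : x < n₀
    · exact Or.inr h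
    · exact Or.inl ⟨⟨not_lt.1 h, hx.1⟩, hx.2⟩
  have h3 := card_le_card h1
  have h4 := (card_le_card h2).trans (card_union_le _ _)
  rw [card_range] at h4
  have h3' : (A.card : ℝ) ≤ B.card := by exact_mod_cast h3
  have h4' : (B.card : ℝ) ≤ A.card + n₀ := by exact_mod_cast h4
  rw [hrep, abs_le]
  constructor <;> linarith [(Nat.cast_nonneg n₀ : (0:ℝ) ≤ n₀)]

lemma mu_pow_low (hMU : S_MU) {p : ℕ → ℝ} (hp : IsDens p) (n₀ : ℕ) :
    ∀ᶠ M : ℕ in atTop, (M : ℝ) ^ (3 / 4 : ℝ) ≤ mu p n₀ M := by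
  obtain ⟨c, hc, h⟩ := hMU p hp n₀
  have h1 : (fun x : ℝ => Real.log x ^ (2:ℝ)) =o[atTop] (fun x : ℝ => x ^ (1 / 4 : ℝ)) :=
    isLittleO_log_rpow_rpow_atTop 2 (by norm_num)
  have h2' : ∀ᶠ M : ℕ in atTop, ‖Real.log (M:ℝ) ^ (2:ℝ)‖ ≤ c * ‖(M:ℝ) ^ (1 / 4 : ℝ)‖ :=
    tendsto_natCast_atTop_atTop.eventually (h1.bound hc)
  filter_upwards [h, h2', eventually_ge_atTop 3] with M h3 h4 h5
  refine le_trans ?_ h3
  have hM0 : (0:ℝ) < M := by exact_mod_cast (by omega : 0 < M)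
  have hM3 : (3:ℝ) ≤ M := by exact_mod_cast h5
  have hl : 0 < Real.log M := Real.log_pos (by linarith)
  rw [Real.norm_of_nonneg (by positivity), Real.norm_of_nonneg (by positivity)] at h4
  have h6 : Real.log (M:ℝ) ^ (2:ℝ) = Real.log M ^ 2 := by
    rw [← Real.rpow_natCast]; norm_num
  rw [h6] at h4
  rw [← mul_div_assoc, le_div_iff₀ (by positivity)]
  calc (M:ℝ) ^ (3 / 4 : ℝ) * Real.log M ^ 2 ≤ (M:ℝ) ^ (3 / 4 : ℝ) * (c * (M:ℝ) ^ (1 / 4 : ℝ)) :=
        mul_le_mul_of_nonneg_left h4 (by positivity)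
    _ = c * ((M:ℝ) ^ (3 / 4 : ℝ) * (M:ℝ) ^ (1 / 4 : ℝ)) := by ring
    _ = c * M := by
        rw [← Real.rpow_add hM0]
        norm_num

theorem pos8 (h4 : S_M4) (hMU : S_MU) : S_POS8 := by
  classical
  intro p κ hp hκ Ω _ P _ E hM
  obtain ⟨n₀, hn₀⟩ := eventually_atTop.1 hκ
  have hlow := mu_pow_low hMU hp n₀
  -- almost surely, for fixed `ε`
  have hscale : ∀ ε : ℝ, 0 < ε → ∀ᵐ ω ∂P, ∀ᶠ M : ℕ in atTop,
      |(((Ico n₀ ((M + 1) / 2)).filter (fun x => ω ∈ E x ∩ E (M - x))).card : ℝ) -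
        mu p n₀ M| < ε * mu p n₀ M := by
    intro ε hε
    have hev : ∀ᶠ M : ℕ in atTop, P {ω | ε * mu p n₀ M ≤
        |(((Ico n₀ ((M + 1) / 2)).filter (fun x => ω ∈ E x ∩ E (M - x))).card : ℝ) -
          mu p n₀ M|} ≤ ENNReal.ofReal (4 / ε ^ 4 * (1 / (M:ℝ) ^ (3 / 2 : ℝ))) := by
      filter_upwards [hlow, eventually_ge_atTop 1] with M h1 h2
      have hM1 : (1:ℝ) ≤ M := by exact_mod_cast h2
      have hμ1 : 1 ≤ mu p n₀ M := le_trans (Real.one_le_rpow hM1 (by norm_num)) h1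
      have key := h4 Ω P (Ico n₀ ((M + 1) / 2)) (fun x => E x ∩ E (M - x))
        (fun x => p x * p (M - x)) (ε * mu p n₀ M)
        (fun a _ => (hM.meas a).inter (hM.meas _))
        (fun a _ => ⟨mul_nonneg (hp.nonneg _) (hp.nonneg _),
          mul_le_one₀ (hp.le_one _) (hp.nonneg _) (hp.le_one _)⟩)
        (fun T hT hTc => pairs_indep hM (K := 4) (fun n hn => hn₀ n hn) M T hT hTc)
        (by positivity)
      have hmu : ∑ a ∈ Ico n₀ ((M + 1) / 2), p a * p (M - a) = mu p n₀ M := rfl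
      rw [hmu] at key
      refine le_trans (le_of_eq ?_) (key.trans (ENNReal.ofReal_le_ofReal ?_))
      · congr!
      · set μ := mu p n₀ M with hμ
        have hμ0 : 0 < μ := by linarith
        have e1 : (3 * μ ^ 2 + μ) / (ε * μ) ^ 4 ≤ 4 / ε ^ 4 * (1 / μ ^ 2) := by
          rw [div_le_iff₀ (by positivity)]
          have e2 : 4 / ε ^ 4 * (1 / μ ^ 2) * (ε * μ) ^ 4 = 4 * μ ^ 2 := by
            field_simp
          rw [e2]
          nlinarith
        refine e1.trans (mul_le_mul_of_nonneg_left ?_ (by positivity))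
        apply one_div_le_one_div_of_le (by positivity)
        have e3 : (M:ℝ) ^ (3 / 2 : ℝ) = ((M:ℝ) ^ (3 / 4 : ℝ)) ^ 2 := by
          rw [← Real.rpow_natCast, ← Real.rpow_mul (by linarith)]
          norm_num
        rw [e3]
        exact pow_le_pow_left₀ (by positivity) h1 2
    obtain ⟨M₁, hM₁⟩ := eventually_atTop.1 hev
    have hsum : ∑' M : ℕ, P (if M₁ ≤ M then {ω | ε * mu p n₀ M ≤
        |(((Ico n₀ ((M + 1) / 2)).filter (fun x => ω ∈ E x ∩ E (M - x))).card : ℝ) -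
          mu p n₀ M|} else ∅) ≠ ⊤ := by
      have h1 : Summable (fun M : ℕ => 4 / ε ^ 4 * (1 / (M:ℝ) ^ (3 / 2 : ℝ))) :=
        (Real.summable_one_div_nat_rpow.2 (by norm_num)).mul_left _
      refine ne_top_of_le_ne_top h1.tsum_ofReal_ne_top (ENNReal.tsum_le_tsum fun M => ?_)
      split_ifs with h
      · exact hM₁ M h
      · simp
    filter_upwards [ae_eventually_notMem hsum] with ω hω
    filter_upwards [hω, eventually_ge_atTop M₁] with M h1 h2
    rw [if_pos h2] at h1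
    simpa only [Set.mem_ofPred_eq, not_le] using h1
  have hall : ∀ᵐ ω ∂P, ∀ k : ℕ, ∀ᶠ M : ℕ in atTop,
      |(((Ico n₀ ((M + 1) / 2)).filter (fun x => ω ∈ E x ∩ E (M - x))).card : ℝ) -
        mu p n₀ M| < 1 / ((k:ℝ) + 1) * mu p n₀ M := by
    rw [ae_all_iff]
    exact fun k => hscale _ (by positivity)
  filter_upwards [hall] with ω hω
  rw [Metric.tendsto_nhds]
  intro η hη
  obtain ⟨k, hk⟩ := exists_nat_one_div_lt (show 0 < η / 2 by positivity)
  have hbig : ∀ᶠ M : ℕ in atTop, 4 * (n₀ + 1 : ℝ) / η ≤ (M:ℝ) ^ (3 / 4 : ℝ) :=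
    ((tendsto_rpow_atTop (by norm_num : (0:ℝ) < 3 / 4)).comp
      tendsto_natCast_atTop_atTop).eventually_ge_atTop _
  filter_upwards [hω k, hlow, hbig] with M h1 h2 h3
  have h5 := rep_close E ω n₀ M
  have h6 := mu_le hp n₀ M
  have h7 := le_mu hp n₀ M
  have hμ0 : 0 ≤ mu p n₀ M := mu_nonneg hp n₀ M
  have h8 : 4 * (n₀ + 1 : ℝ) / η ≤ mu p 0 M := h3.trans (h2.trans h6)
  have hn0 : (0:ℝ) ≤ n₀ := Nat.cast_nonneg n₀
  have hm0 : 0 < mu p 0 M := lt_of_lt_of_le (by positivity) h8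
  rw [div_le_iff₀ hη] at h8
  rw [Real.dist_eq]
  have e1 : (rep E ω M : ℝ) / mu p 0 M - 1 = ((rep E ω M : ℝ) - mu p 0 M) / mu p 0 M := by
    field_simp
  rw [e1, abs_div, abs_of_pos hm0, div_lt_iff₀ hm0]
  have h9 : 1 / ((k:ℝ) + 1) * mu p n₀ M ≤ η / 2 * mu p 0 M := by
    apply mul_le_mul hk.le h6 hμ0 (by positivity)
  have h10 := abs_le.1 h5
  have h11 := abs_lt.1 h1
  rw [abs_lt]
  constructor <;> nlinarith [h10.1, h10.2, h11.1, h11.2]

end Pool.Agent.H37.GB
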