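import Pool.Agent.H37.GB.Stm

/-! # The sequence of blocks (helper56), for GB-SOME7 and GB-SOME3 -/

set_option autoImplicit false

namespace Pool.Agent.H37.GB

open Finset MeasureTheory Filter Topology Q198.CI

/-- the ends of the blocks -/
def ends (f : ℕ → ℕ → ℕ) (y₀ : ℕ) : ℕ → ℕ
  | 0 => y₀
  | i + 1 => f i (ends f y₀ i) - 1

lemma mass_true {I : Finset ℕ} {K : ℕ} {p : ℕ → ℝ} {w : Finset ℕ → ℝ} (h : IsLaw I K p w) :
    mass I w (fun _ => True) = 1 := by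
  classical
  have h1 := h.2 ∅ (empty_subset _) (by simp)
  rw [prod_empty] at h1
  unfold mass
  simp only [if_true]
  rw [← h1]
  refine sum_congr ?_ fun _ _ => rfl
  ext S
  simp

theorem blocks (hG : S_GLUE) (K : ℕ) (p : ℕ → ℝ) (hp : IsDens p) (c : ℕ → ℝ) (hc : ∀ k, 0 < c k)
    (Y₀ : ℕ → ℕ) (Good : ℕ → ℕ → ℕ → Finset ℕ → Prop)
    (hB : ∀ k Y, Y₀ k ≤ Y → ∀ᶠ M : ℕ in atTop, M.Prime → ∃ w : Finset ℕ → ℝ,
      IsLaw (Ioo Y M) K p w ∧ c k ≤ mass (Ioo Y M) w (Good k Y M)) :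
    ∃ (Ω : Type) (_ : MeasurableSpace Ω) (P : Measure Ω) (_ : IsProbabilityMeasure P)
      (E : ℕ → Set Ω), (∀ n, MeasurableSet (E n)) ∧
      (∀ T : Finset ℕ, T.card ≤ K → P (⋂ n ∈ T, E n) = ENNReal.ofReal (∏ n ∈ T, p n)) ∧
      ∀ᵐ ω ∂P, ∀ k N, ∃ (Y M : ℕ) (A : Finset ℕ), N ≤ Y ∧ 2 * (Y + 1) < M ∧
        (∀ n, n ∈ A ↔ Y < n ∧ n < M ∧ ω ∈ E n) ∧ Good k Y M A := by
  classical
  obtain ⟨lab, hlab⟩ : ∃ lab : ℕ → ℕ, ∀ k N, ∃ i, N ≤ i ∧ lab i = k :=
    ⟨fun i => (Nat.unpair i).2, fun k N => ⟨Nat.pair N k, Nat.left_le_pair N k, by simp⟩⟩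
  have hex : ∀ i Y : ℕ, ∃ M, 2 * (Y + 1) < M ∧ Y₀ (lab (i + 2)) < M ∧
      (Y₀ (lab (i + 1)) ≤ Y → ∃ w : Finset ℕ → ℝ, IsLaw (Ioo Y M) K p w ∧
        c (lab (i + 1)) ≤ mass (Ioo Y M) w (Good (lab (i + 1)) Y M)) := by
    intro i Y
    by_cases hY : Y₀ (lab (i + 1)) ≤ Y
    · obtain ⟨M₁, hM₁⟩ := eventually_atTop.mp (hB (lab (i + 1)) Y hY)
      obtain ⟨M, hM, hMp⟩ := Nat.exists_infinite_primes
        (max M₁ (max (2 * (Y + 1) + 1) (Y₀ (lab (i + 2)) + 1)))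
      have h1 : M₁ ≤ M := (le_max_left _ _).trans hM
      have h2 : 2 * (Y + 1) + 1 ≤ M := ((le_max_left _ _).trans (le_max_right _ _)).trans hM
      have h3 : Y₀ (lab (i + 2)) + 1 ≤ M := ((le_max_right _ _).trans (le_max_right _ _)).trans hM
      exact ⟨M, by omega, by omega, fun _ => hM₁ M h1 hMp⟩
    · exact ⟨2 * (Y + 1) + Y₀ (lab (i + 2)) + 1, by omega, by omega, fun h => absurd h hY⟩
  choose f hf1 hf2 hf3 using hex
  obtain ⟨Y, hYd⟩ : ∃ Y, Y = ends f (Y₀ (lab 1)) := ⟨_, rfl⟩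
  have hY0 : Y 0 = Y₀ (lab 1) := by rw [hYd]; rfl
  have hYs : ∀ i, Y (i + 1) + 1 = f i (Y i) := by
    intro i
    have h1 : Y (i + 1) = f i (Y i) - 1 := by rw [hYd]; rfl
    have := hf1 i (Y i)
    omega
  have hYge : ∀ i, Y₀ (lab (i + 1)) ≤ Y i := by
    intro i
    rcases i with _ | i
    · exact hY0.ge
    · have h1 := hf2 i (Y i)
      have h2 := hYs i
      have h3 : lab (i + 1 + 1) = lab (i + 2) := rfl
      rw [h3]
      omega
  have hYlt : ∀ i, 2 * (Y i + 1) < Y (i + 1) + 1 := by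
    intro i
    rw [hYs i]
    exact hf1 i (Y i)
  have hYmono : StrictMono Y := strictMono_nat_of_lt_succ fun i => by
    have := hYlt i
    omega
  have hYid : ∀ i, i ≤ Y i := fun i => hYmono.le_apply
  have hbex : ∀ n, ∃ i, n ≤ Y i := fun n => ⟨n, hYid n⟩
  obtain ⟨b, hb1, hb2⟩ : ∃ b : ℕ → ℕ, (∀ n, n ≤ Y (b n)) ∧ ∀ n i, i < b n → Y i < n :=
    ⟨fun n => Nat.find (hbex n), fun n => Nat.find_spec (hbex n), fun n i hi => by
      have := Nat.find_min (hbex n) hi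
      omega⟩
  obtain ⟨R, hR0, hRs⟩ : ∃ R : ℕ → Finset ℕ, R 0 = range (Y 0 + 1) ∧
      ∀ i, R (i + 1) = Ioo (Y i) (Y (i + 1) + 1) :=
    ⟨fun i => Nat.casesOn i (range (Y 0 + 1)) fun i => Ioo (Y i) (Y (i + 1) + 1), rfl, fun _ => rfl⟩
  have hw : ∀ i, ∃ w : Finset ℕ → ℝ, IsLaw (R (i + 1)) K p w ∧
      c (lab (i + 1)) ≤ mass (R (i + 1)) w (Good (lab (i + 1)) (Y i) (Y (i + 1) + 1)) := by
    intro i
    rw [hRs i, hYs i]
    exact hf3 i (Y i) (hYge i)
  choose w hw1 hw2 using hw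
  obtain ⟨Ω, mΩ, P, hP, E, hE1, hE2, hE3⟩ := hG K p b R
    (fun i => Nat.casesOn i (fun S => (∏ n ∈ S, p n) * ∏ n ∈ R 0 \ S, (1 - p n)) w) lab
    (fun k => min (c k) 1)
    (fun i => Nat.casesOn i (fun _ => True) fun i => Good (lab (i + 1)) (Y i) (Y (i + 1) + 1))
    (by
      intro n i
      rcases i with _ | i
      · rw [hR0, mem_range]
        constructor
        · intro h
          by_contra hne
          have := hb2 n 0 (by omega)
          omega
        · intro h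
          have := hb1 n
          rw [h] at this
          omega
      · rw [hRs i, mem_Ioo]
        constructor
        · rintro ⟨h1, h2⟩
          rcases lt_trichotomy (b n) (i + 1) with h3 | h3 | h3
          · have h4 := hb1 n
            have h5 : Y (b n) ≤ Y i := hYmono.monotone (by omega)
            omega
          · exact h3
          · have h4 := hb2 n (i + 1) h3
            omega
        · intro h
          constructor
          · exact hb2 n i (by omega)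
          · have := hb1 n
            rw [h] at this
            omega)
    hp.nonneg
    (by
      intro i
      rcases i with _ | i
      · exact law_prod (R 0) hp.nonneg hp.le_one K
      · exact hw1 i)
    (fun k => lt_min (hc k) one_pos) hlab
    (by
      intro i
      rcases i with _ | i
      · show min (c (lab 0)) 1 ≤ mass (R 0) (fun S => (∏ n ∈ S, p n) * ∏ n ∈ R 0 \ S, (1 - p n))
          (fun _ => True)
        rw [mass_true (law_prod (R 0) hp.nonneg hp.le_one K)]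
        exact min_le_right _ _
      · exact (min_le_left _ _).trans (hw2 i))
  refine ⟨Ω, mΩ, P, hP, E, hE1, hE2, ?_⟩
  filter_upwards [hE3] with ω hω
  intro k N
  obtain ⟨i, hi1, hi2, A, hA1, hA2⟩ := frequently_atTop.mp (hω k) (N + 1)
  obtain ⟨j, rfl⟩ : ∃ j, i = j + 1 := ⟨i - 1, by omega⟩
  refine ⟨Y j, Y (j + 1) + 1, A, ?_, hYlt j, ?_, ?_⟩
  · have := hYid j
    omega
  · intro n
    rw [hA1, hRs j, mem_Ioo]
    tauto
  · rw [← hi2]
    exact hA2

end Pool.Agent.H37.GB
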