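import Pool.Agent.H37.GB.SOME7

/-! # GB-SOME3: a model of order 3 with exceptions of upper density one (helper56) -/

set_option autoImplicit false

namespace Pool.Agent.H37.GB

open Finset MeasureTheory Filter Topology Q198.CI

open Classical in
theorem some3 : S_BLK3 → S_GLUE → S_SOME3 := by
  intro hB hG p hp
  have hε : ∀ k : ℕ, 0 < 1 / ((k : ℝ) + 2) ∧ 1 / ((k : ℝ) + 2) < 1 := by
    intro k
    have hk : (0 : ℝ) ≤ k := Nat.cast_nonneg k
    refine ⟨by positivity, ?_⟩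
    rw [div_lt_one (by linarith)]
    linarith
  have h0 := fun k : ℕ => hB p hp.nonneg hp.zero (1 / ((k : ℝ) + 2)) (hε k).1 (hε k).2
  choose c hc Y₀ hY₀ using h0
  obtain ⟨Ω, mΩ, P, hP, E, hE1, hE2, hE3⟩ := blocks hG 3 p hp c hc Y₀
    (fun k Y M A => (1 - 1 / ((k : ℝ) + 2)) * M ≤
      (((Ioo (2 * Y) M).filter (fun N => Miss Y N A)).card : ℝ))
    hY₀
  refine ⟨Ω, mΩ, P, hP, E, hE1, hE2, ?_⟩
  filter_upwards [hE3] with ω hω
  intro ε hε0
  rw [frequently_atTop]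
  intro N₀
  obtain ⟨k, hk⟩ := exists_nat_gt (1 / ε)
  obtain ⟨Y, M, A, h1, h2, h3, h4⟩ := hω k N₀
  refine ⟨M, by omega, ?_⟩
  have h5 : 1 / ((k : ℝ) + 2) ≤ ε := by
    rw [div_lt_iff₀ hε0] at hk
    rw [div_le_iff₀ (by positivity)]
    nlinarith
  have h6 : (1 - ε) * (M : ℝ) ≤ (1 - 1 / ((k : ℝ) + 2)) * M :=
    mul_le_mul_of_nonneg_right (by linarith) (Nat.cast_nonneg _)
  refine h6.trans (h4.trans ?_)
  have hfin : {N : ℕ | N < M ∧ ∀ x y, ω ∈ E x → ω ∈ E y → x < y → x + y ≠ N}.Finite :=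
    (Set.finite_lt_nat M).subset fun N hN => hN.1
  have h7 : (((Ioo (2 * Y) M).filter (fun N => Miss Y N A) : Finset ℕ) : Set ℕ) ⊆
      {N : ℕ | N < M ∧ ∀ x y, ω ∈ E x → ω ∈ E y → x < y → x + y ≠ N} := by
    intro N hN
    rw [mem_coe, mem_filter, mem_Ioo] at hN
    exact ⟨hN.1.2, miss_all h3 hN.1.1 hN.1.2 hN.2⟩
  have h8 := Set.ncard_le_ncard h7 hfin
  rw [Set.ncard_coe_finset] at h8
  exact_mod_cast h8

end Pool.Agent.H37.GB
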