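import Pool.Agent.H37.GB.SEQ

/-! # GB-SOME7: a model of order 7 with infinitely many exceptions (helper56) -/

set_option autoImplicit false

namespace Pool.Agent.H37.GB

open Finset MeasureTheory Filter Topology Q198.CI

/-- an integer `N` missed by the block is not a sum of two distinct elements of the whole set -/
lemma miss_all {Ω : Type} {E : ℕ → Set Ω} {ω : Ω} {Y M N : ℕ} {A : Finset ℕ}
    (hA : ∀ n, n ∈ A ↔ Y < n ∧ n < M ∧ ω ∈ E n) (hN1 : 2 * Y < N) (hN2 : N < M)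
    (hm : Miss Y N A) : ∀ x y, ω ∈ E x → ω ∈ E y → x < y → x + y ≠ N := by
  intro x y hx hy hxy he
  have hyA : y ∈ A := (hA y).mpr ⟨by omega, by omega, hy⟩
  rcases Nat.lt_or_ge Y x with h1 | h1
  · have hxA : x ∈ A := (hA x).mpr ⟨h1, by omega, hx⟩
    exact hm.2 x hxA y hyA hxy he
  · have h2 := hm.1 x h1
    have h3 : N - x = y := by omega
    rw [h3] at h2
    exact h2 hyA

theorem some7 : S_BLK7 → S_GLUE → S_SOME7 := by
  intro hB hG p hp
  obtain ⟨c, hc, Y₀, hY₀⟩ := hB p hp.nonneg hp.zero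
  obtain ⟨Ω, mΩ, P, hP, E, hE1, hE2, hE3⟩ := blocks hG 7 p hp (fun _ => c) (fun _ => hc)
    (fun _ => Y₀) (fun _ Y M A => ∃ N, 2 * Y < N ∧ N < M ∧ Miss Y N A)
    (fun _ Y hY => hY₀ Y hY)
  refine ⟨Ω, mΩ, P, hP, E, hE1, hE2, ?_⟩
  filter_upwards [hE3] with ω hω
  rw [frequently_atTop]
  intro N₀
  obtain ⟨Y, M, A, h1, _, h3, N, hN1, hN2, hN3⟩ := hω 0 N₀
  exact ⟨N, by omega, miss_all h3 hN1 hN2 hN3⟩

end Pool.Agent.H37.GB
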