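import Pool.Agent.H50.L.CI.Dyad
import Pool.Agent.H50.L.LI.A

/-! # Project GB (MP_61161c_nt): the exact order of independence behind Goldbach's conjecture

`E n` is the event that the odd number `2 n + 1` is chosen, `P (E n) = p n`; a model of order `κ`:
every finite `T` with `|T| ≤ κ n` for `n ∈ T` is contained in the random set with probability
`∏ p n`. Even `N = 2 (M + 1)` is a sum of two distinct chosen odd numbers iff `M = x + y`, `x < y`,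
`E x` and `E y`. Aim:
* order 8: a.s. all large `M` are represented, asymptotically as often as expected;
* order 7 is not enough (a.s. infinitely many exceptions in some model);
* order 4: a.s. at most `(log X)^(3+ε)` exceptions up to `X`;
* order 3 is not enough (exceptions of upper density one in some model).
-/

set_option autoImplicit false

namespace Pool.Agent.H37.GB

open Finset MeasureTheory Filter Topology Q198.CI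

/-- the densities -/
structure IsDens (p : ℕ → ℝ) : Prop where
  nonneg : ∀ n, 0 ≤ p n
  le_one : ∀ n, p n ≤ 1
  zero : Tendsto p atTop (𝓝 0)
  low : ∃ c : ℝ, 0 < c ∧ ∀ᶠ n : ℕ in atTop, c / Real.log n ≤ p n

/-- models of order `κ` -/
structure Model {Ω : Type} [MeasurableSpace Ω] (P : Measure Ω) (p : ℕ → ℝ) (κ : ℕ → ℕ)
    (E : ℕ → Set Ω) : Prop where
  meas : ∀ n, MeasurableSet (E n)
  indep : ∀ T : Finset ℕ, (∀ n ∈ T, T.card ≤ κ n) →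
    P (⋂ n ∈ T, E n) = ENNReal.ofReal (∏ n ∈ T, p n)

/-- the expected number of `x < y` in the random set with `x + y = M`, `n₀ ≤ x` -/
noncomputable def mu (p : ℕ → ℝ) (n₀ M : ℕ) : ℝ :=
  ∑ x ∈ Ico n₀ ((M + 1) / 2), p x * p (M - x)

open Classical in
/-- the number of `x < y` in the random set with `x + y = M` -/
noncomputable def rep {Ω : Type} (E : ℕ → Set Ω) (ω : Ω) (M : ℕ) : ℕ :=
  ((range ((M + 1) / 2)).filter (fun x => ω ∈ E x ∧ ω ∈ E (M - x))).card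

/-! ## the positive part -/

open Classical in
/-- `S_M4`: the fourth moment of a sum of 4-wise independent indicators -/
def S_M4 : Prop := ∀ (Ω : Type) [MeasurableSpace Ω] (P : Measure Ω) [IsProbabilityMeasure P]
  (s : Finset ℕ) (F : ℕ → Set Ω) (q : ℕ → ℝ) (t : ℝ), (∀ a ∈ s, MeasurableSet (F a)) →
  (∀ a ∈ s, 0 ≤ q a ∧ q a ≤ 1) →
  (∀ T ⊆ s, T.card ≤ 4 → P (⋂ a ∈ T, F a) = ENNReal.ofReal (∏ a ∈ T, q a)) → 0 < t →
  P {ω | t ≤ |((s.filter (fun a => ω ∈ F a)).card : ℝ) - ∑ a ∈ s, q a|} ≤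
    ENNReal.ofReal ((3 * (∑ a ∈ s, q a) ^ 2 + ∑ a ∈ s, q a) / t ^ 4)

/-- `S_M2`: the second moment method for pairwise independent events -/
def S_M2 : Prop := ∀ (Ω : Type) [MeasurableSpace Ω] (P : Measure Ω) [IsProbabilityMeasure P]
  (s : Finset ℕ) (F : ℕ → Set Ω) (q : ℕ → ℝ), (∀ a ∈ s, MeasurableSet (F a)) →
  (∀ a ∈ s, 0 ≤ q a ∧ q a ≤ 1) →
  (∀ T ⊆ s, T.card ≤ 2 → P (⋂ a ∈ T, F a) = ENNReal.ofReal (∏ a ∈ T, q a)) →
  0 < ∑ a ∈ s, q a → P (⋂ a ∈ s, (F a)ᶜ) ≤ ENNReal.ofReal (1 / ∑ a ∈ s, q a)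

/-- `S_MU`: the expectation is at least `c M / log² M` -/
def S_MU : Prop := ∀ p : ℕ → ℝ, IsDens p → ∀ n₀ : ℕ, ∃ c : ℝ, 0 < c ∧ ∀ᶠ M : ℕ in atTop,
  c * (M / Real.log M ^ 2) ≤ mu p n₀ M

/-- `S_POS8`: order 8 gives the asymptotic formula -/
def S_POS8 : Prop := ∀ (p : ℕ → ℝ) (κ : ℕ → ℕ), IsDens p → (∀ᶠ n : ℕ in atTop, 8 ≤ κ n) →
  ∀ (Ω : Type) [MeasurableSpace Ω] (P : Measure Ω) [IsProbabilityMeasure P] (E : ℕ → Set Ω),
    Model P p κ E → ∀ᵐ ω ∂P, Tendsto (fun M : ℕ => (rep E ω M : ℝ) / mu p 0 M) atTop (𝓝 1)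

/-- `S_POS4`: order 4 bounds the number of exceptions -/
def S_POS4 : Prop := ∀ (p : ℕ → ℝ) (κ : ℕ → ℕ), IsDens p → (∀ᶠ n : ℕ in atTop, 4 ≤ κ n) →
  ∀ (Ω : Type) [MeasurableSpace Ω] (P : Measure Ω) [IsProbabilityMeasure P] (E : ℕ → Set Ω),
    Model P p κ E → ∀ᵐ ω ∂P, ∀ ε : ℝ, 0 < ε → ∀ᶠ X : ℕ in atTop,
      ({M : ℕ | M ≤ X ∧ rep E ω M = 0}.ncard : ℝ) ≤ Real.log X ^ (3 + ε)

/-! ## laws from random fields -/

open Classical in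
/-- the probability of the property `G` -/
noncomputable def mass (I : Finset ℕ) (w : Finset ℕ → ℝ) (G : Finset ℕ → Prop) : ℝ :=
  ∑ A ∈ I.powerset, if G A then w A else 0

/-- the law of the random set with independent elements `n ∈ I` of probability `p n (1 + m n)` -/
def wl (I : Finset ℕ) (p m : ℕ → ℝ) (A : Finset ℕ) : ℝ :=
  (∏ n ∈ A, p n * (1 + m n)) * ∏ n ∈ I \ A, (1 - p n * (1 + m n))

/-- a random field on `ZMod M` (weights `W θ`, values `m θ x`) with values in `[-1, B]`, all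
whose correlations up to order `K` vanish -/
structure Fld (M K : ℕ) (B : ℝ) {Θ : Type} [Fintype Θ] (W : Θ → ℝ) (m : Θ → ZMod M → ℝ) :
    Prop where
  nonneg : ∀ θ, 0 ≤ W θ
  sum : ∑ θ, W θ = 1
  low : ∀ θ x, -1 ≤ m θ x
  upp : ∀ θ x, m θ x ≤ B
  corr : ∀ S : Finset (ZMod M), S.Nonempty → S.card ≤ K → ∑ θ, W θ * ∏ x ∈ S, m θ x = 0

/-- `S_LAW`: from fields to laws -/
def S_LAW : Prop := ∀ (M K : ℕ) (B : ℝ) (Θ : Type) [Fintype Θ] (W : Θ → ℝ)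
  (m : Θ → ZMod M → ℝ) (p : ℕ → ℝ) (I : Finset ℕ), Fld M K B W m → 0 ≤ B → (∀ n ∈ I, n < M) →
  (∀ n ∈ I, 0 ≤ p n ∧ p n * (1 + B) ≤ 1) →
  IsLaw I K p (fun A => ∑ θ, W θ * wl I p (fun n => m θ n) A)

/-! ## the field of order 7 -/

/-- the halves `U` of `S` with as many elements as the complement and the same sum -/
def spl {M : ℕ} (S : Finset (ZMod M)) : Finset (Finset (ZMod M)) :=
  S.powerset.filter (fun U => 2 * U.card = S.card ∧ ∑ x ∈ U, x = ∑ x ∈ S \ U, x)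

/-- `e(x / M)` -/
noncomputable def eM (M : ℕ) [NeZero M] (x : ZMod M) : ℂ := ZMod.stdAddChar x

/-- a real wave with phase `u` and frequency `β` -/
noncomputable def wave (M : ℕ) [NeZero M] (z : ZMod M → ℂ) (u : ZMod 8) (β x : ZMod M) : ℝ :=
  (eM 8 u * eM M (β * x) * z x).re

/-- `S_WAVE`: random phases and modulations -/
def S_WAVE : Prop := ∀ (M : ℕ) [NeZero M] (z : ZMod M → ℂ) (S : Finset (ZMod M)), S.Nonempty →
  S.card ≤ 7 → ((1 / (8 * M) * ∑ u : ZMod 8, ∑ β : ZMod M, ∏ x ∈ S, wave M z u β x : ℝ) : ℂ) =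
    (1 / 2) ^ S.card * ∑ U ∈ spl S, (∏ x ∈ U, z x) * ∏ x ∈ S \ U, (starRingEnd ℂ) (z x)

/-- the average of `∏ z (x) ∏ conj z (x)` over quadratic phases -/
noncomputable def avQ (M : ℕ) [NeZero M] (U V : Finset (ZMod M)) : ℂ :=
  1 / (M - 1) * ∑ α ∈ univ.erase (0 : ZMod M), (∏ x ∈ U, eM M (α * x ^ 2)) *
    ∏ x ∈ V, (starRingEnd ℂ) (eM M (α * x ^ 2))

/-- the average of `∏ z (x) ∏ conj z (x)` over cubic phases -/
noncomputable def avC (M : ℕ) [NeZero M] (U V : Finset (ZMod M)) : ℂ :=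
  1 / ((M - 1) * M) * ∑ δ ∈ univ.erase (0 : ZMod M), ∑ α : ZMod M,
    (∏ x ∈ U, eM M (δ * x ^ 3 + α * x ^ 2)) * ∏ x ∈ V, (starRingEnd ℂ) (eM M (δ * x ^ 3 + α * x ^ 2))

open Classical in
/-- the average of `∏ z (x) ∏ conj z (x)` over shifted multiplicative characters -/
noncomputable def avA (M : ℕ) [NeZero M] (U V : Finset (ZMod M)) : ℂ :=
  1 / ((M - 2) * M) * ∑ ψ ∈ univ.erase (1 : DirichletCharacter ℂ M), ∑ s : ZMod M,
    (∏ x ∈ U, ψ (x + s)) * ∏ x ∈ V, (starRingEnd ℂ) (ψ (x + s))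

/-- `S_VQC`: the values of the averages over quadratic and cubic phases -/
def S_VQC : Prop := ∀ (M : ℕ) [NeZero M], M.Prime → 11 ≤ M → ∀ U V : Finset (ZMod M),
  Disjoint U V → U.card = V.card → ∑ x ∈ U, x = ∑ x ∈ V, x →
  U.card ≠ 1 ∧
  (U.card = 2 → avQ M U V = -1 / (M - 1) ∧ avC M U V = 0) ∧
  (U.card = 3 → ∑ x ∈ U, x ^ 2 ≠ ∑ x ∈ V, x ^ 2 → avQ M U V = -1 / (M - 1) ∧ avC M U V = 0) ∧
  (U.card = 3 → ∑ x ∈ U, x ^ 2 = ∑ x ∈ V, x ^ 2 → avQ M U V = 1 ∧ avC M U V = -1 / (M - 1))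

/-- `S_VA`: the values of the averages over shifted multiplicative characters -/
def S_VA : Prop := ∀ (M : ℕ) [NeZero M], M.Prime → 11 ≤ M → ∀ U V : Finset (ZMod M),
  Disjoint U V → U.card = V.card → ∑ x ∈ U, x = ∑ x ∈ V, x →
  (U.card = 2 → avA M U V = -(M - 4) / (M * (M - 2))) ∧
  (U.card = 3 → ∑ x ∈ U, x ^ 2 ≠ ∑ x ∈ V, x ^ 2 → avA M U V = 5 / (M * (M - 2))) ∧
  (U.card = 3 → ∑ x ∈ U, x ^ 2 = ∑ x ∈ V, x ^ 2 → avA M U V = -(M - 6) / (M * (M - 2)))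

/-- the field of the pairs: `x` and `N - x` have the same sign (`σ = true`) or opposite signs -/
def pairF {M : ℕ} (N : ZMod M) (σ : Bool) (η : ZMod M → Bool) (x : ZMod M) : ℝ :=
  if x.val < (N - x).val then (if η x then 1 else -1)
  else if (N - x).val < x.val then (if σ then 1 else -1) * (if η (N - x) then 1 else -1) else 0

/-- `S_PAIR`: the correlations of the field of the pairs -/
def S_PAIR : Prop := ∀ (M : ℕ) [NeZero M], M.Prime → 11 ≤ M → ∀ S : Finset (ZMod M), S.Nonempty →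
  S.card ≤ 7 → 1 / (M * 2 * 2 ^ M : ℝ) * ∑ N : ZMod M, ∑ σ : Bool, ∑ η : ZMod M → Bool,
    ∏ x ∈ S, pairF N σ η x = if S.card = 4 then ((spl S).card : ℝ) / (2 * M) else 0

/-- `S_FLD7`: the field of order 7 -/
def S_FLD7 : Prop := ∀ (M : ℕ) [NeZero M], M.Prime → 11 ≤ M →
  ∃ (Θ : Type) (_ : Fintype Θ) (W : Θ → ℝ) (m : Θ → ZMod M → ℝ) (τ : Θ → Option (ZMod M)),
    Fld M 7 1 W m ∧
    (∀ N, 1 / (200 * M : ℝ) ≤ ∑ θ, if τ θ = some N then W θ else 0) ∧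
    ∀ θ N, τ θ = some N → ∀ x, x ≠ N - x → m θ x = -1 ∨ m θ (N - x) = -1

/-! ## the field of order 3 -/

/-- `S_FLD3`: for `θ` in a set of positive weight the sums `x + y` of two places where the field
is not `-1` avoid `Bad θ`, which has almost all residues -/
def S_FLD3 : Prop := ∀ ε : ℝ, 0 < ε → ε < 1 → ∃ c B : ℝ, 0 < c ∧ 0 ≤ B ∧ ∃ M₀ : ℕ,
  ∀ (M : ℕ) [NeZero M], M.Prime → M₀ ≤ M →
  ∃ (Θ : Type) (_ : Fintype Θ) (W : Θ → ℝ) (m : Θ → ZMod M → ℝ) (Θ₀ : Finset Θ)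
    (Bad : Θ → Finset (ZMod M)), Fld M 3 B W m ∧ c ≤ ∑ θ ∈ Θ₀, W θ ∧
    ∀ θ ∈ Θ₀, (1 - ε) * M ≤ ((Bad θ).card : ℝ) ∧
      ∀ x y, x + y ∈ Bad θ → m θ x = -1 ∨ m θ y = -1

/-! ## laws on blocks -/

/-- `N` is not a sum of two distinct elements of `A` and no `N - a`, `a ≤ Y`, belongs to `A` -/
def Miss (Y N : ℕ) (A : Finset ℕ) : Prop :=
  (∀ a ≤ Y, N - a ∉ A) ∧ ∀ a ∈ A, ∀ b ∈ A, a < b → a + b ≠ N

/-- `S_BLK7` -/
def S_BLK7 : Prop := ∀ p : ℕ → ℝ, (∀ n, 0 ≤ p n) → Tendsto p atTop (𝓝 0) →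
  ∃ c : ℝ, 0 < c ∧ ∃ Y₀ : ℕ, ∀ Y : ℕ, Y₀ ≤ Y → ∀ᶠ M : ℕ in atTop, M.Prime →
    ∃ w : Finset ℕ → ℝ, IsLaw (Ioo Y M) 7 p w ∧
      c ≤ mass (Ioo Y M) w (fun A => ∃ N, 2 * Y < N ∧ N < M ∧ Miss Y N A)

open Classical in
/-- `S_BLK3` -/
def S_BLK3 : Prop := ∀ p : ℕ → ℝ, (∀ n, 0 ≤ p n) → Tendsto p atTop (𝓝 0) →
  ∀ ε : ℝ, 0 < ε → ε < 1 → ∃ c : ℝ, 0 < c ∧ ∃ Y₀ : ℕ, ∀ Y : ℕ, Y₀ ≤ Y →
    ∀ᶠ M : ℕ in atTop, M.Prime → ∃ w : Finset ℕ → ℝ, IsLaw (Ioo Y M) 3 p w ∧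
      c ≤ mass (Ioo Y M) w (fun A =>
        (1 - ε) * M ≤ (((Ioo (2 * Y) M).filter (fun N => Miss Y N A)).card : ℝ))

/-- `S_GLUE`: independent blocks with labels; good events of probability `≥ c k` in infinitely
many blocks of every label `k` -/
def S_GLUE : Prop := ∀ (K : ℕ) (p : ℕ → ℝ) (b : ℕ → ℕ) (R : ℕ → Finset ℕ)
  (w : ℕ → Finset ℕ → ℝ) (lab : ℕ → ℕ) (c : ℕ → ℝ) (G : ℕ → Finset ℕ → Prop),
  (∀ n i, n ∈ R i ↔ b n = i) → (∀ n, 0 ≤ p n) → (∀ i, IsLaw (R i) K p (w i)) →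
  (∀ k, 0 < c k) → (∀ k N, ∃ i, N ≤ i ∧ lab i = k) → (∀ i, c (lab i) ≤ mass (R i) (w i) (G i)) →
  ∃ (Ω : Type) (_ : MeasurableSpace Ω) (P : Measure Ω) (_ : IsProbabilityMeasure P)
    (E : ℕ → Set Ω), (∀ n, MeasurableSet (E n)) ∧
    (∀ T : Finset ℕ, T.card ≤ K → P (⋂ n ∈ T, E n) = ENNReal.ofReal (∏ n ∈ T, p n)) ∧
    ∀ᵐ ω ∂P, ∀ k, ∃ᶠ i : ℕ in atTop, lab i = k ∧
      ∃ A : Finset ℕ, (∀ n, n ∈ A ↔ n ∈ R i ∧ ω ∈ E n) ∧ G i A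

/-! ## the models -/

/-- `S_SOME7`: a model of order 7 with infinitely many exceptions -/
def S_SOME7 : Prop := ∀ p : ℕ → ℝ, IsDens p →
  ∃ (Ω : Type) (_ : MeasurableSpace Ω) (P : Measure Ω) (_ : IsProbabilityMeasure P)
    (E : ℕ → Set Ω), (∀ n, MeasurableSet (E n)) ∧
    (∀ T : Finset ℕ, T.card ≤ 7 → P (⋂ n ∈ T, E n) = ENNReal.ofReal (∏ n ∈ T, p n)) ∧
    ∀ᵐ ω ∂P, ∃ᶠ M : ℕ in atTop, ∀ x y, ω ∈ E x → ω ∈ E y → x < y → x + y ≠ M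

/-- `S_SOME3`: a model of order 3 with exceptions of upper density one -/
def S_SOME3 : Prop := ∀ p : ℕ → ℝ, IsDens p →
  ∃ (Ω : Type) (_ : MeasurableSpace Ω) (P : Measure Ω) (_ : IsProbabilityMeasure P)
    (E : ℕ → Set Ω), (∀ n, MeasurableSet (E n)) ∧
    (∀ T : Finset ℕ, T.card ≤ 3 → P (⋂ n ∈ T, E n) = ENNReal.ofReal (∏ n ∈ T, p n)) ∧
    ∀ᵐ ω ∂P, ∀ ε : ℝ, 0 < ε → ∃ᶠ X : ℕ in atTop, (1 - ε) * X ≤
      ({M : ℕ | M < X ∧ ∀ x y, ω ∈ E x → ω ∈ E y → x < y → x + y ≠ M}.ncard : ℝ)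

end Pool.Agent.H37.GB
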