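import Pool.Agent.H37.GB.Stm

/-! GB-VA: averages over shifted multiplicative characters (helper63) -/

set_option autoImplicit false

namespace Pool.Agent.H37.GB

open Finset

namespace VA

variable {M : ℕ} [NeZero M]

/-- the product of the shifts -/
def PU (U : Finset (ZMod M)) (s : ZMod M) : ZMod M := ∏ x ∈ U, (x + s)

open Classical in
lemma char_sum (hM : M.Prime) (a : ZMod M) :
    ∑ ψ ∈ univ.erase (1 : DirichletCharacter ℂ M), ψ a =
      (if a = 1 then ((M : ℂ) - 1) else 0) - if a ≠ 0 then 1 else 0 := by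
  haveI : Fact M.Prime := ⟨hM⟩
  have h1 := DirichletCharacter.sum_characters_eq ℂ a
  have h2 := Finset.add_sum_erase univ (fun ψ : DirichletCharacter ℂ M => ψ a) (mem_univ 1)
  have h3 : (1 : DirichletCharacter ℂ M) a = if a ≠ 0 then 1 else 0 := by
    split_ifs with h
    · exact MulChar.one_apply (isUnit_iff_ne_zero.2 h)
    · push Not at h
      rw [h]
      exact MulChar.map_nonunit _ (by simp)
  have h4 : ((M.totient : ℕ) : ℂ) = (M : ℂ) - 1 := by
    rw [Nat.totient_prime hM, Nat.cast_sub hM.one_lt.le]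
    simp
  rw [h4] at h1
  rw [← h1, ← h2, ← h3]
  ring

lemma prod_char (hM : M.Prime) (ψ : DirichletCharacter ℂ M) (U V : Finset (ZMod M)) (s : ZMod M) :
    (∏ x ∈ U, ψ (x + s)) * ∏ x ∈ V, (starRingEnd ℂ) (ψ (x + s)) = ψ (PU U s * (PU V s)⁻¹) := by
  haveI : Fact M.Prime := ⟨hM⟩
  have h1 : ∀ x, (starRingEnd ℂ) (ψ (x + s)) = ψ ((x + s)⁻¹) := by
    intro x
    have := MulChar.star_apply' ψ (x + s)
    rw [MulChar.inv_apply'] at this
    exact this
  simp only [h1]
  rw [← map_prod, ← map_prod, ← map_mul]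
  unfold PU
  rw [prod_inv_distrib]

lemma PU_eq_zero (hM : M.Prime) (U : Finset (ZMod M)) (s : ZMod M) : PU U s = 0 ↔ -s ∈ U := by
  haveI : Fact M.Prime := ⟨hM⟩
  unfold PU
  rw [prod_eq_zero_iff]
  constructor
  · rintro ⟨x, hx, h⟩
    have : x = -s := eq_neg_of_add_eq_zero_left h
    rwa [← this]
  · intro h
    exact ⟨-s, h, by ring⟩

open Classical in
lemma avA_eq (hM : M.Prime) (U V : Finset (ZMod M)) (hd : Disjoint U V) :
    avA M U V = 1 / ((M - 2) * M) * (((M : ℂ) - 1) *
      ((univ.filter (fun s : ZMod M => PU U s = PU V s)).card : ℂ) -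
        ((M : ℂ) - U.card - V.card)) := by
  haveI : Fact M.Prime := ⟨hM⟩
  unfold avA
  congr 1
  rw [sum_comm]
  simp only [prod_char hM]
  simp only [char_sum hM]
  rw [sum_sub_distrib]
  have h1 : ∀ s : ZMod M, (PU U s * (PU V s)⁻¹ = 1 ↔ PU U s = PU V s) := by
    intro s
    by_cases h : PU V s = 0
    · rw [h]
      constructor
      · intro h'; simp at h'
      · intro h'
        exfalso
        rw [PU_eq_zero hM] at h h'
        exact (Finset.disjoint_left.1 hd h') h
    · rw [mul_inv_eq_one₀ h]
  have h2 : ∀ s : ZMod M, (PU U s * (PU V s)⁻¹ ≠ 0 ↔ -s ∈ (U ∪ V)ᶜ) := by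
    intro s
    rw [mul_ne_zero_iff, Ne, Ne, inv_eq_zero, PU_eq_zero hM, PU_eq_zero hM, mem_compl, mem_union]
    tauto
  simp only [h1, h2]
  congr 1
  · rw [← sum_filter, sum_const, nsmul_eq_mul, mul_comm]
  · rw [← sum_filter, sum_const, nsmul_eq_mul, mul_one]
    have h3 : (univ.filter (fun s : ZMod M => -s ∈ (U ∪ V)ᶜ)).card = (U ∪ V)ᶜ.card := by
      apply card_bij (fun s _ => -s)
      · intro s hs
        exact (mem_filter.1 hs).2
      · intro s _ s' _ h
        exact neg_injective h
      · intro t ht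
        refine ⟨-t, ?_, neg_neg t⟩
        rw [mem_filter]
        exact ⟨mem_univ _, by rwa [neg_neg]⟩
    rw [h3, card_compl, ZMod.card, card_union_of_disjoint hd, Nat.cast_sub]
    · push_cast; ring
    · rw [← card_union_of_disjoint hd]
      calc (U ∪ V).card ≤ Fintype.card (ZMod M) := card_le_univ _
        _ = M := ZMod.card M

end VA

open VA Classical in
theorem va : S_VA := by
  intro M _ hM hM11 U V hd hcard hsum
  haveI : Fact M.Prime := ⟨hM⟩
  have hM2 : (2 : ZMod M) ≠ 0 := by
    intro h
    have h1 : ((2 : ℕ) : ZMod M) = 0 := by exact_mod_cast h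
    rw [ZMod.natCast_eq_zero_iff] at h1
    have := Nat.le_of_dvd (by norm_num) h1
    omega
  have key := avA_eq hM U V hd
  rw [← hcard] at key
  refine ⟨?_, ?_, ?_⟩
  · intro h2
    obtain ⟨a, b, hab, hU⟩ := card_eq_two.1 h2
    obtain ⟨c, d, hcd, hV⟩ := card_eq_two.1 (hcard.symm.trans h2)
    have hac : a ≠ c := by
      rintro rfl
      exact Finset.disjoint_left.1 hd (by simp [hU]) (show a ∈ V by simp [hV])
    have had : a ≠ d := by
      rintro rfl
      exact Finset.disjoint_left.1 hd (by simp [hU]) (show a ∈ V by simp [hV])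
    rw [hU, hV, sum_pair hab, sum_pair hcd] at hsum
    have hn : (univ.filter (fun s : ZMod M => PU U s = PU V s)) = ∅ := by
      rw [filter_eq_empty_iff]
      intro s _ h
      rw [hU, hV] at h
      unfold PU at h
      rw [prod_pair hab, prod_pair hcd] at h
      have h3 : (a - c) * (a - d) = 0 := by
        linear_combination (-1 : ZMod M) * h + (a + s) * hsum
      rcases mul_eq_zero.1 h3 with h4 | h4
      · exact hac (sub_eq_zero.1 h4)
      · exact had (sub_eq_zero.1 h4)
    rw [key, hn, h2, card_empty]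
    push_cast
    ring
  · intro h3 hsq
    obtain ⟨a, b, c, hab, hac, hbc, hU⟩ := card_eq_three.1 h3
    obtain ⟨d, e, f, hde, hdf, hef, hV⟩ := card_eq_three.1 (hcard.symm.trans h3)
    have s3 : ∀ (g : ZMod M → ZMod M) (x y z : ZMod M), x ≠ y → x ≠ z → y ≠ z →
        ∑ t ∈ ({x, y, z} : Finset (ZMod M)), g t = g x + g y + g z := by
      intro g x y z h1 h2 h3
      rw [sum_insert (by simp [h1, h2]), sum_pair h3]
      ring
    have p3 : ∀ (g : ZMod M → ZMod M) (x y z : ZMod M), x ≠ y → x ≠ z → y ≠ z →
        ∏ t ∈ ({x, y, z} : Finset (ZMod M)), g t = g x * g y * g z := by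
      intro g x y z h1 h2 h3
      rw [prod_insert (by simp [h1, h2]), prod_pair h3]
      ring
    rw [hU, hV, s3 _ a b c hab hac hbc, s3 _ d e f hde hdf hef] at hsum hsq
    set q : ZMod M := (a * b + a * c + b * c) - (d * e + d * f + e * f) with hq
    set r : ZMod M := a * b * c - d * e * f with hr
    have hq0 : q ≠ 0 := by
      intro h
      apply hsq
      have : a ^ 2 + b ^ 2 + c ^ 2 - (d ^ 2 + e ^ 2 + f ^ 2) = 0 := by
        have e1 : a ^ 2 + b ^ 2 + c ^ 2 - (d ^ 2 + e ^ 2 + f ^ 2) =
            (a + b + c) ^ 2 - (d + e + f) ^ 2 - 2 * q := by rw [hq]; ring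
        rw [e1, h, hsum]
        ring
      exact sub_eq_zero.1 this
    have hn : (univ.filter (fun s : ZMod M => PU U s = PU V s)) = {-r / q} := by
      ext s
      rw [mem_filter, mem_singleton]
      have e1 : PU U s - PU V s = q * s + r := by
        rw [hU, hV]
        unfold PU
        rw [p3 _ a b c hab hac hbc, p3 _ d e f hde hdf hef, hq, hr]
        linear_combination (s ^ 2) * hsum
      constructor
      · rintro ⟨_, h⟩
        rw [eq_div_iff hq0]
        rw [h, sub_self] at e1
        linear_combination -e1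
      · intro h
        refine ⟨mem_univ _, ?_⟩
        rw [← sub_eq_zero, e1, h]
        field_simp
        ring
    rw [key, hn, h3, card_singleton]
    push_cast
    ring
  · intro h3 hsq
    obtain ⟨a, b, c, hab, hac, hbc, hU⟩ := card_eq_three.1 h3
    obtain ⟨d, e, f, hde, hdf, hef, hV⟩ := card_eq_three.1 (hcard.symm.trans h3)
    have s3 : ∀ (g : ZMod M → ZMod M) (x y z : ZMod M), x ≠ y → x ≠ z → y ≠ z →
        ∑ t ∈ ({x, y, z} : Finset (ZMod M)), g t = g x + g y + g z := by
      intro g x y z h1 h2 h3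
      rw [sum_insert (by simp [h1, h2]), sum_pair h3]
      ring
    have p3 : ∀ (g : ZMod M → ZMod M) (x y z : ZMod M), x ≠ y → x ≠ z → y ≠ z →
        ∏ t ∈ ({x, y, z} : Finset (ZMod M)), g t = g x * g y * g z := by
      intro g x y z h1 h2 h3
      rw [prod_insert (by simp [h1, h2]), prod_pair h3]
      ring
    rw [hU, hV, s3 _ a b c hab hac hbc, s3 _ d e f hde hdf hef] at hsum hsq
    have had : a ≠ d := by
      rintro rfl
      exact Finset.disjoint_left.1 hd (by simp [hU]) (show a ∈ V by simp [hV])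
    have hae : a ≠ e := by
      rintro rfl
      exact Finset.disjoint_left.1 hd (by simp [hU]) (show a ∈ V by simp [hV])
    have haf : a ≠ f := by
      rintro rfl
      exact Finset.disjoint_left.1 hd (by simp [hU]) (show a ∈ V by simp [hV])
    have hn : (univ.filter (fun s : ZMod M => PU U s = PU V s)) = ∅ := by
      rw [filter_eq_empty_iff]
      intro s _ h
      rw [hU, hV] at h
      unfold PU at h
      rw [p3 _ a b c hab hac hbc, p3 _ d e f hde hdf hef] at h
      -- elementary symmetric polynomials agree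
      have h2 : (a * b + a * c + b * c) = (d * e + d * f + e * f) := by
        have e1 : 2 * ((a * b + a * c + b * c) - (d * e + d * f + e * f)) = 0 := by
          linear_combination (a + b + c + d + e + f) * hsum - hsq
        have := (mul_eq_zero.1 e1).resolve_left hM2
        exact sub_eq_zero.1 this
      have h1 : a * b * c = d * e * f := by
        linear_combination h - s ^ 2 * hsum - s * h2
      have h0 : (a - d) * ((a - e) * (a - f)) = 0 := by
        linear_combination (a ^ 2) * hsum - a * h2 + h1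
      rcases mul_eq_zero.1 h0 with h4 | h4
      · exact had (sub_eq_zero.1 h4)
      · rcases mul_eq_zero.1 h4 with h5 | h5
        · exact hae (sub_eq_zero.1 h5)
        · exact haf (sub_eq_zero.1 h5)
    rw [key, hn, h3, card_empty]
    push_cast
    ring

end Pool.Agent.H37.GB
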