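import Pool.Agent.H37.GB.Stm

set_option autoImplicit false

namespace Pool.Agent.H37.GB.VQCp

open Finset

variable {M : ℕ} [NeZero M]

lemma eM_add (x y : ZMod M) : eM M (x + y) = eM M x * eM M y := AddChar.map_add_eq_mul _ _ _

lemma eM_zero : eM M (0 : ZMod M) = 1 := AddChar.map_zero_eq_one _

lemma eM_neg (x : ZMod M) : eM M (-x) = (starRingEnd ℂ) (eM M x) :=
  AddChar.map_neg_eq_conj _ _

lemma eM_sum (U : Finset (ZMod M)) (g : ZMod M → ZMod M) :
    eM M (∑ x ∈ U, g x) = ∏ x ∈ U, eM M (g x) := by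
  classical
  induction U using Finset.induction_on with
  | empty => simp [eM_zero]
  | insert a s ha ih => rw [sum_insert ha, prod_insert ha, eM_add, ih]

lemma prod_split (U V : Finset (ZMod M)) (g : ZMod M → ZMod M) :
    (∏ x ∈ U, eM M (g x)) * ∏ x ∈ V, (starRingEnd ℂ) (eM M (g x)) =
      eM M (∑ x ∈ U, g x - ∑ x ∈ V, g x) := by
  rw [sub_eq_add_neg, eM_add, eM_sum, eM_neg, eM_sum, map_prod]

lemma sum_all (t : ZMod M) : ∑ α : ZMod M, eM M (α * t) = if t = 0 then (M : ℂ) else 0 := by
  have h := AddChar.sum_mulShift (ψ := (ZMod.stdAddChar : AddChar (ZMod M) ℂ)) t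
    (ZMod.isPrimitive_stdAddChar M)
  rw [ZMod.card] at h
  unfold eM
  rw [h]
  split_ifs <;> simp

lemma sum_erase0 (t : ZMod M) : ∑ α ∈ univ.erase (0 : ZMod M), eM M (α * t) =
    (if t = 0 then (M : ℂ) else 0) - 1 := by
  have h := Finset.add_sum_erase (univ : Finset (ZMod M)) (fun α => eM M (α * t))
    (mem_univ (0 : ZMod M))
  rw [sum_all, zero_mul, eM_zero] at h
  rw [← h]; ring

lemma avQ_eq (U V : Finset (ZMod M)) : avQ M U V = 1 / (M - 1) *
    ((if (∑ x ∈ U, x ^ 2 - ∑ x ∈ V, x ^ 2 : ZMod M) = 0 then (M : ℂ) else 0) - 1) := by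
  unfold avQ
  rw [← sum_erase0]
  congr 1
  refine sum_congr rfl fun α _ => ?_
  rw [prod_split, ← mul_sum, ← mul_sum, mul_sub]

lemma avC_eq (U V : Finset (ZMod M)) : avC M U V = 1 / ((M - 1) * M) *
    ((if (∑ x ∈ U, x ^ 2 - ∑ x ∈ V, x ^ 2 : ZMod M) = 0 then (M : ℂ) else 0) *
      ((if (∑ x ∈ U, x ^ 3 - ∑ x ∈ V, x ^ 3 : ZMod M) = 0 then (M : ℂ) else 0) - 1)) := by
  unfold avC
  congr 1
  rw [← sum_erase0 (∑ x ∈ U, x ^ 3 - ∑ x ∈ V, x ^ 3), mul_sum]
  refine sum_congr rfl fun δ _ => ?_
  rw [← sum_all (∑ x ∈ U, x ^ 2 - ∑ x ∈ V, x ^ 2), sum_mul]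
  refine sum_congr rfl fun α _ => ?_
  rw [prod_split, ← eM_add]
  congr 1
  simp only [sum_add_distrib, ← mul_sum]
  ring

end VQCp

open Finset VQCp

theorem vqc : S_VQC := by
  intro M _ hM h11 U V hd hc hs
  have : Fact M.Prime := ⟨hM⟩
  have hM0 : (M : ℂ) ≠ 0 := by exact_mod_cast hM.ne_zero
  have hM1 : (M : ℂ) - 1 ≠ 0 := by
    rw [sub_ne_zero]; exact_mod_cast hM.one_lt.ne'
  have h2 : (2 : ZMod M) ≠ 0 := by
    intro h
    have : ((2 : ℕ) : ZMod M) = 0 := by exact_mod_cast h
    rw [ZMod.natCast_eq_zero_iff] at this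
    have := Nat.le_of_dvd (by norm_num) this
    omega
  have h3 : (3 : ZMod M) ≠ 0 := by
    intro h
    have : ((3 : ℕ) : ZMod M) = 0 := by exact_mod_cast h
    rw [ZMod.natCast_eq_zero_iff] at this
    have := Nat.le_of_dvd (by norm_num) this
    omega
  refine ⟨?_, ?_, ?_, ?_⟩
  · intro h1
    obtain ⟨a, rfl⟩ := card_eq_one.mp h1
    obtain ⟨b, rfl⟩ := card_eq_one.mp (hc ▸ h1)
    simp only [sum_singleton] at hs
    subst hs
    simp at hd
  · intro h
    have hne : (∑ x ∈ U, x ^ 2 - ∑ x ∈ V, x ^ 2 : ZMod M) ≠ 0 := by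
      intro h0
      obtain ⟨a, b, hab, rfl⟩ := card_eq_two.mp h
      obtain ⟨c, d, hcd, rfl⟩ := card_eq_two.mp (hc ▸ h)
      rw [sum_pair hab, sum_pair hcd] at h0 hs
      have hac : a ≠ c := fun e => (disjoint_left.mp hd (mem_insert_self a _)) (by simp [e])
      have had : a ≠ d := fun e => (disjoint_left.mp hd (mem_insert_self a _)) (by simp [e])
      have : 2 * ((a - c) * (a - d)) = 0 := by
        linear_combination h0 - (a + b + c + d) * hs + 2 * a * hs
      rcases mul_eq_zero.mp this with h | h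
      · exact h2 h
      · rcases mul_eq_zero.mp h with h | h
        · exact hac (sub_eq_zero.mp h)
        · exact had (sub_eq_zero.mp h)
    rw [avQ_eq, avC_eq, if_neg hne]
    constructor
    · ring
    · ring
  · intro h hne'
    have hne : (∑ x ∈ U, x ^ 2 - ∑ x ∈ V, x ^ 2 : ZMod M) ≠ 0 := sub_ne_zero.mpr hne'
    rw [avQ_eq, avC_eq, if_neg hne]
    constructor
    · ring
    · ring
  · intro h heq
    have hne : (∑ x ∈ U, x ^ 3 - ∑ x ∈ V, x ^ 3 : ZMod M) ≠ 0 := by
      intro h0
      obtain ⟨a, b, c, hab, hac, hbc, rfl⟩ := card_eq_three.mp h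
      obtain ⟨d, e, f, hde, hdf, hef, rfl⟩ := card_eq_three.mp (hc ▸ h)
      have ea : ∀ g : ZMod M → ZMod M, ∑ x ∈ ({a, b, c} : Finset (ZMod M)), g x =
          g a + g b + g c := by
        intro g
        rw [sum_insert (by simp [hab, hac]), sum_pair hbc]; ring
      have ed : ∀ g : ZMod M → ZMod M, ∑ x ∈ ({d, e, f} : Finset (ZMod M)), g x =
          g d + g e + g f := by
        intro g
        rw [sum_insert (by simp [hde, hdf]), sum_pair hef]; ring
      rw [ea, ed] at h0 hs heq
      have had : a ≠ d := fun e => (disjoint_left.mp hd (mem_insert_self a _)) (by simp [e])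
      have hae : a ≠ e := fun e => (disjoint_left.mp hd (mem_insert_self a _)) (by simp [e])
      have haf : a ≠ f := fun e => (disjoint_left.mp hd (mem_insert_self a _)) (by simp [e])
      -- elementary symmetric functions
      have e2 : a * b + a * c + b * c = d * e + d * f + e * f := by
        have : 2 * (a * b + a * c + b * c - (d * e + d * f + e * f)) = 0 := by
          linear_combination (a + b + c + d + e + f) * hs - heq
        rcases mul_eq_zero.mp this with h | h
        · exact absurd h h2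
        · exact sub_eq_zero.mp h
      have e3 : a * b * c = d * e * f := by
        have : 3 * (a * b * c - d * e * f) = 0 := by
          -- p3 = e1^3 - 3 e1 e2 + 3 e3
          have hp : ∀ x y z : ZMod M, 3 * (x * y * z) = (x ^ 3 + y ^ 3 + z ^ 3) -
            (x + y + z) ^ 3 + 3 * (x + y + z) * (x * y + x * z + y * z) := by
            intro x y z; ring
          rw [mul_sub, hp a b c, hp d e f, hs, e2]
          linear_combination h0
        rcases mul_eq_zero.mp this with h | h
        · exact absurd h h3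
        · exact sub_eq_zero.mp h
      have : (a - d) * ((a - e) * (a - f)) = 0 := by
        linear_combination a ^ 2 * hs - a * e2 + e3
      rcases mul_eq_zero.mp this with h | h
      · exact had (sub_eq_zero.mp h)
      · rcases mul_eq_zero.mp h with h | h
        · exact hae (sub_eq_zero.mp h)
        · exact haf (sub_eq_zero.mp h)
    rw [avQ_eq, avC_eq, if_neg hne, if_pos (sub_eq_zero.mpr heq)]
    constructor
    · field_simp
    · field_simp
      ring

end Pool.Agent.H37.GB
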