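import Pool.Agent.H37.GB.Stm

set_option autoImplicit false

namespace Pool.Agent.H37.GB.WAVEp

open Finset

variable {M : ℕ} [NeZero M]

lemma eM_add (x y : ZMod M) : eM M (x + y) = eM M x * eM M y := AddChar.map_add_eq_mul _ _ _

lemma eM_zero : eM M (0 : ZMod M) = 1 := AddChar.map_zero_eq_one _

lemma eM_neg (x : ZMod M) : eM M (-x) = (starRingEnd ℂ) (eM M x) :=
  AddChar.map_neg_eq_conj _ _

lemma eM_sum (U : Finset (ZMod M)) (g : ZMod M → ZMod M) :
    eM M (∑ x ∈ U, g x) = ∏ x ∈ U, eM M (g x) := by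
  classical
  induction U using Finset.induction_on with
  | empty => simp [eM_zero]
  | insert a s ha ih => rw [sum_insert ha, prod_insert ha, eM_add, ih]

lemma eM_pow (x : ZMod M) (n : ℕ) : eM M x ^ n = eM M (n * x) := by
  induction n with
  | zero => simp [eM_zero]
  | succ n ih => rw [pow_succ, ih, ← eM_add]; congr 1; push_cast; ring

lemma sum_all (t : ZMod M) : ∑ α : ZMod M, eM M (α * t) = if t = 0 then (M : ℂ) else 0 := by
  have h := AddChar.sum_mulShift (ψ := (ZMod.stdAddChar : AddChar (ZMod M) ℂ)) t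
    (ZMod.isPrimitive_stdAddChar M)
  rw [ZMod.card] at h
  unfold eM
  rw [h]
  split_ifs <;> simp

/-- one term of the expansion -/
lemma term (z : ZMod M → ℂ) (U V : Finset (ZMod M)) (u : ZMod 8) (β : ZMod M) :
    (∏ x ∈ U, eM 8 u * eM M (β * x) * z x) *
      ∏ x ∈ V, (starRingEnd ℂ) (eM 8 u * eM M (β * x) * z x) =
    eM 8 (u * ((U.card : ZMod 8) - V.card)) * eM M (β * (∑ x ∈ U, x - ∑ x ∈ V, x)) *
      ((∏ x ∈ U, z x) * ∏ x ∈ V, (starRingEnd ℂ) (z x)) := by
  simp only [map_mul, prod_mul_distrib, prod_const, ← eM_neg, ← eM_sum, eM_pow]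
  rw [show u * ((U.card : ZMod 8) - V.card) = (U.card : ZMod 8) * u + (V.card : ZMod 8) * -u by
    ring, eM_add, show β * (∑ x ∈ U, x - ∑ x ∈ V, x) = ∑ x ∈ U, β * x + ∑ x ∈ V, -(β * x) by
      rw [sum_neg_distrib, ← mul_sum, ← mul_sum]; ring, eM_add]
  ring

end WAVEp

open Finset WAVEp

theorem wave_avg : S_WAVE := by
  classical
  intro M _ z S hS hc
  have hM0 : (M : ℂ) ≠ 0 := by exact_mod_cast NeZero.ne M
  have hw : ∀ u : ZMod 8, ∀ β : ZMod M, ((∏ x ∈ S, wave M z u β x : ℝ) : ℂ) =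
      (1 / 2) ^ S.card * ∑ U ∈ S.powerset, (∏ x ∈ U, eM 8 u * eM M (β * x) * z x) *
        ∏ x ∈ S \ U, (starRingEnd ℂ) (eM 8 u * eM M (β * x) * z x) := by
    intro u β
    rw [Complex.ofReal_prod, ← prod_add, ← prod_const, ← prod_mul_distrib]
    refine prod_congr rfl fun x _ => ?_
    unfold wave
    rw [Complex.re_eq_add_conj]
    ring
  have hspl : ∀ U ∈ S.powerset,
      (((U.card : ZMod 8) - (S \ U).card = 0 ∧ ∑ x ∈ U, x - ∑ x ∈ S \ U, x = 0) ↔
        (2 * U.card = S.card ∧ ∑ x ∈ U, x = ∑ x ∈ S \ U, x)) := by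
    intro U hU
    rw [mem_powerset] at hU
    have h1 := card_sdiff_add_card_eq_card hU
    rw [sub_eq_zero, sub_eq_zero]
    refine and_congr ?_ Iff.rfl
    rw [ZMod.natCast_eq_natCast_iff']
    omega
  push_cast
  simp only [← Complex.ofReal_prod, hw]
  simp only [term]
  have key : ∀ U ∈ S.powerset, (1 / (8 * (M : ℂ))) * ∑ u : ZMod 8, ∑ β : ZMod M,
      eM 8 (u * ((U.card : ZMod 8) - (S \ U).card)) *
        eM M (β * (∑ x ∈ U, x - ∑ x ∈ S \ U, x)) *
        ((∏ x ∈ U, z x) * ∏ x ∈ S \ U, (starRingEnd ℂ) (z x)) =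
      if (2 * U.card = S.card ∧ ∑ x ∈ U, x = ∑ x ∈ S \ U, x) then
        (∏ x ∈ U, z x) * ∏ x ∈ S \ U, (starRingEnd ℂ) (z x) else 0 := by
    intro U hU
    simp only [← sum_mul, ← mul_sum]
    rw [sum_all, sum_all]
    by_cases h : (2 * U.card = S.card ∧ ∑ x ∈ U, x = ∑ x ∈ S \ U, x)
    · have h' := (hspl U hU).mpr h
      rw [if_pos h'.1, if_pos h'.2, if_pos h]
      push_cast
      field_simp
    · rw [if_neg h]
      have h' := mt (hspl U hU).mp h
      rw [not_and_or] at h'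
      rcases h' with h' | h'
      · rw [if_neg h']; simp
      · rw [if_neg h']; simp
  unfold spl
  rw [sum_filter, ← sum_congr rfl key]
  simp only [← mul_sum]
  rw [mul_left_comm]
  congr 2
  refine (sum_congr rfl fun u _ => sum_comm).trans sum_comm

end Pool.Agent.H37.GB
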